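import Mathlib

set_option autoImplicit false
set_option linter.unusedSectionVars false
set_option linter.style.haveILetI false

namespace Pool.Agent.H216Z.DioA

open scoped nonZeroDivisors

/-- A degree function on a `K`-algebra coming from a unique rational place at infinity. -/
structure IsDeg (K : Type) {O : Type} [Field K] [CommRing O] [Algebra K O] (δ : O → ℕ) :
    Prop where
  mul : ∀ x y, x ≠ 0 → y ≠ 0 → δ (x * y) = δ x + δ y
  add : ∀ x y, x ≠ 0 → y ≠ 0 → x + y ≠ 0 → δ (x + y) ≤ max (δ x) (δ y)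
  const : ∀ c : K, c ≠ 0 → δ (algebraMap K O c) = 0
  cancel : ∀ x y, x ≠ 0 → y ≠ 0 → δ x = δ y → ∃ c : K, x - c • y = 0 ∨ δ (x - c • y) < δ x
  surj : ∃ n0, ∀ n, n0 ≤ n → ∃ x, x ≠ 0 ∧ δ x = n

section Basic

variable {K O : Type} [Field K] [CommRing O] [IsDomain O] [Algebra K O] {δ : O → ℕ}

theorem alg_ne_zero {c : K} (hc : c ≠ 0) : algebraMap K O c ≠ 0 := by
  intro h
  exact hc ((algebraMap K O).injective (by simpa using h))

theorem IsDeg.smul (h : IsDeg K δ) (c : K) (hc : c ≠ 0) (x : O) (hx : x ≠ 0) :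
    δ (c • x) = δ x := by
  rw [Algebra.smul_def, h.mul _ _ (alg_ne_zero hc) hx, h.const c hc, zero_add]

theorem IsDeg.one (h : IsDeg K δ) : δ 1 = 0 := by
  have := h.const 1 one_ne_zero
  simpa using this

theorem IsDeg.unit (h : IsDeg K δ) {x : O} (hx : IsUnit x) :
    ∃ c : K, c ≠ 0 ∧ x = algebraMap K O c := by
  obtain ⟨y, hy⟩ := hx.exists_right_inv
  have hx0 : x ≠ 0 := hx.ne_zero
  have hy0 : y ≠ 0 := by
    rintro rfl
    simp at hy
  have h1 := h.mul x y hx0 hy0
  rw [hy, h.one] at h1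
  have hδ : δ x = 0 := by omega
  obtain ⟨c, hc⟩ := h.cancel x 1 hx0 one_ne_zero (by rw [hδ, h.one])
  rcases hc with hc | hc
  · have hxc : x = algebraMap K O c := by
      rw [Algebra.algebraMap_eq_smul_one]
      exact sub_eq_zero.mp hc
    refine ⟨c, ?_, hxc⟩
    rintro rfl
    exact hx0 (by simpa using hxc)
  · omega

/-- The elements of degree `< m`. -/
def V (h : IsDeg K δ) (m : ℕ) : Submodule K O where
  carrier := {x | x = 0 ∨ δ x < m}
  zero_mem' := Or.inl rfl
  add_mem' := by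
    intro x y hx hy
    by_cases hx0 : x = 0
    · subst hx0
      simpa using hy
    by_cases hy0 : y = 0
    · subst hy0
      simpa using hx
    by_cases hxy : x + y = 0
    · exact Or.inl hxy
    have h1 := h.add x y hx0 hy0 hxy
    have h2 : δ x < m := hx.resolve_left hx0
    have h3 : δ y < m := hy.resolve_left hy0
    right
    exact lt_of_le_of_lt h1 (max_lt h2 h3)
  smul_mem' := by
    intro c x hx
    by_cases hx0 : x = 0
    · subst hx0
      left
      simp
    by_cases hc : c = 0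
    · subst hc
      left
      simp
    right
    rw [h.smul c hc x hx0]
    exact hx.resolve_left hx0

theorem mem_V (h : IsDeg K δ) {m : ℕ} {x : O} : x ∈ V h m ↔ x = 0 ∨ δ x < m := Iff.rfl

theorem V_zero (h : IsDeg K δ) : V h 0 = ⊥ := by
  ext x
  simp [mem_V]

theorem V_mono (h : IsDeg K δ) {m n : ℕ} (hmn : m ≤ n) : V h m ≤ V h n := by
  intro x hx
  rcases hx with hx | hx
  · exact Or.inl hx
  · exact Or.inr (lt_of_lt_of_le hx hmn)

theorem V_succ_of_exists (h : IsDeg K δ) {m : ℕ} {y : O} (hy : y ≠ 0) (hm : δ y = m) :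
    V h (m + 1) = V h m ⊔ Submodule.span K {y} := by
  apply le_antisymm
  · intro x hx
    by_cases hxm : x ∈ V h m
    · exact Submodule.mem_sup_left hxm
    have hx0 : x ≠ 0 := fun h0 => hxm (Or.inl h0)
    have hd : δ x = m := by
      have h1 : δ x < m + 1 := hx.resolve_left hx0
      have h2 : ¬ δ x < m := fun h2 => hxm (Or.inr h2)
      omega
    obtain ⟨c, hc⟩ := h.cancel x y hx0 hy (by rw [hd, hm])
    have h3 : x - c • y ∈ V h m := by
      rcases hc with hc | hc
      · exact Or.inl hc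
      · exact Or.inr (by omega)
    have h4 : x = (x - c • y) + c • y := by ring
    rw [h4]
    exact Submodule.add_mem_sup h3 (Submodule.smul_mem _ _ (Submodule.mem_span_singleton_self y))
  · refine sup_le (V_mono h (by omega)) ?_
    rw [Submodule.span_singleton_le_iff_mem]
    exact Or.inr (by omega)

theorem V_succ_of_not (h : IsDeg K δ) {m : ℕ} (hm : ¬ ∃ y : O, y ≠ 0 ∧ δ y = m) :
    V h (m + 1) = V h m := by
  apply le_antisymm _ (V_mono h (by omega))
  intro x hx
  by_cases hx0 : x = 0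
  · exact Or.inl hx0
  have h1 : δ x < m + 1 := hx.resolve_left hx0
  have h2 : δ x ≠ m := fun h2 => hm ⟨x, hx0, h2⟩
  exact Or.inr (by omega)

instance V_finite (h : IsDeg K δ) (m : ℕ) : Module.Finite K (V h m) := by
  induction m with
  | zero => rw [V_zero]; infer_instance
  | succ m ih =>
    by_cases hm : ∃ y : O, y ≠ 0 ∧ δ y = m
    · obtain ⟨y, hy, hm⟩ := hm
      rw [V_succ_of_exists h hy hm]
      infer_instance
    · rw [V_succ_of_not h hm]
      exact ih

theorem finrank_V_succ (h : IsDeg K δ) {m : ℕ} (hm : ∃ y : O, y ≠ 0 ∧ δ y = m) :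
    Module.finrank K (V h (m + 1)) = Module.finrank K (V h m) + 1 := by
  obtain ⟨y, hy, hm⟩ := hm
  rw [V_succ_of_exists h hy hm]
  have hv : y ∉ V h m := by
    intro hv
    rcases hv with hv | hv
    · exact hy hv
    · omega
  have h1 := Submodule.finrank_sup_add_finrank_inf_eq (V h m) (Submodule.span K {y})
  rw [(Submodule.disjoint_span_singleton_of_notMem hv).eq_bot, finrank_bot,
    finrank_span_singleton hy] at h1
  omega

theorem finrank_V_add (h : IsDeg K δ) {n0 : ℕ} (hn0 : ∀ n, n0 ≤ n → ∃ x, x ≠ 0 ∧ δ x = n)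
    {m : ℕ} (hm : n0 ≤ m) (k : ℕ) :
    Module.finrank K (V h (m + k)) = Module.finrank K (V h m) + k := by
  induction k with
  | zero => rfl
  | succ k ih =>
    rw [← add_assoc, finrank_V_succ h (hn0 _ (by omega)), ih, add_assoc]

theorem exists_rem (h : IsDeg K δ) {n0 : ℕ} (hn0 : ∀ n, n0 ≤ n → ∃ x, x ≠ 0 ∧ δ x = n)
    {x : O} (hx : x ≠ 0) (y : O) : ∃ v ∈ V h (n0 + δ x), ∃ u, y = v + x * u := by
  induction hn : δ y using Nat.strong_induction_on generalizing y with
  | _ n ih =>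
    by_cases hy : y ∈ V h (n0 + δ x)
    · exact ⟨y, hy, 0, by simp⟩
    have hy0 : y ≠ 0 := fun h0 => hy (Or.inl h0)
    have h2 : ¬ δ y < n0 + δ x := fun h2 => hy (Or.inr h2)
    obtain ⟨u, hu0, hu⟩ := hn0 (δ y - δ x) (by omega)
    have h3 : δ (x * u) = δ y := by
      rw [h.mul x u hx hu0, hu]
      omega
    obtain ⟨c, hc⟩ := h.cancel y (x * u) hy0 (mul_ne_zero hx hu0) h3.symm
    rcases hc with hc | hc
    · refine ⟨0, Submodule.zero_mem _, c • u, ?_⟩
      rw [zero_add, mul_smul_comm]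
      exact sub_eq_zero.mp hc
    · obtain ⟨v, hv, u', hu'⟩ := ih _ (by omega) (y - c • (x * u)) rfl
      refine ⟨v, hv, u' + c • u, ?_⟩
      rw [mul_add, mul_smul_comm, ← add_assoc, ← hu']
      ring

/-- The degree of an ideal. -/
noncomputable def deg (K : Type) {O : Type} [Field K] [CommRing O] [Algebra K O] (I : Ideal O) : ℕ :=
  Module.finrank K (O ⧸ I)

/-- Restriction of the quotient map to `V m`. -/
noncomputable def qV (h : IsDeg K δ) (m : ℕ) (I : Ideal O) : V h m →ₗ[K] O ⧸ I :=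
  (Ideal.Quotient.mkₐ K I).toLinearMap ∘ₗ (V h m).subtype

theorem qV_surj (h : IsDeg K δ) {n0 : ℕ} (hn0 : ∀ n, n0 ≤ n → ∃ x, x ≠ 0 ∧ δ x = n)
    {I : Ideal O} {x : O} (hx : x ≠ 0) (hxI : x ∈ I) {m : ℕ} (hm : n0 + δ x ≤ m) :
    Function.Surjective (qV h m I) := by
  intro z
  obtain ⟨y, rfl⟩ := Ideal.Quotient.mk_surjective z
  obtain ⟨v, hv, u, hu⟩ := exists_rem h hn0 hx y
  refine ⟨⟨v, V_mono h hm hv⟩, ?_⟩
  simp only [qV, LinearMap.comp_apply, Submodule.subtype_apply, AlgHom.toLinearMap_apply,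
    Ideal.Quotient.mkₐ_eq_mk]
  rw [Ideal.Quotient.eq, hu]
  simpa using I.neg_mem (I.mul_mem_right u hxI)

theorem quot_finite (h : IsDeg K δ) {I : Ideal O} (hI : I ≠ ⊥) : Module.Finite K (O ⧸ I) := by
  obtain ⟨n0, hn0⟩ := h.surj
  obtain ⟨x, hxI, hx⟩ := Submodule.exists_mem_ne_zero_of_ne_bot hI
  exact Module.Finite.of_surjective _ (qV_surj h hn0 hx hxI le_rfl)

theorem finrank_ker_qV (h : IsDeg K δ) {n0 : ℕ} (hn0 : ∀ n, n0 ≤ n → ∃ x, x ≠ 0 ∧ δ x = n)
    {I : Ideal O} {x : O} (hx : x ≠ 0) (hxI : x ∈ I) {m : ℕ} (hm : n0 + δ x ≤ m) :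
    deg K I + Module.finrank K (LinearMap.ker (qV h m I)) = Module.finrank K (V h m) := by
  have h1 := (qV h m I).finrank_range_add_finrank_ker
  rw [LinearMap.range_eq_top.mpr (qV_surj h hn0 hx hxI hm), finrank_top] at h1
  exact h1

theorem mem_ker_qV (h : IsDeg K δ) {m : ℕ} {I : Ideal O} {v : V h m} :
    v ∈ LinearMap.ker (qV h m I) ↔ (v : O) ∈ I := by
  simp [qV, Ideal.Quotient.eq_zero_iff_mem]

theorem deg_span (h : IsDeg K δ) {x : O} (hx : x ≠ 0) : deg K (Ideal.span {x}) = δ x := by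
  obtain ⟨n0, hn0⟩ := h.surj
  have h1 := finrank_ker_qV h hn0 (I := Ideal.span {x}) hx (Ideal.mem_span_singleton_self x)
    (m := n0 + δ x) le_rfl
  rw [finrank_V_add h hn0 le_rfl] at h1
  have h2 : Module.finrank K (V h n0) =
      Module.finrank K (LinearMap.ker (qV h (n0 + δ x) (Ideal.span {x}))) := by
    have hmem : ∀ u : V h n0, x * (u : O) ∈ V h (n0 + δ x) := by
      intro u
      by_cases hu : (u : O) = 0
      · left
        simp [hu]
      · right
        rw [h.mul _ _ hx hu]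
        have := u.2.resolve_left hu
        omega
    let f : V h n0 →ₗ[K] LinearMap.ker (qV h (n0 + δ x) (Ideal.span {x})) :=
      { toFun := fun u => ⟨⟨x * u, hmem u⟩, (mem_ker_qV h).mpr
          (Ideal.mul_mem_right _ _ (Ideal.mem_span_singleton_self x))⟩
        map_add' := by
          intro u v
          ext
          simp [mul_add]
        map_smul' := by
          intro c u
          ext
          simp }
    refine LinearEquiv.finrank_eq (LinearEquiv.ofBijective f ⟨?_, ?_⟩)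
    · intro u v huv
      have : x * (u : O) = x * (v : O) := congrArg (fun t => ((t.1 : V h _) : O)) huv
      exact Subtype.ext (mul_left_cancel₀ hx this)
    · rintro ⟨⟨y, hy⟩, hy2⟩
      have hy3 : y ∈ Ideal.span {x} := (mem_ker_qV h).mp hy2
      obtain ⟨u, rfl⟩ := Ideal.mem_span_singleton'.mp hy3
      have hu : u ∈ V h n0 := by
        by_cases hu0 : u = 0
        · exact Or.inl hu0
        · right
          have h4 := hy.resolve_left (mul_ne_zero hu0 hx)
          rw [h.mul _ _ hu0 hx] at h4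
          omega
      refine ⟨⟨u, hu⟩, ?_⟩
      ext
      simp [f, mul_comm]
  omega

theorem infinite_of (h : IsDeg K δ) : Infinite O := by
  obtain ⟨n0, hn0⟩ := h.surj
  choose g hg using fun n : ℕ => hn0 (n0 + n) (by omega)
  refine Infinite.of_injective g ?_
  intro a b hab
  have h1 := (hg a).2
  have h2 := (hg b).2
  rw [hab] at h1
  omega

end Basic

section Ded

variable {K O : Type} [Field K] [Finite K] [CommRing O] [IsDedekindDomain O] [Algebra K O]
  {δ : O → ℕ}

theorem cardQuot_mul' [Infinite O] (I J : Ideal O) :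
    Submodule.cardQuot (I * J) = Submodule.cardQuot I * Submodule.cardQuot J :=
  UniqueFactorizationMonoid.multiplicative_of_coprime Submodule.cardQuot I J
      (Submodule.cardQuot_bot _ _)
      (fun {I J} hI => by simp [Ideal.isUnit_iff.mp hI, Ideal.mul_top])
      (fun {I} i hI =>
        have : Ideal.IsPrime I := Ideal.isPrime_of_prime hI
        cardQuot_pow_of_prime hI.ne_zero)
      fun {I J} hIJ => cardQuot_mul_of_coprime <| Ideal.isCoprime_iff_sup_eq.mpr
        (Ideal.isUnit_iff.mp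
          (hIJ (Ideal.dvd_iff_le.mpr le_sup_left) (Ideal.dvd_iff_le.mpr le_sup_right)))

theorem one_lt_card : 1 < Nat.card K := Finite.one_lt_card

theorem deg_mul (h : IsDeg K δ) {I J : Ideal O} (hI : I ≠ ⊥) (hJ : J ≠ ⊥) :
    deg K (I * J) = deg K I + deg K J := by
  haveI := infinite_of h
  haveI := quot_finite h hI
  haveI := quot_finite h hJ
  haveI := quot_finite h (mul_ne_zero hI hJ : I * J ≠ ⊥)
  have h1 := cardQuot_mul' I J
  rw [Submodule.cardQuot_apply, Submodule.cardQuot_apply, Submodule.cardQuot_apply,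
    Module.natCard_eq_pow_finrank (K := K), Module.natCard_eq_pow_finrank (K := K) (V := O ⧸ I),
    Module.natCard_eq_pow_finrank (K := K) (V := O ⧸ J), ← pow_add] at h1
  exact Nat.pow_right_injective (one_lt_card (K := K)) h1

theorem deg_pos (h : IsDeg K δ) {P : Ideal O} (hP : Prime P) : 0 < deg K P := by
  haveI := quot_finite h (hP.ne_zero : P ≠ ⊥)
  have hT : P ≠ ⊤ := (Ideal.isPrime_of_prime hP).ne_top
  haveI : Nontrivial (O ⧸ P) := Ideal.Quotient.nontrivial_iff.mpr hT
  exact Module.finrank_pos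

/-- Elements of `C` of exact degree `m`. -/
def Xs (δ : O → ℕ) (C : Ideal O) (m : ℕ) : Set O := {x | x ∈ C ∧ x ≠ 0 ∧ δ x = m}

/-- Ideals of degree `n` whose product with `C` is principal. -/
def Es (K : Type) [Field K] [Algebra K O] (C : Ideal O) (n : ℕ) : Set (Ideal O) :=
  {A | A ≠ ⊥ ∧ deg K A = n ∧ ∃ x, x ≠ 0 ∧ A * C = Ideal.span {x}}

theorem V_set_finite (h : IsDeg K δ) (m : ℕ) : (V h m : Set O).Finite := by
  haveI : Finite (V h m) := Module.finite_of_finite K
  exact Set.toFinite _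

theorem Xs_finite (h : IsDeg K δ) (C : Ideal O) (m : ℕ) : (Xs δ C m).Finite := by
  refine (V_set_finite h (m + 1)).subset ?_
  rintro x ⟨-, -, hx⟩
  exact Or.inr (by omega)

theorem card_VC (h : IsDeg K δ) (C : Ideal O) (m : ℕ) :
    ((V h m : Set O) ∩ C).ncard =
      Nat.card K ^ Module.finrank K (LinearMap.ker (qV h m C)) := by
  rw [← Module.natCard_eq_pow_finrank (K := K) (V := LinearMap.ker (qV h m C)),
    ← Nat.card_coe_set_eq]
  refine Nat.card_congr ⟨fun x => ⟨⟨x.1, x.2.1⟩, (mem_ker_qV h).mpr x.2.2⟩,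
    fun y => ⟨y.1.1, y.1.2, (mem_ker_qV h).mp y.2⟩, fun _ => rfl, fun _ => rfl⟩

theorem card_Xs (h : IsDeg K δ) (C : Ideal O) (m : ℕ) :
    (Xs δ C m).ncard + Nat.card K ^ Module.finrank K (LinearMap.ker (qV h m C)) =
      Nat.card K ^ Module.finrank K (LinearMap.ker (qV h (m + 1) C)) := by
  rw [← card_VC, ← card_VC, ← Set.ncard_union_eq _ (Xs_finite h C m)
    ((V_set_finite h m).inter_of_left _)]
  · congr 1
    ext x
    simp only [Xs, Set.mem_union, Set.mem_ofPred_eq, Set.mem_inter_iff, SetLike.mem_coe, mem_V]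
    constructor
    · rintro (⟨h1, -, h3⟩ | ⟨h1 | h1, h2⟩)
      · exact ⟨Or.inr (by omega), h1⟩
      · exact ⟨Or.inl h1, h2⟩
      · exact ⟨Or.inr (by omega), h2⟩
    · rintro ⟨h1, h2⟩
      by_cases hx : x = 0
      · exact Or.inr ⟨Or.inl hx, h2⟩
      have h3 := h1.resolve_left hx
      by_cases h4 : δ x = m
      · exact Or.inl ⟨h2, hx, h4⟩
      · exact Or.inr ⟨Or.inr (by omega), h2⟩
  · rw [Set.disjoint_left]
    rintro x ⟨-, h2, h3⟩ ⟨h4, -⟩
    rcases h4 with h4 | h4
    · exact h2 h4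
    · omega

theorem card_Xs_eq (h : IsDeg K δ) {n0 : ℕ} (hn0 : ∀ n, n0 ≤ n → ∃ x, x ≠ 0 ∧ δ x = n)
    {C : Ideal O} {x : O} (hx : x ≠ 0) (hxC : x ∈ C) {n : ℕ} (hn : n0 + δ x ≤ n) :
    (Xs δ C (n + deg K C)).ncard + Nat.card K ^ Module.finrank K (V h n) =
      Nat.card K ^ (Module.finrank K (V h n) + 1) := by
  have h1 := card_Xs h C (n + deg K C)
  have h2 := finrank_ker_qV h hn0 hx hxC (m := n + deg K C) (by omega)
  have h3 := finrank_ker_qV h hn0 hx hxC (m := n + deg K C + 1) (by omega)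
  rw [finrank_V_add h hn0 (by omega)] at h2
  rw [add_assoc n, finrank_V_add h hn0 (by omega)] at h3
  have h4 : Module.finrank K (LinearMap.ker (qV h (n + deg K C) C)) =
    Module.finrank K (V h n) := by omega
  have h5 : Module.finrank K (LinearMap.ker (qV h (n + deg K C + 1) C)) =
    Module.finrank K (V h n) + 1 := by
      have : n + deg K C + 1 = n + (deg K C + 1) := by omega
      rw [this]
      omega
  rw [h4, h5] at h1
  exact h1

theorem exists_equiv (h : IsDeg K δ) {C : Ideal O} (hC : C ≠ ⊥) (n : ℕ) :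
    Nonempty (Es K C n × Kˣ ≃ Xs δ C (n + deg K C)) := by
  have hg : ∀ A : Es K C n, ∃ x, x ≠ 0 ∧ A.1 * C = Ideal.span {x} := fun A => A.2.2.2
  choose g hg0 hg using hg
  have hmem : ∀ (A : Es K C n) (u : Kˣ), (u : K) • g A ∈ Xs δ C (n + deg K C) := by
    intro A u
    refine ⟨?_, ?_, ?_⟩
    · rw [Algebra.smul_def]
      refine C.mul_mem_left _ ?_
      have : g A ∈ A.1 * C := by
        rw [hg A]
        exact Ideal.mem_span_singleton_self _
      exact Ideal.mul_le_right this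
    · rw [Algebra.smul_def]
      exact mul_ne_zero (alg_ne_zero u.ne_zero) (hg0 A)
    · rw [h.smul _ u.ne_zero _ (hg0 A), ← deg_span h (hg0 A), ← hg A, deg_mul h A.2.1 hC, A.2.2.1]
  have hsp : ∀ (u : Kˣ) (y : O), Ideal.span {(u : K) • y} = Ideal.span {y} := by
    intro u y
    rw [Algebra.smul_def]
    exact Ideal.span_singleton_mul_left_unit (u.isUnit.map (algebraMap K O)) y
  refine ⟨Equiv.ofBijective (fun p => ⟨(p.2 : K) • g p.1, hmem p.1 p.2⟩) ⟨?_, ?_⟩⟩
  · rintro ⟨A, u⟩ ⟨B, v⟩ hAB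
    have h1 : (u : K) • g A = (v : K) • g B := congrArg Subtype.val hAB
    have h2 : A.1 * C = B.1 * C := by
      rw [hg A, hg B, ← hsp u, h1, hsp v]
    have h3 : A = B := Subtype.ext (mul_right_cancel₀ hC h2)
    subst h3
    have h4 : (u : K) = v := by
      rw [Algebra.smul_def, Algebra.smul_def] at h1
      exact (algebraMap K O).injective (mul_right_cancel₀ (hg0 A) h1)
    rw [Units.ext h4]
  · rintro ⟨x, hxC, hx0, hxd⟩
    obtain ⟨A, hA⟩ : C ∣ Ideal.span {x} := by
      rw [Ideal.dvd_iff_le, Ideal.span_singleton_le_iff_mem]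
      exact hxC
    have hA0 : A ≠ ⊥ := by
      rintro rfl
      rw [Ideal.mul_bot, Ideal.span_singleton_eq_bot] at hA
      exact hx0 hA
    have hAd : deg K A = n := by
      have h1 := deg_span h hx0
      rw [hA, deg_mul h hC hA0, hxd] at h1
      omega
    let A' : Es K C n := ⟨A, hA0, hAd, x, hx0, by rw [hA, mul_comm]⟩
    have h2 : Ideal.span {g A'} = Ideal.span {x} := by
      rw [← hg A', hA, mul_comm]
    obtain ⟨w, hw⟩ := Ideal.span_singleton_eq_span_singleton.mp h2
    obtain ⟨c, hc0, hc⟩ := h.unit w.isUnit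
    refine ⟨⟨A', Units.mk0 c hc0⟩, Subtype.ext ?_⟩
    change c • g A' = x
    rw [Algebra.smul_def, ← hc, mul_comm, hw]

theorem Es_finite (h : IsDeg K δ) {C : Ideal O} (hC : C ≠ ⊥) (n : ℕ) : (Es K C n).Finite := by
  obtain ⟨e⟩ := exists_equiv h hC n
  haveI : Finite (Xs δ C (n + deg K C)) := (Xs_finite h C _).to_subtype
  haveI : Finite (Es K C n × Kˣ) := Finite.of_equiv _ e.symm
  haveI : Finite (Es K C n) := Finite.prod_left Kˣ
  exact Set.toFinite _

theorem card_Es (h : IsDeg K δ) {C : Ideal O} (hC : C ≠ ⊥) (n : ℕ) :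
    (Es K C n).ncard * Nat.card Kˣ = (Xs δ C (n + deg K C)).ncard := by
  obtain ⟨e⟩ := exists_equiv h hC n
  rw [← Nat.card_coe_set_eq, ← Nat.card_coe_set_eq, ← Nat.card_prod]
  exact Nat.card_congr e

/-- Equidistribution of ideals of large degree among classes. -/
theorem equi (h : IsDeg K δ) : ∃ N : ℕ → ℕ, ∀ C : Ideal O, C ≠ ⊥ →
    ∃ n1, ∀ n, n1 ≤ n → (Es K C n).ncard = N n := by
  obtain ⟨n0, hn0⟩ := h.surj
  refine ⟨fun n => (Nat.card K ^ (Module.finrank K (V h n) + 1) -
    Nat.card K ^ Module.finrank K (V h n)) / Nat.card Kˣ, fun C hC => ?_⟩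
  obtain ⟨x, hxC, hx⟩ := Submodule.exists_mem_ne_zero_of_ne_bot hC
  refine ⟨n0 + δ x, fun n hn => ?_⟩
  have h1 := card_Xs_eq h hn0 hx hxC hn
  have h2 := card_Es h hC n
  have h3 : 0 < Nat.card Kˣ := Nat.card_pos
  dsimp only
  rw [← h1, ← h2]
  simp only [add_tsub_cancel_right]
  exact (Nat.mul_div_cancel _ h3).symm

end Ded

end Pool.Agent.H216Z.DioA
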