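import Pool.Agent.H216Z.DioA

set_option autoImplicit false
set_option linter.unusedSectionVars false
set_option linter.style.haveILetI false

namespace Pool.Agent.H216Z.DioA

open scoped nonZeroDivisors Classical

section Chi

variable {K O : Type} [Field K] [Finite K] [CommRing O] [IsDedekindDomain O] [Algebra K O]
  {δ : O → ℕ} [Finite (ClassGroup O)]

/-- A sign character on nonzero ideals, trivial on principal ideals. -/
structure IsChi (χ : Ideal O → ℤ) : Prop where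
  mul : ∀ I J, I ≠ ⊥ → J ≠ ⊥ → χ (I * J) = χ I * χ J
  pm : ∀ I, I ≠ ⊥ → χ I = 1 ∨ χ I = -1
  prin : ∀ x : O, x ≠ 0 → χ (Ideal.span {x}) = 1

theorem nz_ne_bot (I : (Ideal O)⁰) : (I : Ideal O) ≠ ⊥ := nonZeroDivisors.coe_ne_zero I

theorem IsChi.congr {χ : Ideal O → ℤ} (hχ : IsChi χ) {I J : (Ideal O)⁰}
    (hIJ : ClassGroup.mk0 I = ClassGroup.mk0 J) : χ I = χ J := by
  obtain ⟨x, y, hx, hy, hxy⟩ := ClassGroup.mk0_eq_mk0_iff.mp hIJ
  have h1 := congrArg χ hxy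
  rw [hχ.mul _ _ (by simpa using hx) (nz_ne_bot I), hχ.mul _ _ (by simpa using hy) (nz_ne_bot J),
    hχ.prin x hx, hχ.prin y hy] at h1
  simpa using h1

/-- A representative of a class. -/
noncomputable def rep (c : ClassGroup O) : (Ideal O)⁰ := (ClassGroup.mk0_surjective c).choose

theorem mk0_rep (c : ClassGroup O) : ClassGroup.mk0 (rep c) = c :=
  (ClassGroup.mk0_surjective c).choose_spec

/-- Inverse class of an ideal. -/
noncomputable def icl (A : Ideal O) : ClassGroup O :=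
  if hA : A ≠ ⊥ then (ClassGroup.mk0 ⟨A, mem_nonZeroDivisors_of_ne_zero hA⟩)⁻¹ else 1

theorem icl_eq_iff {A : Ideal O} (hA : A ≠ ⊥) (c : ClassGroup O) :
    icl A = c ↔ ∃ x, x ≠ 0 ∧ A * (rep c : Ideal O) = Ideal.span {x} := by
  rw [icl, dif_pos hA]
  have := ClassGroup.mk0_eq_mk0_inv_iff (I := ⟨A, mem_nonZeroDivisors_of_ne_zero hA⟩) (J := rep c)
  rw [mk0_rep] at this
  rw [inv_eq_iff_eq_inv, this]

theorem D_finite (h : IsDeg K δ) (n : ℕ) : {A : Ideal O | A ≠ ⊥ ∧ deg K A = n}.Finite := by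
  refine (Set.finite_iUnion fun c : ClassGroup O => Es_finite h (nz_ne_bot (rep c)) n).subset ?_
  rintro A ⟨hA, hn⟩
  exact Set.mem_iUnion.mpr ⟨icl A, hA, hn, (icl_eq_iff hA _).mp rfl⟩

/-- Nonzero ideals of degree `n`. -/
noncomputable def D (h : IsDeg K δ) (n : ℕ) : Finset (Ideal O) := (D_finite h n).toFinset

theorem mem_D (h : IsDeg K δ) {n : ℕ} {A : Ideal O} : A ∈ D h n ↔ A ≠ ⊥ ∧ deg K A = n := by
  simp [D]

theorem sum_D_eq_zero (h : IsDeg K δ) {χ : Ideal O → ℤ} (hχ : IsChi χ) {A0 : Ideal O}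
    (hA0 : A0 ≠ ⊥) (h0 : χ A0 = -1) : ∃ n1, ∀ n, n1 ≤ n → ∑ A ∈ D h n, χ A = 0 := by
  haveI : Fintype (ClassGroup O) := Fintype.ofFinite _
  obtain ⟨N, hN⟩ := equi h
  choose n1 hn1 using fun c : ClassGroup O => hN (rep c) (nz_ne_bot _)
  refine ⟨Finset.univ.sup n1, fun n hn => ?_⟩
  rw [← Finset.sum_fiberwise (D h n) icl χ]
  have h1 : ∀ c : ClassGroup O, ∑ A ∈ D h n with icl A = c, χ A = (N n : ℤ) * χ (rep c) := by
    intro c
    have h2 : ∀ A ∈ (D h n).filter (fun A => icl A = c), χ A = χ (rep c) := by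
      intro A hA
      rw [Finset.mem_filter, mem_D] at hA
      obtain ⟨x, hx, hxA⟩ := (icl_eq_iff hA.1.1 c).mp hA.2
      have h3 := hχ.mul A (rep c) hA.1.1 (nz_ne_bot _)
      rw [hxA, hχ.prin x hx] at h3
      rcases hχ.pm A hA.1.1 with h4 | h4 <;> rcases hχ.pm (rep c) (nz_ne_bot _) with h5 | h5 <;>
        rw [h4, h5] at h3 ⊢ <;> omega
    rw [Finset.sum_congr rfl h2, Finset.sum_const, nsmul_eq_mul]
    congr 2
    rw [← hn1 c n (le_trans (Finset.le_sup (Finset.mem_univ c)) hn), ← Set.ncard_coe_finset]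
    congr 1
    ext A
    simp only [Finset.coe_filter, mem_D, Set.mem_ofPred_eq, Es]
    constructor
    · rintro ⟨⟨h3, h4⟩, h5⟩
      exact ⟨h3, h4, (icl_eq_iff h3 c).mp h5⟩
    · rintro ⟨h3, h4, h5⟩
      exact ⟨⟨h3, h4⟩, (icl_eq_iff h3 c).mpr h5⟩
  rw [Finset.sum_congr rfl fun c _ => h1 c, ← Finset.mul_sum]
  have h2 : ∑ c : ClassGroup O, χ (rep c) = 0 := by
    let a0 : (Ideal O)⁰ := ⟨A0, mem_nonZeroDivisors_of_ne_zero hA0⟩
    have h3 := Equiv.sum_comp (Equiv.mulRight (ClassGroup.mk0 a0)) (fun c => χ (rep c))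
    have h4 : ∀ c : ClassGroup O, χ (rep (c * ClassGroup.mk0 a0)) = - χ (rep c) := by
      intro c
      have h5 : ClassGroup.mk0 (rep (c * ClassGroup.mk0 a0)) = ClassGroup.mk0 (rep c * a0) := by
        rw [mk0_rep, map_mul, mk0_rep]
      rw [hχ.congr h5, Submonoid.coe_mul, hχ.mul _ _ (nz_ne_bot _) hA0, h0]
      ring
    simp only [Equiv.coe_mulRight, h4, Finset.sum_neg_distrib] at h3
    omega
  rw [h2, mul_zero]

/-- The divisors of a nonzero ideal. -/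
noncomputable def dv (h : IsDeg K δ) (C : Ideal O) : Finset (Ideal O) :=
  ((Finset.range (deg K C + 1)).biUnion (D h)).filter (· ∣ C)

theorem mem_dv (h : IsDeg K δ) {C B : Ideal O} (hC : C ≠ ⊥) : B ∈ dv h C ↔ B ∣ C := by
  simp only [dv, Finset.mem_filter, Finset.mem_biUnion, Finset.mem_range, mem_D]
  refine ⟨fun hh => hh.2, fun hB => ⟨?_, hB⟩⟩
  obtain ⟨A, rfl⟩ := hB
  have hB0 : B ≠ ⊥ := left_ne_zero_of_mul hC
  have hA0 : A ≠ ⊥ := right_ne_zero_of_mul hC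
  refine ⟨deg K B, ?_, hB0, rfl⟩
  rw [deg_mul h hB0 hA0]
  omega

/-- The signed divisor count. -/
noncomputable def rr (h : IsDeg K δ) (C : Ideal O) : ℤ := ∑ B ∈ dv h C, (-1) ^ deg K B

theorem rr_succ (h : IsDeg K δ) {P M : Ideal O} (hP : Prime P) (hM : M ≠ ⊥) (hPM : ¬ P ∣ M)
    (k : ℕ) : rr h (P ^ (k + 1) * M) = (-1) ^ deg K P * rr h (P ^ k * M) + rr h M := by
  have hP0 : P ≠ ⊥ := hP.ne_zero
  have hk : ∀ j : ℕ, P ^ j * M ≠ ⊥ := fun j => mul_ne_zero (pow_ne_zero j hP0) hM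
  rw [rr, ← Finset.sum_filter_add_sum_filter_not (dv h (P ^ (k + 1) * M)) (fun B => P ∣ B)]
  congr 1
  · rw [rr, Finset.mul_sum]
    symm
    refine Finset.sum_bij (fun B _ => P * B) ?_ ?_ ?_ ?_
    · intro B hB
      rw [mem_dv h (hk k)] at hB
      rw [Finset.mem_filter, mem_dv h (hk _)]
      refine ⟨?_, dvd_mul_right _ _⟩
      rw [pow_succ', mul_assoc]
      exact mul_dvd_mul_left P hB
    · intro B _ B' _ hBB
      exact mul_left_cancel₀ hP0 hBB
    · intro B hB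
      rw [Finset.mem_filter, mem_dv h (hk _)] at hB
      obtain ⟨hB, B', rfl⟩ := hB
      refine ⟨B', ?_, rfl⟩
      rw [mem_dv h (hk k)]
      rw [pow_succ', mul_assoc] at hB
      exact (mul_dvd_mul_iff_left hP0).mp hB
    · intro B hB
      rw [mem_dv h (hk k)] at hB
      have hB0 : B ≠ ⊥ := ne_zero_of_dvd_ne_zero (hk k) hB
      rw [deg_mul h hP0 hB0, pow_add]
  · rw [rr]
    refine Finset.sum_congr ?_ fun _ _ => rfl
    ext B
    rw [Finset.mem_filter, mem_dv h (hk _), mem_dv h hM]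
    constructor
    · rintro ⟨h1, h2⟩
      have h3 : IsRelPrime B (P ^ (k + 1)) :=
        ((hP.irreducible.isRelPrime_iff_not_dvd.mpr h2).symm).pow_right
      exact h3.dvd_of_dvd_mul_left h1
    · intro h1
      exact ⟨h1.mul_left _, fun h2 => hPM (h2.trans h1)⟩

theorem rr_pow (h : IsDeg K δ) {P M : Ideal O} (hP : Prime P) (hM : M ≠ ⊥) (hPM : ¬ P ∣ M)
    (k : ℕ) : rr h (P ^ k * M) =
      (if Even (deg K P) then (k + 1 : ℤ) else if Even k then 1 else 0) * rr h M := by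
  induction k with
  | zero => simp
  | succ k ih =>
    rw [rr_succ h hP hM hPM, ih]
    by_cases hd : Even (deg K P)
    · simp only [hd, if_true, hd.neg_one_pow]
      push_cast
      ring
    · have hd' : Odd (deg K P) := Nat.not_even_iff_odd.mp hd
      by_cases hk : Even k
      · have : ¬ Even (k + 1) := by simpa [Nat.even_add_one] using hk
        simp [hd, hk, this, hd'.neg_one_pow]
      · have : Even (k + 1) := by simpa [Nat.even_add_one] using hk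
        simp [hd, hk, this]

theorem rr_top (h : IsDeg K δ) : rr h (⊤ : Ideal O) = 1 := by
  have h1 : dv h (⊤ : Ideal O) = {⊤} := by
    ext B
    rw [mem_dv h top_ne_bot, Finset.mem_singleton, ← Ideal.one_eq_top, ← isUnit_iff_dvd_one,
      Ideal.isUnit_iff, Ideal.one_eq_top]
  have h2 : deg K (⊤ : Ideal O) = 0 := by
    have := deg_span h (one_ne_zero (α := O))
    rw [h.one] at this
    simpa using this
  simp [rr, h1, h2]

theorem ideal_ind (h : IsDeg K δ) {Q : Ideal O → Prop} (h1 : Q ⊤)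
    (hs : ∀ (P M : Ideal O) (k : ℕ), Prime P → M ≠ ⊥ → ¬ P ∣ M → Q M → Q (P ^ k * M))
    (C : Ideal O) (hC : C ≠ ⊥) : Q C := by
  induction hn : deg K C using Nat.strong_induction_on generalizing C with
  | _ n ih =>
    by_cases hT : C = ⊤
    · rw [hT]
      exact h1
    obtain ⟨P, hP, hPC⟩ := WfDvdMonoid.exists_irreducible_factor
      (fun hu => hT (Ideal.isUnit_iff.mp hu)) hC
    obtain ⟨k, M, hM, hCM⟩ := WfDvdMonoid.max_power_factor hC hP
    have hM0 : M ≠ ⊥ := by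
      rintro rfl
      exact hM (dvd_zero P)
    have hk : k ≠ 0 := by
      rintro rfl
      apply hM
      simpa [hCM] using hPC
    have hPp : Prime P := hP.prime
    rw [hCM]
    refine hs P M k hPp hM0 hM (ih (deg K M) ?_ M hM0 rfl)
    obtain ⟨j, rfl⟩ := Nat.exists_eq_succ_of_ne_zero hk
    have hP0 : P ≠ ⊥ := hPp.ne_zero
    rw [← hn, hCM, pow_succ', mul_assoc, deg_mul h hP0 (mul_ne_zero (pow_ne_zero j hP0) hM0),
      deg_mul h (pow_ne_zero j hP0) hM0]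
    have := deg_pos h hPp
    omega

theorem IsChi.top {χ : Ideal O → ℤ} (hχ : IsChi χ) : χ ⊤ = 1 := by
  simpa using hχ.prin 1 one_ne_zero

theorem IsChi.pow {χ : Ideal O → ℤ} (hχ : IsChi χ) {P : Ideal O} (hP : P ≠ ⊥) (k : ℕ) :
    χ (P ^ k) = χ P ^ k := by
  induction k with
  | zero => simpa using hχ.top
  | succ k ih => rw [pow_succ, hχ.mul _ _ (pow_ne_zero k hP) hP, ih, pow_succ]

theorem chi_rr_nonneg (h : IsDeg K δ) {χ : Ideal O → ℤ} (hχ : IsChi χ)
    (hev : ∀ P, Prime P → Even (deg K P) → χ P = 1) (C : Ideal O) (hC : C ≠ ⊥) :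
    0 ≤ χ C * rr h C := by
  refine ideal_ind h (Q := fun C => 0 ≤ χ C * rr h C) ?_ ?_ C hC
  · simp [rr_top, hχ.top]
  · intro P M k hP hM hPM ih
    have hP0 : P ≠ ⊥ := hP.ne_zero
    rw [rr_pow h hP hM hPM, hχ.mul _ _ (pow_ne_zero k hP0) hM, hχ.pow hP0]
    by_cases hd : Even (deg K P)
    · rw [hev P hP hd, if_pos hd, one_pow, one_mul, mul_left_comm]
      positivity
    · rw [if_neg hd]
      by_cases hk : Even k
      · have : χ P ^ k = 1 := by
          rcases hχ.pm P hP0 with h4 | h4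
          · rw [h4, one_pow]
          · rw [h4, hk.neg_one_pow]
        rw [if_pos hk, this]
        simpa using ih
      · simp [hk]

theorem rr_sq_pos (h : IsDeg K δ) (C : Ideal O) (hC : C ≠ ⊥) : 0 < rr h (C ^ 2) := by
  refine ideal_ind h (Q := fun C => 0 < rr h (C ^ 2)) ?_ ?_ C hC
  · simp [rr_top, Ideal.top_pow]
  · intro P M k hP hM hPM ih
    have h1 : ¬ P ∣ M ^ 2 := fun h2 => hPM (hP.dvd_of_dvd_pow h2)
    rw [mul_pow, ← pow_mul, rr_pow h hP (pow_ne_zero 2 hM) h1]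
    have h2 : Even (k * 2) := by simp
    rw [if_pos h2]
    split_ifs <;> positivity

theorem conv_eq (h : IsDeg K δ) {χ : Ideal O → ℤ} (hχ : IsChi χ) (n : ℕ) :
    ∑ C ∈ D h n, χ C * rr h C =
      ∑ p ∈ Finset.HasAntidiagonal.antidiagonal n,
        (∑ A ∈ D h p.1, χ A) * ((-1) ^ p.2 * ∑ B ∈ D h p.2, χ B) := by
  have h1 : ∀ p ∈ Finset.HasAntidiagonal.antidiagonal n,
      (∑ A ∈ D h p.1, χ A) * ((-1) ^ p.2 * ∑ B ∈ D h p.2, χ B) =
      ∑ q ∈ D h p.1 ×ˢ D h p.2, χ (q.1 * q.2) * (-1) ^ deg K q.2 := by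
    intro p _
    rw [Finset.sum_product, Finset.sum_mul]
    refine Finset.sum_congr rfl fun A hA => ?_
    rw [Finset.mul_sum, Finset.mul_sum]
    refine Finset.sum_congr rfl fun B hB => ?_
    rw [mem_D] at hA hB
    rw [hχ.mul _ _ hA.1 hB.1, hB.2]
    ring
  rw [Finset.sum_congr rfl h1, Finset.sum_sigma']
  simp only [rr, Finset.mul_sum]
  rw [Finset.sum_sigma']
  symm
  refine Finset.sum_bij (fun t _ => ⟨t.2.1 * t.2.2, t.2.2⟩) ?_ ?_ ?_ ?_
  · rintro ⟨⟨i, j⟩, A, B⟩ ht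
    simp only [Finset.mem_sigma, Finset.HasAntidiagonal.mem_antidiagonal, Finset.mem_product, mem_D] at ht
    obtain ⟨hij, ⟨hA, hi⟩, hB, hj⟩ := ht
    rw [Finset.mem_sigma, mem_D, mem_dv h (mul_ne_zero hA hB)]
    refine ⟨⟨mul_ne_zero hA hB, ?_⟩, dvd_mul_left _ _⟩
    rw [deg_mul h hA hB, hi, hj, hij]
  · rintro ⟨⟨i, j⟩, A, B⟩ ht ⟨⟨i', j'⟩, A', B'⟩ ht' heq
    simp only [Finset.mem_sigma, Finset.HasAntidiagonal.mem_antidiagonal, Finset.mem_product, mem_D] at ht ht'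
    obtain ⟨hij, ⟨hA, hi⟩, hB, hj⟩ := ht
    obtain ⟨hij', ⟨hA', hi'⟩, hB', hj'⟩ := ht'
    simp only [Sigma.mk.injEq, heq_eq_eq] at heq
    obtain ⟨h2, rfl⟩ := heq
    have h3 : A = A' := mul_right_cancel₀ hB h2
    subst h3
    subst hi hj hi' hj'
    rfl
  · rintro ⟨C, B⟩ ht
    rw [Finset.mem_sigma, mem_D] at ht
    dsimp only at ht
    obtain ⟨⟨hC, hn⟩, hB⟩ := ht
    rw [mem_dv h hC] at hB
    obtain ⟨A, rfl⟩ := hB
    have hB0 : B ≠ ⊥ := left_ne_zero_of_mul hC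
    have hA0 : A ≠ ⊥ := right_ne_zero_of_mul hC
    refine ⟨⟨⟨deg K A, deg K B⟩, A, B⟩, ?_, ?_⟩
    · simp only [Finset.mem_sigma, Finset.HasAntidiagonal.mem_antidiagonal, Finset.mem_product, mem_D]
      refine ⟨?_, ⟨hA0, trivial⟩, hB0, trivial⟩
      rw [← hn, deg_mul h hB0 hA0, add_comm]
    · simp [mul_comm]
  · intro t _
    rfl

/-- A sign character trivial on principal ideals and on primes of even degree is trivial. -/
theorem chi_trivial (h : IsDeg K δ) {χ : Ideal O → ℤ} (hχ : IsChi χ)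
    (hev : ∀ P, Prime P → Even (deg K P) → χ P = 1) (A0 : Ideal O) (hA0 : A0 ≠ ⊥) : χ A0 = 1 := by
  by_contra hne
  have h0 : χ A0 = -1 := (hχ.pm A0 hA0).resolve_left hne
  obtain ⟨n1, hn1⟩ := sum_D_eq_zero h hχ hA0 h0
  obtain ⟨n0, hn0⟩ := h.surj
  obtain ⟨x, hx, hxd⟩ := hn0 (n0 + n1) (by omega)
  have hx' : Ideal.span {x} ≠ ⊥ := by simpa using hx
  have h1 := conv_eq h hχ (2 * (n0 + n1))
  have h2 : ∑ p ∈ Finset.HasAntidiagonal.antidiagonal (2 * (n0 + n1)),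
      (∑ A ∈ D h p.1, χ A) * ((-1) ^ p.2 * ∑ B ∈ D h p.2, χ B) = 0 := by
    refine Finset.sum_eq_zero fun p hp => ?_
    rw [Finset.HasAntidiagonal.mem_antidiagonal] at hp
    by_cases h3 : n1 ≤ p.1
    · rw [hn1 _ h3, zero_mul]
    · rw [hn1 p.2 (by omega), mul_zero, mul_zero]
  rw [h2] at h1
  have h3 : 0 < ∑ C ∈ D h (2 * (n0 + n1)), χ C * rr h C := by
    refine Finset.sum_pos' (fun C hC => chi_rr_nonneg h hχ hev C ((mem_D h).mp hC).1)
      ⟨Ideal.span {x} ^ 2, ?_, ?_⟩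
    · rw [mem_D]
      refine ⟨pow_ne_zero 2 hx', ?_⟩
      rw [pow_two, deg_mul h hx' hx', deg_span h hx, hxd]
      ring
    · rw [hχ.pow hx', hχ.prin x hx]
      simpa using rr_sq_pos h _ hx'
  omega

end Chi

end Pool.Agent.H216Z.DioA
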