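import Pool.Agent.H216Z.DioB

set_option autoImplicit false
set_option linter.unusedSectionVars false
set_option linter.style.haveILetI false

namespace Pool.Agent.H216Z.DioA

open scoped nonZeroDivisors Classical
open QuadraticAlgebra

section FinField

variable {K : Type} [Field K] [Finite K] {a : K}

theorem norm_surj_K (ha : ∀ r : K, r ^ 2 ≠ a + 1 * r) (c : K) :
    ∃ x y : K, x * x + x * y - a * y * y = c := by
  haveI : Fact (∀ r : K, r ^ 2 ≠ a + 1 * r) := ⟨ha⟩
  haveI : Finite (QuadraticAlgebra K a 1) := Finite.of_equiv _ (equivProd a 1).symm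
  obtain ⟨z, hz⟩ := FiniteField.norm_surjective K (QuadraticAlgebra K a 1) c
  refine ⟨z.re, z.im, ?_⟩
  have h1 := det_toLinearMap_eq_norm z
  rw [Algebra.norm_apply] at hz
  have h2 : (Algebra.lmul K (QuadraticAlgebra K a 1)) z =
      DistribSMul.toLinearMap K (QuadraticAlgebra K a 1) z := by
    ext1 w
    simp
  rw [h2, h1, norm_def] at hz
  simpa using hz

theorem root_of_even (ha : ∀ r : K, r ^ 2 ≠ a + 1 * r) (k : Type) [Field k] [Algebra K k]
    [Module.Finite K k] (hev : Even (Module.finrank K k)) :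
    ∃ r : k, r * r = algebraMap K k a + r := by
  haveI : Fact (∀ r : K, r ^ 2 ≠ a + 1 * r) := ⟨ha⟩
  haveI : Finite k := Module.finite_of_finite K
  obtain ⟨f⟩ := FiniteField.nonempty_algHom_of_finrank_dvd (F := K) (K := QuadraticAlgebra K a 1)
    (L := k) (by rw [finrank_eq_two]; exact hev.two_dvd)
  refine ⟨f omega, ?_⟩
  rw [← map_mul, omega_mul_omega_eq_add]
  simp [Algebra.algebraMap_eq_smul_one]

theorem exists_nonsplit (K : Type) [Field K] [Finite K] :
    ∃ a : K, (∀ r : K, r ^ 2 ≠ a + 1 * r) ∧ 1 + 4 * a ≠ 0 := by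
  have h1 : ¬ Function.Surjective (fun r : K => r ^ 2 - r) := by
    intro hs
    have h2 := Finite.injective_iff_surjective.mpr hs
    have h3 : (0 : K) = 1 := h2 (by simp)
    exact zero_ne_one h3
  simp only [Function.Surjective, not_forall, not_exists] at h1
  obtain ⟨a, ha⟩ := h1
  refine ⟨a, fun r hr => ha r (by rw [hr]; ring), fun h4 => ?_⟩
  have h2 : (2 : K) ≠ 0 := by
    intro h2
    have h3 : (4 : K) = 0 := by
      have : (4 : K) = 2 * 2 := by norm_num
      rw [this, h2, zero_mul]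
    rw [h3] at h4
    simp at h4
  apply ha (1 / 2)
  field_simp
  linear_combination -h4

end FinField

section Herb

variable {O : Type} [CommRing O] [IsDedekindDomain O] {α : O}
  [IsDedekindDomain (QuadraticAlgebra O α 1)]

/-- Conjugate ideal. -/
noncomputable def cj (I : Ideal (QuadraticAlgebra O α 1)) : Ideal (QuadraticAlgebra O α 1) :=
  I.map (starRingEnd _)

/-- Extended ideal. -/
noncomputable def ex (α : O) (A : Ideal O) : Ideal (QuadraticAlgebra O α 1) :=
  A.map (algebraMap O _)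

theorem cj_cj (I : Ideal (QuadraticAlgebra O α 1)) : cj (cj I) = I := by
  rw [cj, cj, Ideal.map_map]
  have : (starRingEnd (QuadraticAlgebra O α 1)).comp (starRingEnd _) = RingHom.id _ := by
    ext1 x
    simp
  rw [this, Ideal.map_id]

theorem cj_mul (I J : Ideal (QuadraticAlgebra O α 1)) : cj (I * J) = cj I * cj J :=
  Ideal.map_mul _ _ _

theorem cj_span (x : QuadraticAlgebra O α 1) : cj (Ideal.span {x}) = Ideal.span {star x} := by
  rw [cj, Ideal.map_span, Set.image_singleton]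
  rfl

theorem cj_ne_bot {I : Ideal (QuadraticAlgebra O α 1)} (hI : I ≠ ⊥) : cj I ≠ ⊥ := by
  intro h
  apply hI
  rw [← cj_cj I, h, cj, Ideal.map_bot]

theorem star_alg (x : O) : star (algebraMap O (QuadraticAlgebra O α 1) x) = algebraMap O _ x := by
  ext <;> simp

theorem cj_ex (A : Ideal O) : cj (ex α A) = ex α A := by
  rw [cj, ex, Ideal.map_map]
  congr 1
  ext1 x
  exact star_alg x

theorem ex_mul (A B : Ideal O) : ex α (A * B) = ex α A * ex α B := Ideal.map_mul _ _ _

theorem ex_span (x : O) : ex α (Ideal.span {x}) = Ideal.span {algebraMap O _ x} := by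
  rw [ex, Ideal.map_span, Set.image_singleton]

theorem ex_ne_bot {A : Ideal O} (hA : A ≠ ⊥) : ex α A ≠ ⊥ := by
  rw [ex, Ne, Ideal.map_eq_bot_iff_of_injective algebraMap_injective]
  exact hA

theorem eta_unit (hD : IsUnit (1 + 4 * α)) :
    IsUnit (omega - star omega : QuadraticAlgebra O α 1) := by
  rw [isUnit_iff_norm_isUnit]
  have : norm (omega - star omega : QuadraticAlgebra O α 1) = -(1 + 4 * α) := by
    simp [norm_def]
    ring
  rw [this]
  exact hD.neg

theorem mem_cj {I : Ideal (QuadraticAlgebra O α 1)} {x : QuadraticAlgebra O α 1} (hx : x ∈ I) :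
    star x ∈ cj I := Ideal.mem_map_of_mem (starRingEnd _) hx

theorem ex_comap (hD : IsUnit (1 + 4 * α)) {I : Ideal (QuadraticAlgebra O α 1)} (hI : cj I = I) :
    ex α (I.comap (algebraMap O _)) = I := by
  apply le_antisymm Ideal.map_comap_le
  intro x hx
  have h1 : star x ∈ I := hI ▸ mem_cj hx
  have h2 : x - star x ∈ I := I.sub_mem hx h1
  rw [sub_star, Algebra.smul_def] at h2
  have h3 : algebraMap O (QuadraticAlgebra O α 1) x.im ∈ I :=
    (Ideal.mul_unit_mem_iff_mem I (eta_unit hD)).mp h2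
  have h4 : x = algebraMap O _ x.re + algebraMap O _ x.im * omega := by
    ext <;> simp
  have h5 : algebraMap O (QuadraticAlgebra O α 1) x.re ∈ I := by
    have := I.sub_mem hx (I.mul_mem_right omega h3)
    rwa [sub_eq_iff_eq_add.mpr h4] at this
  rw [h4]
  exact Ideal.add_mem _ (Ideal.mem_map_of_mem _ h5)
    (Ideal.mul_mem_right _ _ (Ideal.mem_map_of_mem _ h3))

theorem split_prime (hD : IsUnit (1 + 4 * α)) {P : Ideal O} {ρ : O} (hρ : ρ * ρ - α - ρ ∈ P) :
    ∃ I : Ideal (QuadraticAlgebra O α 1), I * cj I = ex α P := by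
  refine ⟨ex α P ⊔ Ideal.span {omega - algebraMap O _ ρ}, ?_⟩
  have h1 : cj (ex α P ⊔ Ideal.span {omega - algebraMap O (QuadraticAlgebra O α 1) ρ}) =
      ex α P ⊔ Ideal.span {star omega - algebraMap O (QuadraticAlgebra O α 1) ρ} := by
    rw [cj, Ideal.map_sup]
    change cj _ ⊔ cj _ = _
    rw [cj_ex, cj_span, star_sub, star_alg]
  rw [h1]
  apply le_antisymm
  · rw [Ideal.sup_mul, Ideal.mul_sup, Ideal.mul_sup]
    refine sup_le (sup_le Ideal.mul_le_left Ideal.mul_le_left) (sup_le Ideal.mul_le_right ?_)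
    rw [Ideal.span_singleton_mul_span_singleton, Ideal.span_singleton_le_iff_mem]
    have h2 : (omega - algebraMap O (QuadraticAlgebra O α 1) ρ) *
        (star omega - algebraMap O (QuadraticAlgebra O α 1) ρ) =
        algebraMap O _ (ρ * ρ - α - ρ) := by
      ext <;> simp <;> ring
    rw [h2]
    exact Ideal.mem_map_of_mem _ hρ
  · intro x hx
    rw [← Ideal.mul_unit_mem_iff_mem _ (eta_unit hD)]
    have h2 : x * (omega - star omega) = (omega - algebraMap O (QuadraticAlgebra O α 1) ρ) * x -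
        x * (star omega - algebraMap O (QuadraticAlgebra O α 1) ρ) := by ring
    rw [h2]
    refine Ideal.sub_mem _ (Ideal.mul_mem_mul ?_ ?_) (Ideal.mul_mem_mul ?_ ?_)
    · exact Ideal.mem_sup_right (Ideal.mem_span_singleton_self _)
    · exact Ideal.mem_sup_left hx
    · exact Ideal.mem_sup_left hx
    · exact Ideal.mem_sup_right (Ideal.mem_span_singleton_self _)

theorem norm_assoc (hu : ∀ u : O, IsUnit u → ∃ κ : QuadraticAlgebra O α 1, norm κ = u)
    {s t : O} (ht : t ≠ 0)
    (hst : Ideal.span {algebraMap O (QuadraticAlgebra O α 1) t} =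
      Ideal.span {algebraMap O (QuadraticAlgebra O α 1) s}) :
    ∃ κ : QuadraticAlgebra O α 1, IsUnit κ ∧ s = t * norm κ := by
  obtain ⟨w, hw⟩ := Ideal.span_singleton_eq_span_singleton.mp hst
  have h1 : t * (w : QuadraticAlgebra O α 1).im = 0 := by
    simpa using congrArg QuadraticAlgebra.im hw
  have h2 : (w : QuadraticAlgebra O α 1).im = 0 := (mul_eq_zero.mp h1).resolve_left ht
  have h3 : t * (w : QuadraticAlgebra O α 1).re = s := by
    simpa using congrArg QuadraticAlgebra.re hw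
  have h4 : IsUnit (w : QuadraticAlgebra O α 1).re := by
    have h5 := isUnit_iff_norm_isUnit.mp w.isUnit
    rw [norm_def, h2] at h5
    simp only [mul_zero, add_zero, sub_zero] at h5
    exact isUnit_of_mul_isUnit_left h5
  obtain ⟨κ, hκ⟩ := hu _ h4
  refine ⟨κ, isUnit_iff_norm_isUnit.mpr (hκ ▸ h4), ?_⟩
  rw [hκ, h3]

theorem norm_ne_zero' {x : QuadraticAlgebra O α 1} (hx : x ≠ 0) : norm x ≠ 0 := by
  intro h
  have h1 := algebraMap_norm_eq_mul_star x
  rw [h, map_zero] at h1
  exact mul_ne_zero hx (star_ne_zero.mpr hx) h1.symm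

/-- Conjugation on nonzero ideals. -/
noncomputable def cj0 (I : (Ideal (QuadraticAlgebra O α 1))⁰) : (Ideal (QuadraticAlgebra O α 1))⁰ :=
  ⟨cj I, mem_nonZeroDivisors_of_ne_zero (cj_ne_bot (nonZeroDivisors.coe_ne_zero I))⟩

theorem cj0_congr {I J : (Ideal (QuadraticAlgebra O α 1))⁰}
    (h : ClassGroup.mk0 I = ClassGroup.mk0 J) :
    ClassGroup.mk0 (cj0 I) = ClassGroup.mk0 (cj0 J) := by
  obtain ⟨x, y, hx, hy, hxy⟩ := ClassGroup.mk0_eq_mk0_iff.mp h
  refine ClassGroup.mk0_eq_mk0_iff.mpr ⟨star x, star y, star_ne_zero.mpr hx, star_ne_zero.mpr hy, ?_⟩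
  have := congrArg cj hxy
  rwa [cj_mul, cj_mul, cj_span, cj_span] at this

theorem cj0_mul (I J : (Ideal (QuadraticAlgebra O α 1))⁰) : cj0 (I * J) = cj0 I * cj0 J :=
  Subtype.ext (cj_mul _ _)

theorem cj0_cj0 (I : (Ideal (QuadraticAlgebra O α 1))⁰) : cj0 (cj0 I) = I :=
  Subtype.ext (cj_cj _)

/-- Conjugation on the class group. -/
noncomputable def sg (α : O) [IsDedekindDomain (QuadraticAlgebra O α 1)] :
    ClassGroup (QuadraticAlgebra O α 1) →* ClassGroup (QuadraticAlgebra O α 1) :=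
  MonoidHom.mk' (fun c => ClassGroup.mk0 (cj0 (ClassGroup.mk0_surjective c).choose)) (by
    intro c d
    rw [← map_mul, ← cj0_mul]
    apply cj0_congr
    rw [map_mul, (ClassGroup.mk0_surjective c).choose_spec,
      (ClassGroup.mk0_surjective d).choose_spec, (ClassGroup.mk0_surjective (c * d)).choose_spec])

theorem sg_mk0 (I : (Ideal (QuadraticAlgebra O α 1))⁰) :
    sg α (ClassGroup.mk0 I) = ClassGroup.mk0 (cj0 I) :=
  cj0_congr (ClassGroup.mk0_surjective _).choose_spec

theorem sg_sg (c : ClassGroup (QuadraticAlgebra O α 1)) : sg α (sg α c) = c := by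
  obtain ⟨I, rfl⟩ := ClassGroup.mk0_surjective c
  rw [sg_mk0, sg_mk0, cj0_cj0]

/-- Extension on nonzero ideals. -/
noncomputable def ex0 (α : O) [IsDedekindDomain (QuadraticAlgebra O α 1)] (A : Ideal O)
    (hA : A ≠ ⊥) : (Ideal (QuadraticAlgebra O α 1))⁰ :=
  ⟨ex α A, mem_nonZeroDivisors_of_ne_zero (ex_ne_bot hA)⟩

/-- Invariant classes come from the base ring. -/
theorem inv_class (hD : IsUnit (1 + 4 * α))
    (hu : ∀ u : O, IsUnit u → ∃ κ : QuadraticAlgebra O α 1, norm κ = u)
    (c : ClassGroup (QuadraticAlgebra O α 1)) (hc : sg α c = c) :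
    ∃ (A : Ideal O) (hA : A ≠ ⊥), ClassGroup.mk0 (ex0 α A hA) = c := by
  obtain ⟨⟨I, hI⟩, rfl⟩ := ClassGroup.mk0_surjective c
  rw [sg_mk0] at hc
  obtain ⟨x, y, hx, hy, hxy⟩ := ClassGroup.mk0_eq_mk0_iff.mp hc
  have hI0 : I ≠ ⊥ := nonZeroDivisors.ne_zero hI
  change Ideal.span {x} * cj I = Ideal.span {y} * I at hxy
  have h1 := congrArg cj hxy
  rw [cj_mul, cj_mul, cj_span, cj_span, cj_cj] at h1
  have h2 : Ideal.span {algebraMap O (QuadraticAlgebra O α 1) (norm y)} =
      Ideal.span {algebraMap O (QuadraticAlgebra O α 1) (norm x)} := by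
    rw [algebraMap_norm_eq_mul_star, algebraMap_norm_eq_mul_star,
      ← Ideal.span_singleton_mul_span_singleton, ← Ideal.span_singleton_mul_span_singleton]
    apply mul_right_cancel₀ (mul_ne_zero hI0 (cj_ne_bot hI0))
    calc Ideal.span {y} * Ideal.span {star y} * (I * cj I)
        = (Ideal.span {y} * I) * (Ideal.span {star y} * cj I) := by ring
      _ = (Ideal.span {x} * cj I) * (Ideal.span {star x} * I) := by rw [hxy, h1]
      _ = _ := by ring
  obtain ⟨κ, hκ, hN⟩ := norm_assoc hu (norm_ne_zero' hy) h2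
  have hxy' : Ideal.span {x} * cj I = Ideal.span {y * κ} * I := by
    rw [Ideal.span_singleton_mul_right_unit hκ, hxy]
  have hN' : x * star x = (y * κ) * star (y * κ) := by
    rw [← algebraMap_norm_eq_mul_star, ← algebraMap_norm_eq_mul_star, map_mul, hN]
  generalize y * κ = y' at hxy' hN'
  have h3 : ∃ γ : QuadraticAlgebra O α 1, γ ≠ 0 ∧ star γ * y' = γ * x := by
    have h4 : ∀ t : QuadraticAlgebra O α 1,
        star (star x * t + y' * star t) * y' = (star x * t + y' * star t) * x := by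
      intro t
      rw [star_add, star_mul', star_mul', star_star, star_star]
      linear_combination (-t) * hN'
    by_contra hcon
    push Not at hcon
    have h5 : star x * 1 + y' * star 1 = 0 := by
      by_contra h5
      exact hcon _ h5 (h4 1)
    have h6 : star x * omega + y' * star omega = 0 := by
      by_contra h6
      exact hcon _ h6 (h4 omega)
    rw [star_one] at h5
    have h7 : star x * (omega - star omega) = 0 := by
      linear_combination h6 - star omega * h5
    exact mul_ne_zero (star_ne_zero.mpr hx) (eta_unit hD).ne_zero h7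
  obtain ⟨γ, hγ, hγx⟩ := h3
  have h4 : cj (Ideal.span {γ} * I) = Ideal.span {γ} * I := by
    have hx' : Ideal.span {x} ≠ ⊥ := by simpa using hx
    apply mul_left_cancel₀ hx'
    rw [cj_mul, cj_span]
    calc Ideal.span {x} * (Ideal.span {star γ} * cj I)
        = Ideal.span {star γ} * (Ideal.span {x} * cj I) := by ring
      _ = (Ideal.span {star γ} * Ideal.span {y'}) * I := by rw [hxy', mul_assoc]
      _ = (Ideal.span {γ} * Ideal.span {x}) * I := by
        rw [Ideal.span_singleton_mul_span_singleton, Ideal.span_singleton_mul_span_singleton, hγx]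
      _ = _ := by ring
  have h5 := ex_comap hD h4
  have hγ' : Ideal.span {γ} ≠ ⊥ := by simpa using hγ
  have h6 : (Ideal.span {γ} * I).comap (algebraMap O _) ≠ ⊥ := by
    intro h6
    rw [h6, ex, Ideal.map_bot] at h5
    exact mul_ne_zero hγ' hI0 h5.symm
  refine ⟨_, h6, ClassGroup.mk0_eq_mk0_iff.mpr ⟨1, γ, one_ne_zero, hγ, ?_⟩⟩
  change Ideal.span {1} * ex α _ = _
  rw [h5]
  simp

theorem herbrand {G : Type} [CommGroup G] [Finite G] (s : G →* G) (hs : ∀ c, s (s c) = c)
    (h : ∀ c, s c = c → ∃ d, d * s d = c) (c : G) (hc : c * s c = 1) : ∃ d, s d / d = c := by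
  let T : G →* G := MonoidHom.id G * s
  let E : G →* G := s / MonoidHom.id G
  have h1 : T.range = E.ker := by
    ext x
    simp only [T, E, MonoidHom.mem_range, MonoidHom.mem_ker, MonoidHom.mul_apply,
      MonoidHom.div_apply, MonoidHom.id_apply, div_eq_one]
    constructor
    · rintro ⟨d, rfl⟩
      rw [map_mul, hs, mul_comm]
    · exact h x
  have h2 : E.range ≤ T.ker := by
    rintro x ⟨d, rfl⟩
    simp only [T, E, MonoidHom.mem_ker, MonoidHom.mul_apply,
      MonoidHom.div_apply, MonoidHom.id_apply, map_div, hs]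
    first
      | rw [mul_comm (s d) d, div_self']
      | rw [div_mul_div_cancel, div_self']
  have h3 := T.ker.card_mul_index
  have h4 := E.ker.card_mul_index
  rw [Subgroup.index_ker] at h3 h4
  rw [h1] at h3
  have h5 : Nat.card T.ker = Nat.card E.range := by
    have h6 : 0 < Nat.card E.ker := Nat.card_pos
    apply Nat.eq_of_mul_eq_mul_right h6
    rw [h3, mul_comm, h4]
  have h6 : E.range = T.ker := Subgroup.eq_of_le_of_card_ge h2 h5.le
  have h7 : c ∈ E.range := by
    rw [h6]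
    exact hc
  exact h7

end Herb

section Main

variable {K O : Type} [Field K] [Finite K] [CommRing O] [IsDedekindDomain O] [Algebra K O]
  {δ : O → ℕ} [Finite (ClassGroup O)] {a : K}
  [IsDedekindDomain (QuadraticAlgebra O (algebraMap K O a) 1)]
  [Finite (ClassGroup (QuadraticAlgebra O (algebraMap K O a) 1))]

theorem disc_unit (hD : 1 + 4 * a ≠ 0) : IsUnit (1 + 4 * algebraMap K O a) := by
  have := (IsUnit.mk0 _ hD).map (algebraMap K O)
  simpa [map_ofNat] using this

theorem units_norm (h : IsDeg K δ) (ha : ∀ r : K, r ^ 2 ≠ a + 1 * r) (u : O) (hu : IsUnit u) :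
    ∃ κ : QuadraticAlgebra O (algebraMap K O a) 1, norm κ = u := by
  obtain ⟨c, -, rfl⟩ := h.unit hu
  obtain ⟨x, y, rfl⟩ := norm_surj_K ha c
  refine ⟨⟨algebraMap K O x, algebraMap K O y⟩, ?_⟩
  simp [norm_def]

/-- Integer sign. -/
noncomputable def sgn (u : ℂˣ) : ℤ := if u = 1 then 1 else -1

theorem sgn_mul {u v : ℂˣ} (hu : u = 1 ∨ u = -1) (hv : v = 1 ∨ v = -1) :
    sgn (u * v) = sgn u * sgn v := by
  have hne : (-1 : ℂˣ) ≠ 1 := by
    intro h2
    have h3 := congrArg Units.val h2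
    norm_num at h3
  rcases hu with rfl | rfl <;> rcases hv with rfl | rfl <;> simp [sgn, hne]

theorem class_is_norm (h : IsDeg K δ) (ha : ∀ r : K, r ^ 2 ≠ a + 1 * r) (hD : 1 + 4 * a ≠ 0)
    (A : Ideal O) (hA : A ≠ ⊥) :
    ∃ d, d * sg (algebraMap K O a) d = ClassGroup.mk0 (ex0 (algebraMap K O a) A hA) := by
  let G := ClassGroup (QuadraticAlgebra O (algebraMap K O a) 1)
  let T : G →* G := MonoidHom.id G * sg (algebraMap K O a)
  let π : G →* G ⧸ T.range := QuotientGroup.mk' T.range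
  by_contra hcon
  have h1 : π (ClassGroup.mk0 (ex0 (algebraMap K O a) A hA)) ≠ 1 := by
    intro h1
    exact hcon ((QuotientGroup.eq_one_iff _).mp h1)
  haveI : NeZero ((Monoid.exponent (G ⧸ T.range) : ℕ) : ℂ) :=
    ⟨Nat.cast_ne_zero.mpr Monoid.exponent_ne_zero_of_finite⟩
  obtain ⟨φ, hφ⟩ := CommGroup.exists_apply_ne_one_of_hasEnoughRootsOfUnity (G ⧸ T.range) ℂ h1
  let ψ : (B : Ideal O) → B ≠ ⊥ → ℂˣ := fun B hB => φ (π (ClassGroup.mk0 (ex0 _ B hB)))
  have hψT : ∀ (B : Ideal O) (hB : B ≠ ⊥) (I : Ideal (QuadraticAlgebra O (algebraMap K O a) 1)),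
      I * cj I = ex _ B → ψ B hB = 1 := by
    intro B hB I hI
    have hI0 : I ≠ ⊥ := by
      rintro rfl
      rw [Ideal.bot_mul] at hI
      exact ex_ne_bot hB hI.symm
    have h2 : π (ClassGroup.mk0 (ex0 _ B hB)) = 1 := by
      refine (QuotientGroup.eq_one_iff _).mpr
        ⟨ClassGroup.mk0 ⟨I, mem_nonZeroDivisors_of_ne_zero hI0⟩, ?_⟩
      change ClassGroup.mk0 _ * sg _ (ClassGroup.mk0 _) = _
      rw [sg_mk0, ← map_mul]
      congr 1
      exact Subtype.ext hI
    simp only [ψ, h2, map_one]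
  have hψmul : ∀ (B C : Ideal O) (hB : B ≠ ⊥) (hC : C ≠ ⊥),
      ψ (B * C) (mul_ne_zero hB hC) = ψ B hB * ψ C hC := by
    intro B C hB hC
    simp only [ψ]
    rw [← map_mul, ← map_mul, ← map_mul]
    congr 3
    exact Subtype.ext (ex_mul _ _)
  have hψpm : ∀ (B : Ideal O) (hB : B ≠ ⊥), ψ B hB = 1 ∨ ψ B hB = -1 := by
    intro B hB
    have h2 := hψT (B * B) (mul_ne_zero hB hB) (ex _ B) (by rw [cj_ex, ex_mul])
    rw [hψmul B B hB hB] at h2
    have h3 : ((ψ B hB : ℂˣ) : ℂ) * (ψ B hB : ℂˣ) = 1 := by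
      rw [← Units.val_mul, h2, Units.val_one]
    rcases mul_self_eq_one_iff.mp h3 with h4 | h4
    · exact Or.inl (Units.ext h4)
    · exact Or.inr (Units.ext (by simpa using h4))
  let χ : Ideal O → ℤ := fun B => if hB : B ≠ ⊥ then sgn (ψ B hB) else 0
  have hχ0 : ∀ (B : Ideal O) (hB : B ≠ ⊥), χ B = sgn (ψ B hB) := by
    intro B hB
    simp only [χ, dif_pos hB]
  have hχ1 : ∀ (B : Ideal O) (hB : B ≠ ⊥), ψ B hB = 1 → χ B = 1 := by
    intro B hB h2
    rw [hχ0 B hB, sgn, if_pos h2]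
  have hχ2 : ∀ (B : Ideal O) (hB : B ≠ ⊥), ψ B hB ≠ 1 → χ B = -1 := by
    intro B hB h2
    rw [hχ0 B hB, sgn, if_neg h2]
  have hχ : IsChi χ := by
    refine ⟨?_, ?_, ?_⟩
    · intro B C hB hC
      rw [hχ0 _ (mul_ne_zero hB hC), hχ0 _ hB, hχ0 _ hC, hψmul B C hB hC]
      exact sgn_mul (hψpm B hB) (hψpm C hC)
    · intro B hB
      by_cases h2 : ψ B hB = 1
      · exact Or.inl (hχ1 _ _ h2)
      · exact Or.inr (hχ2 _ _ h2)
    · intro x hx
      have hx' : Ideal.span {x} ≠ ⊥ := by simpa using hx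
      apply hχ1 _ hx'
      have h2 : ClassGroup.mk0 (ex0 (algebraMap K O a) _ hx') = 1 := by
        rw [ex0, ClassGroup.mk0_eq_one_iff, ex_span]
        infer_instance
      simp only [ψ, h2, map_one]
  have hev : ∀ P, Prime P → Even (deg K P) → χ P = 1 := by
    intro P hP hev
    have hP0 : P ≠ ⊥ := hP.ne_zero
    haveI : P.IsMaximal := (Ideal.isPrime_of_prime hP).isMaximal hP0
    letI : Field (O ⧸ P) := Ideal.Quotient.field P
    haveI := quot_finite h hP0
    obtain ⟨r, hr⟩ := root_of_even ha (O ⧸ P) hev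
    obtain ⟨ρ, rfl⟩ := Ideal.Quotient.mk_surjective r
    have h2 : ρ * ρ - algebraMap K O a - ρ ∈ P := by
      rw [← Ideal.Quotient.eq_zero_iff_mem, map_sub, map_sub, map_mul, hr]
      have : Ideal.Quotient.mk P (algebraMap K O a) = algebraMap K (O ⧸ P) a := rfl
      rw [this]
      ring
    obtain ⟨I, hI⟩ := split_prime (disc_unit hD) h2
    exact hχ1 _ hP0 (hψT P hP0 I hI)
  have h2 := chi_trivial h hχ hev A hA
  rw [hχ2 A hA hφ] at h2
  norm_num at h2

/-- Norm theorem: an element generating the square of an ideal is a norm. -/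
theorem norm_theorem (h : IsDeg K δ) (ha : ∀ r : K, r ^ 2 ≠ a + 1 * r) (hD : 1 + 4 * a ≠ 0)
    {z : O} (hz : z ≠ 0) {A : Ideal O} (hA : A * A = Ideal.span {z}) :
    ∃ x0 x1 x2 : O, x0 ≠ 0 ∧ z * x0 ^ 2 = x1 * x1 + x1 * x2 - algebraMap K O a * x2 * x2 := by
  have hA0 : A ≠ ⊥ := by
    rintro rfl
    rw [Ideal.bot_mul, eq_comm, Ideal.span_singleton_eq_bot] at hA
    exact hz hA
  have hu := units_norm h ha
  have h1 : ∀ c, sg (algebraMap K O a) c = c → ∃ d, d * sg (algebraMap K O a) d = c := by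
    intro c hc
    obtain ⟨B, hB, rfl⟩ := inv_class (disc_unit hD) hu c hc
    exact class_is_norm h ha hD B hB
  obtain ⟨d, hd⟩ := herbrand (sg (algebraMap K O a)) sg_sg h1
    (ClassGroup.mk0 (ex0 (algebraMap K O a) A hA0)) (by
      rw [sg_mk0, ← map_mul]
      have h2 : ex0 (algebraMap K O a) A hA0 * cj0 (ex0 (algebraMap K O a) A hA0) =
          ex0 (algebraMap K O a) (Ideal.span {z}) (by simpa using hz) := by
        apply Subtype.ext
        change ex _ A * cj (ex _ A) = ex _ _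
        rw [cj_ex, ← ex_mul, hA]
      rw [h2, ex0, ClassGroup.mk0_eq_one_iff, ex_span]
      infer_instance)
  obtain ⟨⟨I, hI⟩, rfl⟩ := ClassGroup.mk0_surjective d
  rw [sg_mk0, div_eq_iff_eq_mul, ← map_mul] at hd
  obtain ⟨y, x, hy, hx, hxy⟩ := ClassGroup.mk0_eq_mk0_iff.mp hd
  have hI0 : I ≠ ⊥ := nonZeroDivisors.ne_zero hI
  change Ideal.span {y} * cj I = Ideal.span {x} * (ex _ A * I) at hxy
  have h2 := congrArg cj hxy
  rw [cj_mul, cj_mul, cj_mul, cj_span, cj_span, cj_cj, cj_ex] at h2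
  have h3 : Ideal.span {algebraMap O (QuadraticAlgebra O (algebraMap K O a) 1) (norm y)} =
      Ideal.span {algebraMap O (QuadraticAlgebra O (algebraMap K O a) 1) (z * norm x)} := by
    rw [map_mul, algebraMap_norm_eq_mul_star, algebraMap_norm_eq_mul_star,
      ← Ideal.span_singleton_mul_span_singleton, ← Ideal.span_singleton_mul_span_singleton,
      ← Ideal.span_singleton_mul_span_singleton, ← ex_span, ← hA, ex_mul]
    apply mul_right_cancel₀ (mul_ne_zero hI0 (cj_ne_bot hI0))
    calc Ideal.span {y} * Ideal.span {star y} * (I * cj I)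
        = (Ideal.span {y} * cj I) * (Ideal.span {star y} * I) := by ring
      _ = _ := by rw [hxy, h2]; ring
  obtain ⟨κ, -, hN⟩ := norm_assoc hu (norm_ne_zero' hy) h3
  refine ⟨norm x, (y * κ * x).re, (y * κ * x).im, norm_ne_zero' hx, ?_⟩
  have h4 := norm_def (y * κ * x)
  rw [map_mul, map_mul, ← hN] at h4
  linear_combination h4

end Main

end Pool.Agent.H216Z.DioA
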