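import Pool.Agent.H216Z.DioA

set_option autoImplicit false
set_option linter.unusedSectionVars false
set_option linter.style.haveILetI false

namespace Pool.Agent.H216Z.DioA

open scoped nonZeroDivisors Classical
open Polynomial

section Val

variable {K L Γ : Type} [Field K] [Field L] [Algebra K L] [Algebra K[X] L] [IsScalarTower K K[X] L]
  [LinearOrderedCommGroupWithZero Γ] {v : Valuation L Γ}

theorem v_smul (hK : ∀ c : K, c ≠ 0 → v (algebraMap K L c) = 1) {c : K} (hc : c ≠ 0) (x : L) :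
    v (c • x) = v x := by
  rw [Algebra.smul_def, map_mul, hK c hc, one_mul]

theorem v_smul_le (hK : ∀ c : K, c ≠ 0 → v (algebraMap K L c) = 1) (c : K) (x : L) :
    v (c • x) ≤ v x := by
  by_cases hc : c = 0
  · simp [hc]
  · exact (v_smul hK hc x).le

theorem lead (hK : ∀ c : K, c ≠ 0 → v (algebraMap K L c) = 1) {ι : Type} (S : Finset ι)
    (hS : S.Nonempty) (c : ι → K) (m : ι → L) (hm0 : ∀ i ∈ S, m i ≠ 0)
    (hinj : ∀ i ∈ S, ∀ j ∈ S, v (m i) = v (m j) → i = j) :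
    ∃ j ∈ S, v (∑ i ∈ S, c i • m i - c j • m j) < v (m j) := by
  obtain ⟨j, hj, hmax⟩ := Finset.exists_max_image S (fun i => v (m i)) hS
  refine ⟨j, hj, ?_⟩
  rw [← Finset.sum_erase_eq_sub hj]
  refine v.map_sum_lt (v.ne_zero_iff.mpr (hm0 j hj)) fun i hi => ?_
  rw [Finset.mem_erase] at hi
  exact lt_of_le_of_lt (v_smul_le hK _ _)
    (lt_of_le_of_ne (hmax i hi.2) fun h => hi.1 (hinj i hi.2 j hj h))

theorem alg_eq_sum (a : K[X]) :
    algebraMap K[X] L a = ∑ k ∈ a.support, a.coeff k • (algebraMap K[X] L X) ^ k := by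
  conv_lhs => rw [a.as_sum_support_C_mul_X_pow]
  rw [map_sum]
  refine Finset.sum_congr rfl fun k _ => ?_
  rw [map_mul, map_pow, Algebra.smul_def, IsScalarTower.algebraMap_apply K K[X] L]
  rfl

theorem v_poly (hK : ∀ c : K, c ≠ 0 → v (algebraMap K L c) = 1)
    (hz : 1 < v (algebraMap K[X] L X)) {a : K[X]} (ha : a ≠ 0) :
    v (algebraMap K[X] L a) = v (algebraMap K[X] L X) ^ a.natDegree := by
  have hl : a.coeff a.natDegree ≠ 0 := leadingCoeff_ne_zero.mpr ha
  rw [alg_eq_sum, v.map_sum_eq_of_lt (natDegree_mem_support_of_nonzero ha)]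
  · rw [v_smul hK hl, map_pow]
  · intro i hi
    rw [Finset.mem_sdiff, Finset.mem_singleton] at hi
    rw [v_smul hK (mem_support_iff.mp hi.1), v_smul hK hl, map_pow, map_pow]
    exact pow_lt_pow_right₀ hz (lt_of_le_of_ne (le_natDegree_of_mem_supp i hi.1) hi.2)

theorem v_root (hK : ∀ c : K, c ≠ 0 → v (algebraMap K L c) = 1)
    (hz : 1 < v (algebraMap K[X] L X)) {d N : ℕ} (hd : 0 < d) {h : K[X][X]} (hm : h.Monic)
    (hdeg : h.natDegree = d) (h0 : h.coeff 0 ≠ 0) (hN : (h.coeff 0).natDegree = N)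
    (hmid : ∀ i, 0 < i → i < d → d * (h.coeff i).natDegree + N * i < N * d)
    {w : L} (hw : aeval w h = 0) : v w ^ d = v (algebraMap K[X] L X) ^ N := by
  set ζ := v (algebraMap K[X] L X) with hζ
  have hζ0 : 0 < ζ := lt_trans zero_lt_one hz
  by_contra hne
  obtain ⟨e, rfl⟩ : ∃ e, d = e + 1 := ⟨d - 1, by omega⟩
  rw [aeval_eq_sum_range, hdeg, Finset.sum_range_succ, Finset.sum_range_succ'] at hw
  have h1 : h.coeff (e + 1) = 1 := by
    rw [← hdeg]
    exact hm.coeff_natDegree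
  rw [h1, one_smul, pow_zero, ← Algebra.algebraMap_eq_smul_one, add_assoc] at hw
  have h2 : v (algebraMap K[X] L (h.coeff 0) + w ^ (e + 1)) = max (ζ ^ N) (v w ^ (e + 1)) := by
    rw [v.map_add_of_distinct_val, v_poly hK hz h0, hN, map_pow]
    rw [v_poly hK hz h0, hN, map_pow]
    exact fun hh => hne hh.symm
  set M := max (ζ ^ N) (v w ^ (e + 1)) with hM
  have hM0 : 0 < M := lt_of_lt_of_le (pow_pos hζ0 N) (le_max_left _ _)
  have h3 : v (∑ k ∈ Finset.range e, h.coeff (k + 1) • w ^ (k + 1)) < M := by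
    refine v.map_sum_lt hM0.ne' fun k hk => ?_
    rw [Finset.mem_range] at hk
    by_cases hc : h.coeff (k + 1) = 0
    · simpa [hc] using hM0
    rw [Algebra.smul_def, map_mul, v_poly hK hz hc, map_pow]
    refine lt_of_pow_lt_pow_left₀ (e + 1) hM0.le ?_
    have h4 := hmid (k + 1) (by omega) (by omega)
    obtain ⟨r, hr⟩ : ∃ r, e + 1 = r + (k + 1) := ⟨e - k, by omega⟩
    have h5 : (e + 1) * (h.coeff (k + 1)).natDegree < N * r := by
      have : N * (e + 1) = N * r + N * (k + 1) := by rw [hr, mul_add]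
      omega
    have h6 : (ζ ^ (h.coeff (k + 1)).natDegree) ^ (e + 1) < M ^ r := by
      rw [← pow_mul, mul_comm]
      refine lt_of_lt_of_le (pow_lt_pow_right₀ hz h5) ?_
      rw [pow_mul]
      exact pow_le_pow_left₀ zero_le (le_max_left _ _) r
    have h7 : (v w ^ (k + 1)) ^ (e + 1) ≤ M ^ (k + 1) := by
      rw [← pow_mul, mul_comm, pow_mul]
      exact pow_le_pow_left₀ zero_le (le_max_right _ _) _
    rw [mul_pow]
    calc _ ≤ (ζ ^ (h.coeff (k + 1)).natDegree) ^ (e + 1) * M ^ (k + 1) := by gcongr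
      _ < M ^ r * M ^ (k + 1) := mul_lt_mul_of_pos_right h6 (pow_pos hM0 _)
      _ = M ^ (e + 1) := by rw [← pow_add, ← hr]
  have h4 : algebraMap K[X] L (h.coeff 0) + w ^ (e + 1) =
      -∑ k ∈ Finset.range e, h.coeff (k + 1) • w ^ (k + 1) := by
    linear_combination hw
  rw [h4, v.map_neg] at h2
  exact h3.ne h2

theorem mono_pow {d N : ℕ} {w : L} (hw : v w ^ d = v (algebraMap K[X] L X) ^ N) (k i : ℕ) :
    v ((algebraMap K[X] L X) ^ k * w ^ i) ^ d = v (algebraMap K[X] L X) ^ (d * k + N * i) := by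
  rw [map_mul, map_pow, map_pow, mul_pow, ← pow_mul, ← pow_mul, mul_comm i d, pow_mul (v w), hw,
    ← pow_mul, ← pow_add, mul_comm k d]

theorem mono_inj {d N : ℕ} (hcop : Nat.Coprime d N) {k i k' i' : ℕ} (hi : i < d) (hi' : i' < d)
    (h : d * k + N * i = d * k' + N * i') : i = i' ∧ k = k' := by
  have h1 : N * i ≡ N * i' [MOD d] := by
    have h2 : d * k + N * i ≡ N * i [MOD d] := by
      simp [Nat.ModEq]
    have h3 : d * k' + N * i' ≡ N * i' [MOD d] := by
      simp [Nat.ModEq]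
    exact h2.symm.trans (h ▸ h3)
  have h2 : i ≡ i' [MOD d] := Nat.ModEq.cancel_left_of_coprime hcop h1
  have h3 : i = i' := Nat.ModEq.eq_of_lt_of_lt h2 hi hi'
  subst h3
  refine ⟨rfl, Nat.eq_of_mul_eq_mul_left (by omega : 0 < d) (by omega)⟩

theorem lead_poly (hK : ∀ c : K, c ≠ 0 → v (algebraMap K L c) = 1)
    (hz : 1 < v (algebraMap K[X] L X)) {d N : ℕ} (hd : 0 < d) (hcop : Nat.Coprime d N) {w : L}
    (hw : v w ^ d = v (algebraMap K[X] L X) ^ N) {p : K[X][X]} (hp : p ≠ 0)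
    (hpd : p.natDegree < d) :
    ∃ (k i : ℕ) (c : K), i < d ∧ c ≠ 0 ∧
      v (aeval w p - c • ((algebraMap K[X] L X) ^ k * w ^ i)) <
        v ((algebraMap K[X] L X) ^ k * w ^ i) := by
  have hζ0 : 0 < v (algebraMap K[X] L X) := lt_trans zero_lt_one hz
  have hz0 : algebraMap K[X] L X ≠ 0 := v.ne_zero_iff.mp hζ0.ne'
  have hw0 : w ≠ 0 := by
    rintro rfl
    rw [map_zero, zero_pow hd.ne'] at hw
    exact (pow_pos hζ0 N).ne hw
  let S : Finset (Σ _ : ℕ, ℕ) := p.support.sigma fun i => (p.coeff i).support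
  have hS : S.Nonempty := by
    have h1 := natDegree_mem_support_of_nonzero hp
    exact ⟨⟨p.natDegree, (p.coeff p.natDegree).natDegree⟩, Finset.mem_sigma.mpr
      ⟨h1, natDegree_mem_support_of_nonzero (mem_support_iff.mp h1)⟩⟩
  have hlt : ∀ t ∈ S, t.1 < d := fun t ht =>
    lt_of_le_of_lt (le_natDegree_of_mem_supp _ (Finset.mem_sigma.mp ht).1) hpd
  obtain ⟨j, hj, hj2⟩ := lead hK S hS (fun t => (p.coeff t.1).coeff t.2)
    (fun t => (algebraMap K[X] L X) ^ t.2 * w ^ t.1)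
    (fun t _ => mul_ne_zero (pow_ne_zero _ hz0) (pow_ne_zero _ hw0)) (by
      intro s hs t ht hst
      have h1 := congrArg (· ^ d) hst
      simp only [mono_pow hw] at h1
      obtain ⟨h2, h3⟩ := mono_inj hcop (hlt s hs) (hlt t ht) (pow_right_injective₀ hζ0 hz.ne' h1)
      exact Sigma.ext h2 (heq_of_eq h3))
  refine ⟨j.2, j.1, _, hlt j hj, mem_support_iff.mp (Finset.mem_sigma.mp hj).2, ?_⟩
  have h1 : aeval w p = ∑ t ∈ S, (p.coeff t.1).coeff t.2 • ((algebraMap K[X] L X) ^ t.2 * w ^ t.1) := by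
    rw [Finset.sum_sigma, aeval_def, eval₂_eq_sum, Polynomial.sum_def]
    refine Finset.sum_congr rfl fun i _ => ?_
    rw [alg_eq_sum, Finset.sum_mul]
    refine Finset.sum_congr rfl fun k _ => ?_
    rw [smul_mul_assoc]
  rw [h1]
  exact hj2

theorem unif_denom {d : ℕ} {w : L}
    (hspan : ∀ x : L, ∃ Δ : K[X], Δ ≠ 0 ∧ ∃ p : K[X][X], p.natDegree < d ∧ Δ • x = aeval w p)
    (M : Submodule K[X] L) (hM : M.FG) :
    ∃ Δ : K[X], Δ ≠ 0 ∧ ∀ x ∈ M, ∃ p : K[X][X], p.natDegree < d ∧ Δ • x = aeval w p := by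
  obtain ⟨s, rfl⟩ := hM
  choose D hD0 P hP hDP using hspan
  refine ⟨∏ y ∈ s, D y, Finset.prod_ne_zero_iff.mpr fun y _ => hD0 y, fun x hx => ?_⟩
  induction hx using Submodule.span_induction with
  | mem y hy =>
    refine ⟨(∏ t ∈ s.erase y, D t) • P y, lt_of_le_of_lt (natDegree_smul_le _ _) (hP y), ?_⟩
    rw [← Finset.prod_erase_mul s D hy, mul_smul, hDP, map_smul]
  | zero => exact ⟨0, by simpa using lt_of_le_of_lt (Nat.zero_le _) (hP 0), by simp⟩
  | add x y _ _ hx hy =>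
    obtain ⟨p, hp, hpx⟩ := hx
    obtain ⟨q, hq, hqy⟩ := hy
    exact ⟨p + q, lt_of_le_of_lt (natDegree_add_le _ _) (max_lt hp hq), by
      rw [smul_add, hpx, hqy, map_add]⟩
  | smul c x _ hx =>
    obtain ⟨p, hp, hpx⟩ := hx
    exact ⟨c • p, lt_of_le_of_lt (natDegree_smul_le _ _) hp, by
      rw [smul_comm, hpx, map_smul]⟩

theorem exists_isDeg (hK : ∀ c : K, c ≠ 0 → v (algebraMap K L c) = 1)
    (hz : 1 < v (algebraMap K[X] L X)) {d N : ℕ} (hd : 0 < d) (hcop : Nat.Coprime d N) {w : L}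
    (hw : v w ^ d = v (algebraMap K[X] L X) ^ N) (hwi : IsIntegral K[X] w)
    (hspan : ∀ x : L, ∃ Δ : K[X], Δ ≠ 0 ∧ ∃ p : K[X][X], p.natDegree < d ∧ Δ • x = aeval w p) :
    ∃ δ : integralClosure K[X] L → ℕ, IsDeg K δ := by
  set z := algebraMap K[X] L X with hzdef
  set ζ := v z with hζ
  have hζ0 : 0 < ζ := lt_trans zero_lt_one hz
  have hz0 : z ≠ 0 := v.ne_zero_iff.mp hζ0.ne'
  have hw0 : w ≠ 0 := by
    rintro rfl
    rw [map_zero, zero_pow hd.ne'] at hw
    exact (pow_pos hζ0 N).ne hw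
  have hΔ : ∀ (Δ : K[X]) (x : L), Δ ≠ 0 → v (Δ • x) = ζ ^ Δ.natDegree * v x := by
    intro Δ x h0
    rw [Algebra.smul_def, map_mul, v_poly hK hz h0]
  have hlead : ∀ (Δ : K[X]) (x : L) (p : K[X][X]), Δ ≠ 0 → x ≠ 0 → p.natDegree < d →
      Δ • x = aeval w p → ∃ (k i : ℕ) (c : K), i < d ∧ c ≠ 0 ∧
        v (Δ • x - c • (z ^ k * w ^ i)) < v (z ^ k * w ^ i) ∧ v (Δ • x) = v (z ^ k * w ^ i) := by
    intro Δ x p h0 hx hp hpx
    have hp0 : p ≠ 0 := by
      rintro rfl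
      have h1 := hΔ Δ x h0
      rw [hpx, map_zero, map_zero] at h1
      exact (mul_pos (pow_pos hζ0 _) (zero_lt_iff.mpr (v.ne_zero_iff.mpr hx))).ne h1
    obtain ⟨k, i, c, hi, hc, h1⟩ := lead_poly hK hz hd hcop hw hp0 hp
    rw [← hpx] at h1
    refine ⟨k, i, c, hi, hc, h1, ?_⟩
    rw [← v_smul hK hc (z ^ k * w ^ i)] at h1 ⊢
    exact v.map_eq_of_sub_lt h1
  have hex : ∀ x : integralClosure K[X] L, x ≠ 0 → ∃ n : ℕ, v (x : L) ^ d = ζ ^ n := by
    intro x hx
    have hx0 : (x : L) ≠ 0 := fun h => hx (Subtype.ext h)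
    obtain ⟨Δ, h0, hΔM⟩ := unif_denom hspan _ x.2.fg_adjoin_singleton
    have hpow : ∀ n : ℕ, ∃ μ : ℕ, ζ ^ (d * Δ.natDegree) * (v (x : L) ^ d) ^ n = ζ ^ μ := by
      intro n
      obtain ⟨p, hp, hpx⟩ := hΔM ((x : L) ^ n)
        (Subalgebra.pow_mem _ (Algebra.self_mem_adjoin_singleton _ _) n)
      obtain ⟨k, i, c, -, -, -, h1⟩ := hlead Δ _ p h0 (pow_ne_zero n hx0) hp hpx
      refine ⟨d * k + N * i, ?_⟩
      rw [← mono_pow hw, ← h1, hΔ Δ _ h0, map_pow, mul_pow, ← pow_mul, ← pow_mul, ← pow_mul,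
        mul_comm d n, mul_comm d]
    obtain ⟨μ, hμ⟩ := hpow 1
    rw [pow_one] at hμ
    by_cases hle : d * Δ.natDegree ≤ μ
    · obtain ⟨n, rfl⟩ := Nat.exists_eq_add_of_le hle
      rw [pow_add] at hμ
      exact ⟨n, mul_left_cancel₀ (pow_pos hζ0 _).ne' hμ⟩
    · exfalso
      obtain ⟨e, he⟩ := Nat.exists_eq_add_of_lt (not_le.mp hle)
      rw [he, add_assoc, pow_add, mul_assoc] at hμ
      have h1 : ζ ^ (e + 1) * v (x : L) ^ d = 1 := by
        apply mul_left_cancel₀ (pow_pos hζ0 μ).ne'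
        rw [hμ, mul_one]
      obtain ⟨ν, hν⟩ := hpow (d * Δ.natDegree + 1)
      have h2 := congrArg (fun t => (ζ ^ (e + 1)) ^ (d * Δ.natDegree + 1) * t) hν
      rw [mul_left_comm, ← mul_pow, h1, one_pow, mul_one, ← pow_mul, ← pow_add] at h2
      have h3 := pow_right_injective₀ hζ0 hz.ne' h2
      nlinarith
  let δ : integralClosure K[X] L → ℕ := fun x => if hx : x ≠ 0 then (hex x hx).choose else 0
  have hδ : ∀ x : integralClosure K[X] L, x ≠ 0 → v (x : L) ^ d = ζ ^ δ x := by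
    intro x hx
    simp only [δ, dif_pos hx]
    exact (hex x hx).choose_spec
  have huniq : ∀ x n, x ≠ 0 → v ((x : integralClosure K[X] L) : L) ^ d = ζ ^ n → δ x = n := by
    intro x n hx h1
    rw [hδ x hx] at h1
    exact pow_right_injective₀ hζ0 hz.ne' h1
  have hle : ∀ x y, x ≠ 0 → y ≠ 0 → v ((x : integralClosure K[X] L) : L) ≤
      v ((y : integralClosure K[X] L) : L) → δ x ≤ δ y := by
    intro x y hx hy h1
    have h2 := pow_le_pow_left₀ zero_le h1 d
    rw [hδ x hx, hδ y hy] at h2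
    exact (pow_le_pow_iff_right₀ hz).mp h2
  refine ⟨δ, ?_, ?_, ?_, ?_, ?_⟩
  · intro x y hx hy
    apply huniq _ _ (mul_ne_zero hx hy)
    rw [Subalgebra.coe_mul, map_mul, mul_pow, hδ x hx, hδ y hy, pow_add]
  · intro x y hx hy hxy
    have h1 := v.map_add (x : L) (y : L)
    rw [← Subalgebra.coe_add] at h1
    rcases le_max_iff.mp h1 with h2 | h2
    · exact le_max_of_le_left (hle _ _ hxy hx h2)
    · exact le_max_of_le_right (hle _ _ hxy hy h2)
  · intro c hc
    apply huniq _ _ (alg_ne_zero hc)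
    have : ((algebraMap K (integralClosure K[X] L) c : integralClosure K[X] L) : L) =
      algebraMap K L c := rfl
    rw [this, hK c hc, one_pow, pow_zero]
  · intro x y hx hy hxy
    have hx0 : (x : L) ≠ 0 := fun h => hx (Subtype.ext h)
    have hy0 : (y : L) ≠ 0 := fun h => hy (Subtype.ext h)
    obtain ⟨Δ, h0, hΔM⟩ := unif_denom hspan (Submodule.span K[X] {(x : L), (y : L)})
      (Submodule.fg_span (Set.toFinite _))
    obtain ⟨p, hp, hpx⟩ := hΔM x (Submodule.subset_span (by simp))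
    obtain ⟨q, hq, hqy⟩ := hΔM y (Submodule.subset_span (by simp))
    obtain ⟨k, i, c, hi, hc, h1, h2⟩ := hlead Δ _ p h0 hx0 hp hpx
    obtain ⟨k', i', c', hi', hc', h1', h2'⟩ := hlead Δ _ q h0 hy0 hq hqy
    have h3 : v (z ^ k * w ^ i) ^ d = v (z ^ k' * w ^ i') ^ d := by
      rw [← h2, ← h2', hΔ Δ _ h0, hΔ Δ _ h0, mul_pow, mul_pow, hδ x hx, hδ y hy, hxy]
    rw [mono_pow hw, mono_pow hw] at h3
    obtain ⟨rfl, rfl⟩ := mono_inj hcop hi hi' (pow_right_injective₀ hζ0 hz.ne' h3)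
    refine ⟨c / c', ?_⟩
    by_cases h4 : x - (c / c') • y = 0
    · exact Or.inl h4
    right
    have h5 : Δ • ((x - (c / c') • y : integralClosure K[X] L) : L) =
        (Δ • (x : L) - c • (z ^ k * w ^ i)) - (c / c') • (Δ • (y : L) - c' • (z ^ k * w ^ i)) := by
      have h6 : ((x - (c / c') • y : integralClosure K[X] L) : L) = x - (c / c') • (y : L) := rfl
      rw [h6, smul_sub, smul_sub, smul_smul, div_mul_cancel₀ c hc', smul_comm Δ (c / c')]
      ring
    have h6 : v (Δ • ((x - (c / c') • y : integralClosure K[X] L) : L)) < v (Δ • (x : L)) := by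
      rw [h5, h2]
      exact v.map_sub_lt h1 (lt_of_le_of_lt (v_smul_le hK _ _) h1')
    rw [hΔ Δ _ h0, hΔ Δ _ h0] at h6
    have h7 := lt_of_mul_lt_mul_left h6 zero_le
    have h8 := pow_lt_pow_left₀ h7 zero_le hd.ne'
    rw [hδ _ h4, hδ x hx] at h8
    exact (pow_lt_pow_iff_right₀ hz).mp h8
  · refine ⟨d.pred * N.pred, fun n hn => ?_⟩
    obtain ⟨k, i, hki⟩ := Nat.exists_add_mul_eq_of_gcd_dvd_of_mul_pred_le d N n
      (by rw [hcop.gcd_eq_one]; exact one_dvd n) hn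
    have hmem : z ^ k * w ^ i ∈ integralClosure K[X] L :=
      Subalgebra.mul_mem _ (Subalgebra.pow_mem _ (Subalgebra.algebraMap_mem _ _) _)
        (Subalgebra.pow_mem _ hwi _)
    have h0 : (⟨z ^ k * w ^ i, hmem⟩ : integralClosure K[X] L) ≠ 0 := fun h =>
      mul_ne_zero (pow_ne_zero _ hz0) (pow_ne_zero _ hw0) (congrArg Subtype.val h)
    refine ⟨_, h0, huniq _ _ h0 ?_⟩
    change v (z ^ k * w ^ i) ^ d = _
    rw [mono_pow hw, ← hki, mul_comm k d, mul_comm i N]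

theorem exists_val (hinj : Function.Injective (algebraMap K[X] L)) :
    ∃ V : ValuationSubring L, (∀ c : K, c ≠ 0 → V.valuation (algebraMap K L c) = 1) ∧
      1 < V.valuation (algebraMap K[X] L X) := by
  have h1 : ¬ IsIntegral K (algebraMap K[X] L X) := by
    intro h1
    have h2 : IsIntegral K (X : K[X]) :=
      (isIntegral_algHom_iff (IsScalarTower.toAlgHom K K[X] L) hinj).mp h1
    exact transcendental_X K h2.isAlgebraic
  obtain ⟨V, hV, hz⟩ := Subring.exists_le_valuationSubring_of_isIntegrallyClosedIn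
    (R := (integralClosure K L).toSubring) (x := algebraMap K[X] L X) h1
  have h2 : ∀ c : K, V.valuation (algebraMap K L c) ≤ 1 := fun c =>
    (V.valuation_le_one_iff _).mpr (hV (Subalgebra.algebraMap_mem (integralClosure K L) c))
  refine ⟨V, fun c hc => le_antisymm (h2 c) ?_, ?_⟩
  · have h3 := h2 c⁻¹
    rw [map_inv₀, map_inv₀] at h3
    have h4 : 0 < V.valuation (algebraMap K L c) :=
      zero_lt_iff.mpr (V.valuation.ne_zero_iff.mpr ((_root_.map_ne_zero _).mpr hc))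
    exact (inv_le_one₀ h4).mp h3
  · exact not_le.mp fun h => hz ((V.valuation_le_one_iff _).mp h)

end Val

end Pool.Agent.H216Z.DioA
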