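import Pool.Agent.H216Z.DioC
import Pool.Agent.H216Z.DioD

set_option autoImplicit false
set_option linter.unusedSectionVars false
set_option linter.style.haveILetI false

namespace Pool.Agent.H216Z.DioA

open scoped nonZeroDivisors Classical
open Polynomial QuadraticAlgebra

theorem ideal_sq {O : Type} [CommRing O] {z w g k : O} {m : ℕ}
    (h : w ^ (2 * m) + z * (1 + z * g + w * k) = 0) :
    Ideal.span {z, w ^ m} * Ideal.span {z, w ^ m} = Ideal.span {z} := by
  have hz : z ∈ Ideal.span {z, w ^ m} := Ideal.subset_span (by simp)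
  have hw : w ^ m ∈ Ideal.span {z, w ^ m} := Ideal.subset_span (by simp)
  apply le_antisymm
  · rw [Ideal.span_mul_span', Ideal.span_le]
    rintro _ ⟨s, hs, t, ht, rfl⟩
    simp only [Set.mem_insert_iff, Set.mem_singleton_iff] at hs ht
    rw [SetLike.mem_coe, Ideal.mem_span_singleton]
    rcases hs with rfl | rfl
    · exact dvd_mul_right _ _
    · rcases ht with rfl | rfl
      · exact dvd_mul_left _ _
      · exact ⟨-(1 + z * g + w * k), by linear_combination h⟩
  · rw [Ideal.span_singleton_le_iff_mem]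
    obtain ⟨s, hs⟩ := sub_dvd_pow_sub_pow (1 : O) (-(z * g + w * k)) m
    obtain ⟨s', hs'⟩ := sub_dvd_pow_sub_pow (-(z * g + w * k)) (w * -k) m
    have h1 : (-(z * g + w * k)) ^ m ∈ Ideal.span {z, w ^ m} := by
      have h2 : (-(z * g + w * k)) ^ m = w ^ m * (-k) ^ m + z * (-g * s') := by
        rw [← mul_pow]
        linear_combination hs'
      rw [h2]
      exact Ideal.add_mem _ (Ideal.mul_mem_right _ _ hw) (Ideal.mul_mem_right _ _ hz)
    have h2 : z = z * (-(z * g + w * k)) ^ m - w ^ m * w ^ m * s := by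
      rw [one_pow] at hs
      linear_combination z * hs + s * h
    have h3 : z * (-(z * g + w * k)) ^ m - w ^ m * w ^ m * s ∈
        Ideal.span {z, w ^ m} * Ideal.span {z, w ^ m} :=
      Ideal.sub_mem _ (Ideal.mul_mem_mul hz h1) (Ideal.mul_mem_right _ _ (Ideal.mul_mem_mul hw hw))
    rwa [← h2] at h3

section Ext

variable {K L : Type} [Field K] [Finite K] [Field L] [Algebra K L] [Algebra K[X] L]
  [IsScalarTower K K[X] L] [Algebra (RatFunc K) L] [IsScalarTower K[X] (RatFunc K) L]
  [FiniteDimensional (RatFunc K) L] [Algebra.IsSeparable (RatFunc K) L] {a : K}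

theorem omega_sep {F : Type} [Field F] {α : F} [Fact (∀ r : F, r ^ 2 ≠ α + 1 * r)]
    (hD : 1 + 4 * α ≠ 0) : Algebra.IsSeparable F (QuadraticAlgebra F α 1) := by
  have h1 : IsSeparable F (omega : QuadraticAlgebra F α 1) := by
    have h2 : (X ^ 2 - X - C α : F[X]).Separable := by
      rw [separable_def]
      refine ⟨C (-4 / (1 + 4 * α)), C (1 / (1 + 4 * α)) * (2 * X - 1), ?_⟩
      have h3 : C (1 / (1 + 4 * α)) * (1 + 4 * C α) = (1 : F[X]) := by
        have : (1 + 4 * C α : F[X]) = C (1 + 4 * α) := by simp [map_ofNat]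
        rw [this, ← Polynomial.C_mul, one_div_mul_cancel hD, C_1]
      have h4 : C (-4 / (1 + 4 * α)) = -4 * C (1 / (1 + 4 * α)) := by
        have : (-4 : F[X]) = C (-4) := by simp [map_ofNat]
        rw [this, ← Polynomial.C_mul]
        congr 1
        ring
      have h5 : derivative (X ^ 2 - X - C α : F[X]) = 2 * X - 1 := by
        simp
        norm_num
      rw [h4, h5]
      linear_combination h3
    refine h2.of_dvd (minpoly.dvd F _ ?_)
    simp only [map_sub, map_pow, aeval_X, aeval_C]
    ext <;> simp [pow_two]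
  refine ⟨fun x => ?_⟩
  have h2 : x = algebraMap F _ x.re + algebraMap F _ x.im * omega := by
    ext <;> simp
  rw [h2]
  exact Field.isSeparable_add (isSeparable_algebraMap _)
    (Field.isSeparable_mul (isSeparable_algebraMap _) h1)

theorem no_root_L {δ : integralClosure K[X] L → ℕ} (h : IsDeg K δ)
    (ha : ∀ r : K, r ^ 2 ≠ a + 1 * r) (r : L) : r ^ 2 ≠ algebraMap K L a + 1 * r := by
  intro hr
  have ha0 : a ≠ 0 := by
    rintro rfl
    exact ha 0 (by simp)
  have h1 : IsIntegral K r := by
    refine ⟨X ^ 2 - X - C a, by monicity!, ?_⟩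
    simp only [eval₂_sub, eval₂_pow, eval₂_X, eval₂_C]
    linear_combination hr
  have h2 : IsIntegral K[X] r := h1.tower_top
  let ρ : integralClosure K[X] L := ⟨r, h2⟩
  have h3 : ρ * (ρ - 1) = algebraMap K _ a := by
    apply Subtype.ext
    change r * (r - 1) = algebraMap K L a
    linear_combination hr
  have h4 : IsUnit ρ := isUnit_of_mul_isUnit_left
    (h3 ▸ (IsUnit.mk0 a ha0).map (algebraMap K (integralClosure K[X] L)))
  obtain ⟨c, -, hc⟩ := h.unit h4
  have h5 : r = algebraMap K L c := congrArg Subtype.val hc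
  apply ha c
  apply (algebraMap K L).injective
  rw [map_pow, map_add, map_mul, map_one, ← h5, hr]

/-- Inclusion of quadratic algebras. -/
noncomputable def incl (L : Type) [Field L] [Algebra K L] [Algebra K[X] L] [IsScalarTower K K[X] L]
    (a : K) : QuadraticAlgebra (integralClosure K[X] L) (algebraMap K _ a) 1 →+*
      QuadraticAlgebra L (algebraMap K L a) 1 where
  toFun x := ⟨x.re, x.im⟩
  map_one' := by ext <;> simp
  map_mul' x y := by
    have : ((algebraMap K (integralClosure K[X] L) a : integralClosure K[X] L) : L) =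
      algebraMap K L a := rfl
    ext <;> simp [this]
  map_zero' := by ext <;> simp
  map_add' x y := by ext <;> simp

theorem incl_inj : Function.Injective (incl L a) := by
  intro x y h
  have h1 := congrArg QuadraticAlgebra.re h
  have h2 := congrArg QuadraticAlgebra.im h
  exact QuadraticAlgebra.ext (Subtype.ext h1) (Subtype.ext h2)

theorem incl_range (hD : 1 + 4 * a ≠ 0) (x : QuadraticAlgebra L (algebraMap K L a) 1) :
    IsIntegral K[X] x ↔ ∃ y, incl L a y = x := by
  have hinj : Function.Injective (algebraMap L (QuadraticAlgebra L (algebraMap K L a) 1)) :=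
    algebraMap_injective
  have hω : IsIntegral K[X] (omega : QuadraticAlgebra L (algebraMap K L a) 1) := by
    refine ⟨X ^ 2 - X - C (C a), by monicity!, ?_⟩
    simp only [eval₂_sub, eval₂_pow, eval₂_X, eval₂_C]
    have : algebraMap K[X] (QuadraticAlgebra L (algebraMap K L a) 1) (C a) =
        algebraMap L _ (algebraMap K L a) := by
      rw [IsScalarTower.algebraMap_apply K[X] L, IsScalarTower.algebraMap_apply K K[X] L]
      rfl
    rw [this]
    ext <;> simp [pow_two]
  have hx : x = algebraMap L _ x.re + algebraMap L _ x.im * omega := by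
    ext <;> simp
  constructor
  · intro hi
    let st : QuadraticAlgebra L (algebraMap K L a) 1 →ₐ[K[X]]
        QuadraticAlgebra L (algebraMap K L a) 1 :=
      { starRingEnd _ with
        commutes' := fun c => by
          rw [IsScalarTower.algebraMap_apply K[X] L]
          change star _ = _
          ext <;> simp }
    have h1 : IsIntegral K[X] (star x) := hi.map st
    have h2 : IsIntegral K[X] (star omega : QuadraticAlgebra L (algebraMap K L a) 1) := hω.map st
    have h3 := (hi.sub h1).mul (hω.sub h2)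
    have h4 : (x - star x) * (omega - star omega) =
        algebraMap L _ (x.im * algebraMap K L (1 + 4 * a)) := by
      ext <;> simp [map_ofNat] <;> ring
    rw [h4, isIntegral_algebraMap_iff hinj] at h3
    have h5 : IsIntegral K[X] x.im := by
      have h6 : IsIntegral K[X] (algebraMap K L (1 + 4 * a)⁻¹) := by
        rw [IsScalarTower.algebraMap_apply K K[X] L]
        exact isIntegral_algebraMap
      have h7 := h3.mul h6
      rwa [mul_assoc, ← map_mul, mul_inv_cancel₀ hD, map_one, mul_one] at h7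
    have h6 : IsIntegral K[X] x.re := by
      have h7 := hi.sub (((isIntegral_algebraMap_iff hinj).mpr h5).mul hω)
      rwa [sub_eq_iff_eq_add.mpr hx, isIntegral_algebraMap_iff hinj] at h7
    exact ⟨⟨⟨x.re, h6⟩, ⟨x.im, h5⟩⟩, rfl⟩
  · rintro ⟨y, rfl⟩
    rw [hx]
    exact ((isIntegral_algebraMap_iff hinj).mpr y.re.2).add
      (((isIntegral_algebraMap_iff hinj).mpr y.im.2).mul hω)

theorem norm_L {δ : integralClosure K[X] L → ℕ} (h : IsDeg K δ)
    (ha : ∀ r : K, r ^ 2 ≠ a + 1 * r) (hD : 1 + 4 * a ≠ 0)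
    {z : integralClosure K[X] L} (hz : z ≠ 0) {A : Ideal (integralClosure K[X] L)}
    (hA : A * A = Ideal.span {z}) :
    ∃ y1 y2 : L, (z : L) = y1 * y1 + y1 * y2 - algebraMap K L a * y2 * y2 := by
  haveI : Fintype K := Fintype.ofFinite K
  haveI : IsDedekindDomain (integralClosure K[X] L) :=
    integralClosure.isDedekindDomain K[X] (RatFunc K) L
  haveI : Finite (ClassGroup (integralClosure K[X] L)) :=
    @Finite.of_fintype _ (ClassGroup.fintypeOfAdmissibleOfFinite (RatFunc K) L
      (Polynomial.cardPowDegreeIsAdmissible :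
        AbsoluteValue.IsAdmissible (Polynomial.cardPowDegree : AbsoluteValue K[X] ℤ)))
  haveI : Fact (∀ r : L, r ^ 2 ≠ algebraMap K L a + 1 * r) := ⟨no_root_L h ha⟩
  have hD' : 1 + 4 * algebraMap K L a ≠ 0 := by
    have := (_root_.map_ne_zero (algebraMap K L)).mpr hD
    simpa [map_ofNat] using this
  haveI := omega_sep hD'
  haveI : Algebra.IsSeparable (RatFunc K) (QuadraticAlgebra L (algebraMap K L a) 1) :=
    Algebra.IsSeparable.trans (RatFunc K) L _
  haveI : FiniteDimensional (RatFunc K) (QuadraticAlgebra L (algebraMap K L a) 1) :=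
    Module.Finite.trans L _
  letI := (incl L a).toAlgebra
  haveI : IsScalarTower K[X] (QuadraticAlgebra (integralClosure K[X] L) (algebraMap K _ a) 1)
      (QuadraticAlgebra L (algebraMap K L a) 1) := IsScalarTower.of_algebraMap_eq fun c => rfl
  haveI : IsIntegralClosure (QuadraticAlgebra (integralClosure K[X] L) (algebraMap K _ a) 1) K[X]
      (QuadraticAlgebra L (algebraMap K L a) 1) := ⟨incl_inj, fun {x} => incl_range hD x⟩
  haveI : IsDomain (QuadraticAlgebra (integralClosure K[X] L) (algebraMap K _ a) 1) :=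
    Function.Injective.isDomain (incl L a) incl_inj
  haveI : IsDedekindDomain (QuadraticAlgebra (integralClosure K[X] L) (algebraMap K _ a) 1) :=
    IsIntegralClosure.isDedekindDomain K[X] (RatFunc K) (QuadraticAlgebra L (algebraMap K L a) 1) _
  haveI : Finite (ClassGroup (QuadraticAlgebra (integralClosure K[X] L) (algebraMap K _ a) 1)) :=
    @Finite.of_fintype _ (ClassGroup.fintypeOfAdmissibleOfFinite (RatFunc K)
      (QuadraticAlgebra L (algebraMap K L a) 1)
      (Polynomial.cardPowDegreeIsAdmissible :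
        AbsoluteValue.IsAdmissible (Polynomial.cardPowDegree : AbsoluteValue K[X] ℤ)))
  obtain ⟨x0, x1, x2, h0, hx⟩ := norm_theorem h ha hD hz hA
  have h1 : (x0 : L) ≠ 0 := fun h1 => h0 (Subtype.ext h1)
  have h2 : (z : L) * (x0 : L) ^ 2 = x1 * x1 + x1 * x2 - algebraMap K L a * x2 * x2 :=
    congrArg Subtype.val hx
  refine ⟨x1 / x0, x2 / x0, ?_⟩
  field_simp
  linear_combination h2

end Ext

/-- The variable of the base is a norm modulo `h`. -/
theorem norm_mod {K : Type} [Field K] [Finite K] {a : K} (ha : ∀ r : K, r ^ 2 ≠ a + 1 * r)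
    (hD : 1 + 4 * a ≠ 0) {m N : ℕ} (hm : 0 < m) (hcop : Nat.Coprime (2 * m) N) {h k : K[X][X]}
    {g : K[X]} (hh : h = X ^ (2 * m) + C X * (1 + C X * C g + X * k)) (hmon : h.Monic)
    (hdeg : h.natDegree = 2 * m) (hN : (h.coeff 0).natDegree = N) (h1 : h.coeff 1 ≠ 0)
    (hmid : ∀ i, 0 < i → i < 2 * m → 2 * m * (h.coeff i).natDegree + N * i < N * (2 * m)) :
    Irreducible (h.map (algebraMap K[X] (RatFunc K))) ∧
    ∃ y1 y2 : (RatFunc K)[X], h.map (algebraMap K[X] (RatFunc K)) ∣
      y1 * y1 + y1 * y2 - C (algebraMap K (RatFunc K) a) * y2 * y2 -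
        C (algebraMap K[X] (RatFunc K) X) := by
  have hc0 : h.coeff 0 = X * (1 + X * g) := by
    rw [hh, coeff_add, coeff_X_pow, if_neg (by omega), coeff_C_mul]
    simp
  have hnd : ¬ (X : K[X]) ∣ 1 + X * g := by
    intro h2
    exact not_isUnit_X (isUnit_of_dvd_one ((dvd_add_left (dvd_mul_right _ _)).mp h2))
  have h0 : h.coeff 0 ≠ 0 := by
    rw [hc0]
    refine mul_ne_zero X_ne_zero fun h2 => hnd ?_
    rw [h2]
    exact dvd_zero _
  have hirr : Irreducible h := by
    refine IsEisensteinAt.irreducible (𝓟 := Ideal.span {X}) ⟨?_, ?_, ?_⟩ ?_ hmon.isPrimitive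
      (by omega)
    · rw [hmon.leadingCoeff, Ideal.mem_span_singleton]
      exact fun h2 => not_isUnit_X (isUnit_of_dvd_one h2)
    · intro n hn
      rw [Ideal.mem_span_singleton, hh, coeff_add, coeff_X_pow, if_neg (by omega), coeff_C_mul,
        zero_add]
      exact dvd_mul_right _ _
    · rw [Ideal.span_singleton_pow, Ideal.mem_span_singleton, hc0, pow_two,
        mul_dvd_mul_iff_left X_ne_zero]
      exact hnd
    · exact (Ideal.span_singleton_prime X_ne_zero).mpr prime_X
  have hinj : Function.Injective (algebraMap K[X] (RatFunc K)) := IsFractionRing.injective _ _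
  set H := h.map (algebraMap K[X] (RatFunc K)) with hH
  have hHirr : Irreducible H := (hmon.irreducible_iff_irreducible_map_fraction_map).mp hirr
  have hHmon : H.Monic := hmon.map _
  have hHdeg : H.natDegree = 2 * m := by rw [hH, natDegree_map_eq_of_injective hinj, hdeg]
  refine ⟨hHirr, ?_⟩
  haveI : Fact (Irreducible H) := ⟨hHirr⟩
  haveI : FiniteDimensional (RatFunc K) (AdjoinRoot H) := hHmon.finite_adjoinRoot
  have hroot : aeval (AdjoinRoot.root H) H = 0 := by
    rw [AdjoinRoot.aeval_eq, AdjoinRoot.mk_self]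
  have hHsep : H.Separable := by
    rw [separable_iff_derivative_ne_zero hHirr]
    intro h2
    have h3 := congrArg (fun p => p.coeff 0) h2
    simp only [coeff_derivative, coeff_zero, zero_add, Nat.cast_zero, mul_one, hH,
      coeff_map] at h3
    exact h1 (hinj (by rw [h3, map_zero]))
  haveI : Algebra.IsSeparable (RatFunc K) (AdjoinRoot H) := by
    have h2 : AdjoinRoot.root H ∈ separableClosure (RatFunc K) (AdjoinRoot H) :=
      mem_separableClosure_iff.mpr (hHsep.of_dvd (minpoly.dvd _ _ hroot))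
    refine ⟨fun x => mem_separableClosure_iff.mp ?_⟩
    have h3 : Algebra.adjoin (RatFunc K) {AdjoinRoot.root H} ≤
        (separableClosure (RatFunc K) (AdjoinRoot H)).toSubalgebra :=
      Algebra.adjoin_le (Set.singleton_subset_iff.mpr h2)
    rw [AdjoinRoot.adjoinRoot_eq_top] at h3
    exact h3 Algebra.mem_top
  have hinj' : Function.Injective (algebraMap K[X] (AdjoinRoot H)) := by
    rw [IsScalarTower.algebraMap_eq K[X] (RatFunc K) (AdjoinRoot H)]
    exact (algebraMap (RatFunc K) (AdjoinRoot H)).injective.comp hinj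
  have hw : aeval (AdjoinRoot.root H) h = 0 := by
    rw [← aeval_map_algebraMap (RatFunc K), hroot]
  have hwi : IsIntegral K[X] (AdjoinRoot.root H) := ⟨h, hmon, hw⟩
  obtain ⟨V, hK, hz⟩ := exists_val (K := K) hinj'
  have hvw := v_root hK hz (by omega : 0 < 2 * m) hmon hdeg h0 hN hmid hw
  obtain ⟨δ, hδ⟩ := exists_isDeg hK hz (by omega : 0 < 2 * m) hcop hvw hwi (by
    intro x
    obtain ⟨P, rfl⟩ := AdjoinRoot.mk_surjective x
    obtain ⟨b, hb, hbP⟩ := IsLocalization.integerNormalization_spec K[X]⁰ (P %ₘ H)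
    refine ⟨b, nonZeroDivisors.ne_zero hb, IsLocalization.integerNormalization K[X]⁰ (P %ₘ H),
      ?_, ?_⟩
    · rw [← natDegree_map_eq_of_injective hinj, hbP]
      refine lt_of_le_of_lt (natDegree_smul_le _ _) ?_
      rw [← hHdeg]
      refine natDegree_modByMonic_lt P hHmon ?_
      intro h2
      rw [h2, natDegree_one] at hHdeg
      omega
    · rw [← aeval_map_algebraMap (RatFunc K), hbP, AdjoinRoot.aeval_eq, AdjoinRoot.smul_mk,
        AdjoinRoot.mk_eq_mk, ← smul_sub, Algebra.smul_def]
      refine Dvd.dvd.mul_left ⟨P /ₘ H, ?_⟩ _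
      linear_combination (modByMonic_add_div P H).symm)
  let z : integralClosure K[X] (AdjoinRoot H) := algebraMap K[X] _ X
  let w : integralClosure K[X] (AdjoinRoot H) := ⟨AdjoinRoot.root H, hwi⟩
  have hz0 : z ≠ 0 := by
    intro h2
    have h3 : algebraMap K[X] (AdjoinRoot H) X = 0 := congrArg Subtype.val h2
    exact X_ne_zero (hinj' (by rw [h3, map_zero]))
  have hrel : w ^ (2 * m) + z * (1 + z * algebraMap K[X] _ g + w * aeval w k) = 0 := by
    have h2 : aeval w h = 0 := by
      apply Subtype.ext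
      exact (aeval_algebraMap_apply (AdjoinRoot H) w h).symm.trans hw
    rw [hh] at h2
    simpa using h2
  obtain ⟨y1, y2, hy⟩ := norm_L hδ ha hD hz0 (ideal_sq hrel)
  obtain ⟨Y1, rfl⟩ := AdjoinRoot.mk_surjective y1
  obtain ⟨Y2, rfl⟩ := AdjoinRoot.mk_surjective y2
  refine ⟨Y1, Y2, AdjoinRoot.mk_eq_zero.mp ?_⟩
  have h2 : AdjoinRoot.mk H (C (algebraMap K[X] (RatFunc K) X)) = (z : AdjoinRoot H) := rfl
  have h3 : AdjoinRoot.mk H (C (algebraMap K (RatFunc K) a)) = algebraMap K (AdjoinRoot H) a := rfl
  simp only [map_sub, map_add, map_mul]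
  rw [h2, h3, hy, sub_self]

end Pool.Agent.H216Z.DioA
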