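import Mathlib

set_option autoImplicit false
set_option linter.unusedSectionVars false
set_option linter.style.haveILetI false

namespace Pool.Agent.H216Z.DioA

open scoped nonZeroDivisors Classical

/-- Binary norm form. -/
def nf {R : Type} [CommRing R] (α x y : R) : R := x * x + x * y - α * y * y

/-- Quaternary norm form. -/
def phi {R : Type} [CommRing R] (α z x1 x2 x3 x4 : R) : R := nf α x1 x2 - z * nf α x3 x4

theorem map_nf {R S : Type} [CommRing R] [CommRing S] (f : R →+* S) (α x y : R) :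
    f (nf α x y) = nf (f α) (f x) (f y) := by
  simp [nf]

theorem map_phi {R S : Type} [CommRing R] [CommRing S] (f : R →+* S) (α z x1 x2 x3 x4 : R) :
    f (phi α z x1 x2 x3 x4) = phi (f α) (f z) (f x1) (f x2) (f x3) (f x4) := by
  simp [phi, map_nf]

theorem phi_congr {R : Type} [CommRing R] {α z x1 x2 x3 x4 y1 y2 y3 y4 : R} (h1 : x1 = y1)
    (h2 : x2 = y2) (h3 : x3 = y3) (h4 : x4 = y4) :
    phi α z x1 x2 x3 x4 = phi α z y1 y2 y3 y4 := by
  rw [h1, h2, h3, h4]

section Descent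

open Polynomial

variable {F : Type} [Field F] {α z : F}

theorem nf_natDegree {x y : F[X]} {n : ℕ} (hx : x.natDegree ≤ n) (hy : y.natDegree ≤ n) :
    (nf (C α) x y).natDegree ≤ n + n := by
  unfold nf
  refine (natDegree_sub_le _ _).trans (max_le ((natDegree_add_le _ _).trans (max_le ?_ ?_)) ?_)
  · exact natDegree_mul_le.trans (add_le_add hx hx)
  · exact natDegree_mul_le.trans (add_le_add hx hy)
  · rw [mul_assoc]
    exact (natDegree_C_mul_le _ _).trans (natDegree_mul_le.trans (add_le_add hy hy))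

theorem phi_natDegree {x1 x2 x3 x4 : F[X]} {n : ℕ} (h1 : x1.natDegree ≤ n) (h2 : x2.natDegree ≤ n)
    (h3 : x3.natDegree ≤ n) (h4 : x4.natDegree ≤ n) :
    (phi (C α) (C z) x1 x2 x3 x4).natDegree ≤ n + n :=
  (natDegree_sub_le _ _).trans (max_le (nf_natDegree h1 h2)
    ((natDegree_C_mul_le _ _).trans (nf_natDegree h3 h4)))

theorem mod_rem (x m : F[X]) (hm : 0 < m.natDegree) :
    ∃ q r : F[X], x = m * q + r ∧ r.natDegree ≤ m.natDegree - 1 := by
  refine ⟨x / m, x % m, (EuclideanDomain.div_add_mod x m).symm, ?_⟩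
  have := natDegree_mod_lt x hm.ne'
  omega

theorem descent
    (han : ∀ x1 x2 x3 x4 : F[X], phi (C α) (C z) x1 x2 x3 x4 = 0 → x1 = 0 ∧ x2 = 0 ∧ x3 = 0 ∧ x4 = 0)
    {H : F[X]} (hH : Irreducible H) (m : F[X]) (hm : m ≠ 0) (hmd : m.natDegree < H.natDegree)
    (x1 x2 x3 x4 : F[X]) (hx : H * m = phi (C α) (C z) x1 x2 x3 x4) :
    ∃ c : F, c ≠ 0 ∧ ∃ y1 y2 y3 y4 : F[X], C c * H = phi (C α) (C z) y1 y2 y3 y4 := by
  induction hn : m.natDegree using Nat.strong_induction_on generalizing m x1 x2 x3 x4 with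
  | _ n ih =>
    by_cases h0 : m.natDegree = 0
    · obtain ⟨c, rfl⟩ := natDegree_eq_zero.mp h0
      refine ⟨c, ?_, x1, x2, x3, x4, by rw [← hx, mul_comm]⟩
      rintro rfl
      exact hm (by simp)
    have hpos : 0 < m.natDegree := Nat.pos_of_ne_zero h0
    obtain ⟨q1, r1, rfl, hr1⟩ := mod_rem x1 m hpos
    obtain ⟨q2, r2, rfl, hr2⟩ := mod_rem x2 m hpos
    obtain ⟨q3, r3, rfl, hr3⟩ := mod_rem x3 m hpos
    obtain ⟨q4, r4, rfl, hr4⟩ := mod_rem x4 m hpos
    have hdeg := phi_natDegree (α := α) (z := z) hr1 hr2 hr3 hr4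
    obtain ⟨m', hm'⟩ : m ∣ phi (C α) (C z) r1 r2 r3 r4 := by
      refine ⟨H - m * phi (C α) (C z) q1 q2 q3 q4 -
        ((2 * q1 * r1 + q1 * r2 + q2 * r1 - 2 * C α * q2 * r2) -
          C z * (2 * q3 * r3 + q3 * r4 + q4 * r3 - 2 * C α * q4 * r4)), ?_⟩
      simp only [phi, nf] at hx ⊢
      linear_combination -hx
    by_cases hm0 : m' = 0
    · exfalso
      rw [hm0, mul_zero] at hm'
      obtain ⟨rfl, rfl, rfl, rfl⟩ := han _ _ _ _ hm'
      have h1 : H = m * phi (C α) (C z) q1 q2 q3 q4 := by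
        apply mul_right_cancel₀ hm
        simp only [phi, nf] at hx ⊢
        linear_combination hx
      rcases hH.isUnit_or_isUnit h1 with h2 | h2
      · exact h0 (natDegree_eq_zero_of_isUnit h2)
      · have h3 := congrArg natDegree h1
        rw [natDegree_mul hm h2.ne_zero, natDegree_eq_zero_of_isUnit h2] at h3
        omega
    have h1 : m'.natDegree < m.natDegree := by
      rw [hm', natDegree_mul hm hm0] at hdeg
      omega
    refine ih m'.natDegree (hn ▸ h1) m' hm0 (by omega)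
      (q1 * (r1 + r2) - C α * q2 * r2 - C z * (q3 * (r3 + r4) - C α * q4 * r4) + m')
      (-q1 * r2 + q2 * r1 - C z * (-q3 * r4 + q4 * r3))
      (-(q1 * r3 + C α * q2 * r4) + q3 * r1 + C α * q4 * r2)
      (-(q1 * r4 + q2 * r3 + q2 * r4) + q3 * r2 + q4 * r1 + q4 * r2) ?_ rfl
    apply mul_left_cancel₀ (mul_ne_zero hm hm)
    have key : ∀ x1 x2 x3 x4 : F[X], phi (C α) (C z) x1 x2 x3 x4 * phi (C α) (C z) r1 r2 r3 r4 =
        phi (C α) (C z)
          (x1 * (r1 + r2) - C α * x2 * r2 - C z * (x3 * (r3 + r4) - C α * x4 * r4))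
          (-x1 * r2 + x2 * r1 - C z * (-x3 * r4 + x4 * r3))
          (-(x1 * r3 + C α * x2 * r4) + x3 * r1 + C α * x4 * r2)
          (-(x1 * r4 + x2 * r3 + x2 * r4) + x3 * r2 + x4 * r1 + x4 * r2) := by
      intro x1 x2 x3 x4
      simp only [phi, nf]
      ring
    have hom : ∀ u1 u2 u3 u4 : F[X], m * m * phi (C α) (C z) u1 u2 u3 u4 =
        phi (C α) (C z) (m * u1) (m * u2) (m * u3) (m * u4) := by
      intro u1 u2 u3 u4
      simp only [phi, nf]
      ring
    have h2 := key (m * q1 + r1) (m * q2 + r2) (m * q3 + r3) (m * q4 + r4)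
    rw [← hx, hm'] at h2
    rw [hom]
    have h3 : m * m * (H * m') = H * m * (m * m') := by ring
    rw [h3, h2]
    refine phi_congr ?_ ?_ ?_ ?_
    · simp only [phi, nf] at hm'
      linear_combination hm'
    · ring
    · ring
    · ring

theorem descent0
    (han : ∀ x1 x2 x3 x4 : F[X], phi (C α) (C z) x1 x2 x3 x4 = 0 → x1 = 0 ∧ x2 = 0 ∧ x3 = 0 ∧ x4 = 0)
    {H : F[X]} (hH : Irreducible H) (y1 y2 : F[X])
    (hy : H ∣ y1 * y1 + y1 * y2 - C α * y2 * y2 - C z) :
    ∃ c : F, c ≠ 0 ∧ ∃ y1 y2 y3 y4 : F[X], C c * H = phi (C α) (C z) y1 y2 y3 y4 := by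
  have hpos : 0 < H.natDegree := hH.natDegree_pos
  obtain ⟨q1, r1, rfl, hr1⟩ := mod_rem y1 H hpos
  obtain ⟨q2, r2, rfl, hr2⟩ := mod_rem y2 H hpos
  obtain ⟨s, hs⟩ := hy
  have h1 : H * (s - H * nf (C α) q1 q2 - (2 * q1 * r1 + q1 * r2 + q2 * r1 - 2 * C α * q2 * r2)) =
      phi (C α) (C z) r1 r2 1 0 := by
    simp only [phi, nf]
    linear_combination -hs
  have h2 : s - H * nf (C α) q1 q2 - (2 * q1 * r1 + q1 * r2 + q2 * r1 - 2 * C α * q2 * r2) ≠ 0 := by
    intro h2
    rw [h2, mul_zero] at h1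
    exact one_ne_zero (han _ _ _ _ h1.symm).2.2.1
  refine descent han hH _ h2 ?_ _ _ _ _ h1
  have h3 := phi_natDegree (α := α) (z := z) (x3 := 1) (x4 := 0) hr1 hr2 (by simp) (by simp)
  rw [← h1, natDegree_mul hH.ne_zero h2] at h3
  omega

end Descent

section Pell

open Polynomial

theorem pell_mem {A : Type} [CommRing A] [IsDomain A] (S : Subring A[X]) {t : A[X]} (ht : t ∈ S)
    (htd : 0 < t.natDegree) (x y : A[X]) (h : x * x - t * x * y + y * y = 1) :
    x ∈ S ∧ y ∈ S := by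
  have hsq : ∀ u : A[X], u * u = 1 → u ∈ S := by
    intro u hu
    rcases mul_self_eq_one_iff.mp hu with rfl | rfl
    · exact S.one_mem
    · exact S.neg_mem S.one_mem
  have ht0 : t ≠ 0 := by
    rintro rfl
    simp at htd
  induction hn : x.natDegree + y.natDegree using Nat.strong_induction_on generalizing x y with
  | _ n ih =>
    wlog hle : y.natDegree ≤ x.natDegree generalizing x y
    · exact (this y x (by linear_combination h) (by omega) (by omega)).symm
    by_cases hy : y = 0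
    · subst hy
      exact ⟨hsq x (by simpa using h), S.zero_mem⟩
    by_cases hx : x = 0
    · subst hx
      exact ⟨S.zero_mem, hsq y (by simpa using h)⟩
    have h1 : (t * y - x) * (t * y - x) - t * (t * y - x) * y + y * y = 1 := by
      linear_combination h
    have h2 : x = t * y - (t * y - x) := by ring
    by_cases hx' : t * y - x = 0
    · rw [hx'] at h1 h2
      have hyS := hsq y (by simpa using h1)
      rw [h2]
      exact ⟨S.sub_mem (S.mul_mem ht hyS) S.zero_mem, hyS⟩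
    have h3 : x * (t * y - x) = y * y - 1 := by linear_combination -h
    have h4 : x.natDegree + (t * y - x).natDegree ≤ y.natDegree + y.natDegree := by
      rw [← natDegree_mul hx hx', h3]
      exact (natDegree_sub_le _ _).trans (max_le natDegree_mul_le (by simp))
    have h5 : (t * y - x).natDegree < x.natDegree := by
      by_contra h5
      have h6 : x.natDegree < (t * y).natDegree := by
        rw [natDegree_mul ht0 hy]
        omega
      have h7 := natDegree_sub_eq_left_of_natDegree_lt h6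
      rw [natDegree_mul ht0 hy] at h7
      omega
    obtain ⟨h6, h7⟩ := ih _ (by omega) (t * y - x) y h1 rfl
    rw [h2]
    exact ⟨S.sub_mem (S.mul_mem ht h7) h6, h7⟩

theorem pell_exists {B : Type} [CommRing B] (t : B) (n : ℕ) :
    ∃ x y : B, x * x - t * x * y + y * y = 1 ∧ 2 * x - t * y = (dickson 1 (1 : B) n).eval t ∧
      t * x - 2 * y = (dickson 1 (1 : B) (n + 1)).eval t := by
  induction n with
  | zero =>
    refine ⟨1, 0, by ring, ?_, by simp⟩
    simp
    norm_num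
  | succ n ih =>
    obtain ⟨x, y, h1, h2, h3⟩ := ih
    refine ⟨t * x - y, x, by linear_combination h1, by linear_combination h3, ?_⟩
    rw [dickson_add_two]
    simp only [eval_sub, eval_mul, eval_X, eval_C, one_mul]
    linear_combination t * h3 - h2

theorem dickson_pow {B : Type} [CommRing B] (p : ℕ) [Fact p.Prime] [CharP B p] (r : ℕ) :
    dickson 1 (1 : B) (p ^ r) = X ^ (p ^ r) := by
  induction r with
  | zero => simp
  | succ r ih =>
    rw [pow_succ, dickson_one_one_mul, ih, dickson_one_one_charP, X_pow_comp, ← pow_mul, mul_comm]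

theorem pell_char {B : Type} [CommRing B] (p : ℕ) [Fact p.Prime] [CharP B p] (t : B) (r : ℕ) :
    ∃ x y : B, x * x - t * x * y + y * y = 1 ∧ 2 * x - t * y = t ^ (p ^ r) := by
  obtain ⟨x, y, h1, h2, -⟩ := pell_exists t (p ^ r)
  refine ⟨x, y, h1, ?_⟩
  rw [h2, dickson_pow, eval_pow, eval_X]

theorem nonzero_cert {K : Type} [Field K] {c : K[X]} (hc : c ≠ 0) :
    ∃ u a b : K[X], c * u = (X * a + 1) * ((X - 1) * b + 1) := by
  obtain ⟨k, c', h1, rfl⟩ := WfDvdMonoid.max_power_factor hc irreducible_X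
  obtain ⟨β, γ, h2⟩ := (irreducible_X.coprime_iff_not_dvd.mpr h1)
  have h3 : IsCoprime (X : K[X]) (X - 1) := ⟨1, -1, by ring⟩
  obtain ⟨ε, η, h4⟩ := h3.pow_left (m := k)
  refine ⟨γ * ε, -β, -η, ?_⟩
  have h5 : X * -β + 1 = γ * c' := by linear_combination -h2
  have h6 : (X - 1) * -η + 1 = ε * X ^ k := by linear_combination -h4
  rw [h5, h6]
  ring

end Pell

section Par

open MvPolynomial
open scoped MonomialOrder

variable {K : Type} [Field K] {a : K}

theorem nf_K (ha : ∀ r : K, r ^ 2 ≠ a + 1 * r) {x y : K} (h : nf a x y = 0) : x = 0 ∧ y = 0 := by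
  by_cases hy : y = 0
  · subst hy
    simpa [nf] using h
  · exfalso
    apply ha (-x / y)
    unfold nf at h
    field_simp
    linear_combination h

theorem nf_deg (ha : ∀ r : K, r ^ 2 ≠ a + 1 * r) (m : MonomialOrder (Fin 2))
    {x y : MvPolynomial (Fin 2) K} (hxy : ¬ (x = 0 ∧ y = 0)) :
    nf (C a) x y ≠ 0 ∧ ∃ μ, m.degree (nf (C a) x y) = μ + μ := by
  obtain ⟨μ, hx, hy, hc⟩ : ∃ μ, m.degree x ≼[m] μ ∧ m.degree y ≼[m] μ ∧
      ¬ (x.coeff μ = 0 ∧ y.coeff μ = 0) := by
    by_cases hx0 : x = 0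
    · refine ⟨m.degree y, by simp [hx0], le_rfl, fun h => hxy ⟨hx0, ?_⟩⟩
      exact m.coeff_degree_eq_zero_iff.mp h.2
    by_cases hy0 : y = 0
    · exact ⟨m.degree x, le_rfl, by simp [hy0], fun h => hx0 (m.coeff_degree_eq_zero_iff.mp h.1)⟩
    rcases le_total (m.toSyn (m.degree x)) (m.toSyn (m.degree y)) with h | h
    · exact ⟨m.degree y, h, le_rfl, fun h => hy0 (m.coeff_degree_eq_zero_iff.mp h.2)⟩
    · exact ⟨m.degree x, le_rfl, h, fun h => hx0 (m.coeff_degree_eq_zero_iff.mp h.1)⟩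
  have h1 : (nf (C a) x y).coeff (μ + μ) = nf a (x.coeff μ) (y.coeff μ) := by
    simp only [nf, coeff_sub, coeff_add, mul_assoc, coeff_C_mul,
      m.coeff_mul_of_add_of_degree_le hx hx, m.coeff_mul_of_add_of_degree_le hx hy,
      m.coeff_mul_of_add_of_degree_le hy hy]
  have h2 : (nf (C a) x y).coeff (μ + μ) ≠ 0 := by
    rw [h1]
    exact fun h => hc (nf_K ha h)
  have hb : ∀ u w : MvPolynomial (Fin 2) K, m.degree u ≼[m] μ → m.degree w ≼[m] μ →
      m.degree (u * w) ≼[m] μ + μ := by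
    intro u w hu hw
    refine m.degree_mul_le.trans ?_
    rw [map_add, map_add]
    exact add_le_add hu hw
  refine ⟨fun h => h2 (by rw [h, coeff_zero]), μ, m.toSyn.injective (le_antisymm ?_ ?_)⟩
  · unfold nf
    refine m.degree_sub_le.trans (sup_le (m.degree_add_le.trans (sup_le (hb _ _ hx hx)
      (hb _ _ hx hy))) (hb _ _ ?_ hy))
    refine m.degree_mul_le.trans ?_
    rw [m.degree_C, zero_add]
    exact hy
  · exact m.le_degree (mem_support_iff.mpr h2)

theorem nf_R (ha : ∀ r : K, r ^ 2 ≠ a + 1 * r) {x y : MvPolynomial (Fin 2) K}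
    (h : nf (C a) x y = 0) : x = 0 ∧ y = 0 := by
  by_contra hxy
  exact (nf_deg ha MonomialOrder.degLex hxy).1 h

theorem phi_deg (ha : ∀ r : K, r ^ 2 ≠ a + 1 * r) (m : MonomialOrder (Fin 2))
    {x1 x2 x3 x4 : MvPolynomial (Fin 2) K} (hx : ¬ (x1 = 0 ∧ x2 = 0 ∧ x3 = 0 ∧ x4 = 0)) :
    phi (C a) (X 1) x1 x2 x3 x4 ≠ 0 ∧ Even (m.degree (phi (C a) (X 1) x1 x2 x3 x4) 0) := by
  have hX : (X 1 : MvPolynomial (Fin 2) K) ≠ 0 := X_ne_zero 1
  by_cases h34 : x3 = 0 ∧ x4 = 0
  · obtain ⟨rfl, rfl⟩ := h34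
    obtain ⟨h1, μ, h2⟩ := nf_deg ha m (x := x1) (y := x2) (fun h => hx ⟨h.1, h.2, rfl, rfl⟩)
    have h3 : phi (C a) (X 1) x1 x2 0 0 = nf (C a) x1 x2 := by simp [phi, nf]
    rw [h3, h2]
    exact ⟨h1, by simp⟩
  obtain ⟨h1, ν, h2⟩ := nf_deg ha m h34
  have h3 : m.degree (X 1 * nf (C a) x3 x4) = Finsupp.single 1 1 + (ν + ν) := by
    rw [m.degree_mul hX h1, m.degree_X, h2]
  by_cases h12 : x1 = 0 ∧ x2 = 0
  · obtain ⟨rfl, rfl⟩ := h12
    have h4 : phi (C a) (X 1) 0 0 x3 x4 = -(X 1 * nf (C a) x3 x4) := by simp [phi, nf]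
    rw [h4, m.degree_neg, h3]
    exact ⟨neg_ne_zero.mpr (mul_ne_zero hX h1), by simp⟩
  obtain ⟨h4, μ, h5⟩ := nf_deg ha m h12
  have h6 : m.degree (nf (C a) x1 x2) ≠ m.degree (X 1 * nf (C a) x3 x4) := by
    rw [h3, h5]
    intro h6
    have h7 := congrArg (fun t : Fin 2 →₀ ℕ => t 1) h6
    simp only [Finsupp.add_apply, Finsupp.single_eq_same] at h7
    omega
  refine ⟨fun h7 => h6 (congrArg _ (sub_eq_zero.mp h7)), ?_⟩
  unfold phi
  rcases lt_or_gt_of_ne (m.toSyn.injective.ne h6) with h7 | h7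
  · rw [← neg_sub, m.degree_neg, m.degree_sub_of_lt h7, h3]
    simp
  · rw [m.degree_sub_of_lt h7, h5]
    simp

theorem degreeOf_aeval (g : Polynomial K) :
    degreeOf 0 (Polynomial.aeval (X 1 : MvPolynomial (Fin 2) K) g) = 0 := by
  induction g using Polynomial.induction_on' with
  | add p q hp hq =>
    rw [map_add]
    have := degreeOf_add_le 0 (Polynomial.aeval (X 1 : MvPolynomial (Fin 2) K) p)
      (Polynomial.aeval (X 1 : MvPolynomial (Fin 2) K) q)
    omega
  | monomial n c =>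
    rw [Polynomial.aeval_monomial]
    have h1 := degreeOf_C_mul_le (X 1 ^ n : MvPolynomial (Fin 2) K) 0 c
    rw [degreeOf_X_pow_of_ne n (by decide)] at h1
    exact Nat.le_zero.mp h1

theorem bound (ha : ∀ r : K, r ^ 2 ≠ a + 1 * r) {g : Polynomial K}
    {u rest x1 x2 x3 x4 : MvPolynomial (Fin 2) K}
    (hg : Polynomial.aeval (X 1 : MvPolynomial (Fin 2) K) g ≠ 0) (hu : u ≠ 0)
    (h : Polynomial.aeval (X 1 : MvPolynomial (Fin 2) K) g * (X 1 * X 0 * (u * u) + rest) =
      phi (C a) (X 1) x1 x2 x3 x4) : u.totalDegree ≤ rest.totalDegree := by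
  let m : MonomialOrder (Fin 2) := MonomialOrder.degLex
  have hT : (X 1 * X 0 * (u * u) : MvPolynomial (Fin 2) K) ≠ 0 :=
    mul_ne_zero (mul_ne_zero (X_ne_zero 1) (X_ne_zero 0)) (mul_ne_zero hu hu)
  refine (totalDegree_le_of_dvd_of_isDomain ((dvd_mul_right u u).mul_left (X 1 * X 0)) hT).trans ?_
  apply degLex_totalDegree_monotone
  by_contra hlt
  have h1 : m.degree rest ≺[m] m.degree (X 1 * X 0 * (u * u)) := not_le.mp hlt
  have h2 := m.degree_add_of_lt h1
  have h3 : X 1 * X 0 * (u * u) + rest ≠ 0 := by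
    intro h3
    have h4 : rest = -(X 1 * X 0 * (u * u)) := by linear_combination h3
    rw [h4, m.degree_neg] at h1
    exact lt_irrefl _ h1
  have h4 : ¬ (x1 = 0 ∧ x2 = 0 ∧ x3 = 0 ∧ x4 = 0) := by
    rintro ⟨rfl, rfl, rfl, rfl⟩
    apply mul_ne_zero hg h3
    rw [h]
    simp [phi, nf]
  have h5 := (phi_deg ha m h4).2
  rw [← h, m.degree_mul hg h3, h2, m.degree_mul (mul_ne_zero (X_ne_zero 1) (X_ne_zero 0))
    (mul_ne_zero hu hu), m.degree_mul (X_ne_zero 1) (X_ne_zero 0), m.degree_mul hu hu,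
    m.degree_X, m.degree_X] at h5
  have h6 := monomial_le_degreeOf 0 (m.degree_mem_support hg)
  rw [degreeOf_aeval] at h6
  simp only [Finsupp.add_apply, Finsupp.single_eq_same, Nat.le_zero.mp h6] at h5
  rw [Finsupp.single_eq_of_ne (by decide)] at h5
  obtain ⟨r, hr⟩ := h5
  omega

end Par

end Pool.Agent.H216Z.DioA
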