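import Pool.Agent.H216Z.DioE
import Pool.Agent.H216Z.DioF

set_option autoImplicit false
set_option linter.unusedSectionVars false
set_option linter.style.haveILetI false

namespace Pool.Agent.H216Z.DioA

open scoped nonZeroDivisors Classical
open Polynomial

variable {K : Type} [Field K]

/-- From iterated polynomials to bivariate polynomials. -/
noncomputable def toR (K : Type) [Field K] : K[X][X] →+* MvPolynomial (Fin 2) K :=
  eval₂RingHom (aeval (MvPolynomial.X 1 : MvPolynomial (Fin 2) K)).toRingHom (MvPolynomial.X 0)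

/-- From bivariate polynomials to iterated polynomials. -/
noncomputable def toB (K : Type) [Field K] : MvPolynomial (Fin 2) K →+* K[X][X] :=
  MvPolynomial.eval₂Hom (C.comp C) ![X, C X]

theorem toR_X : toR K X = MvPolynomial.X 0 := by simp [toR]

theorem toR_C (g : K[X]) : toR K (C g) = aeval (MvPolynomial.X 1 : MvPolynomial (Fin 2) K) g := by
  simp [toR]

theorem toR_CX : toR K (C X) = MvPolynomial.X 1 := by simp [toR_C]

theorem toR_CC (c : K) : toR K (C (C c)) = MvPolynomial.C c := by simp [toR_C]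

theorem toB_X0 : toB K (MvPolynomial.X 0) = X := by simp [toB]

theorem toB_X1 : toB K (MvPolynomial.X 1) = C X := by simp [toB]

theorem toB_C (c : K) : toB K (MvPolynomial.C c) = C (C c) := by simp [toB]

theorem toB_toR (p : K[X][X]) : toB K (toR K p) = p := by
  have : (toB K).comp (toR K) = RingHom.id _ := by
    refine Polynomial.ringHom_ext' (Polynomial.ringHom_ext' ?_ ?_) ?_
    · ext1 c
      simp [toR_CC, toB_C]
    · simp [toR_CX, toB_X1]
    · simp [toR_X, toB_X0]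
  exact RingHom.congr_fun this p

theorem toR_toB (f : MvPolynomial (Fin 2) K) : toR K (toB K f) = f := by
  have : (toR K).comp (toB K) = RingHom.id _ := by
    refine MvPolynomial.ringHom_ext (fun c => ?_) (fun i => ?_)
    · simp [toR_CC, toB_C]
    · fin_cases i
      · simp [toR_X, toB_X0]
      · simp [toR_CX, toB_X1]
  exact RingHom.congr_fun this f

theorem toR_inj : Function.Injective (toR K) := Function.LeftInverse.injective toB_toR

theorem toB_aeval (g : K[X]) :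
    toB K (aeval (MvPolynomial.X 1 : MvPolynomial (Fin 2) K) g) = C g := by
  rw [← toR_C, toB_toR]

theorem aniso_B {a : K} (ha : ∀ r : K, r ^ 2 ≠ a + 1 * r) (x1 x2 x3 x4 : K[X][X])
    (h : phi (C (C a)) (C X) x1 x2 x3 x4 = 0) : x1 = 0 ∧ x2 = 0 ∧ x3 = 0 ∧ x4 = 0 := by
  have h1 := congrArg (toR K) h
  rw [map_phi, toR_CC, toR_CX, map_zero] at h1
  by_contra hx
  refine (phi_deg ha MonomialOrder.degLex ?_).1 h1
  simpa only [map_eq_zero_iff _ toR_inj] using hx

theorem clear_one (p : (RatFunc K)[X]) : ∃ b : K[X], b ≠ 0 ∧ ∃ P : K[X][X],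
    P.map (algebraMap K[X] (RatFunc K)) = C (algebraMap K[X] (RatFunc K) b) * p := by
  obtain ⟨b, hb, hbP⟩ := IsLocalization.integerNormalization_spec K[X]⁰ p
  refine ⟨b, nonZeroDivisors.ne_zero hb, _, hbP.trans ?_⟩
  rw [Algebra.smul_def]
  rfl

theorem clear_four (x1 x2 x3 x4 : (RatFunc K)[X]) : ∃ b : K[X], b ≠ 0 ∧ ∃ P1 P2 P3 P4 : K[X][X],
    P1.map (algebraMap K[X] (RatFunc K)) = C (algebraMap K[X] (RatFunc K) b) * x1 ∧
    P2.map (algebraMap K[X] (RatFunc K)) = C (algebraMap K[X] (RatFunc K) b) * x2 ∧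
    P3.map (algebraMap K[X] (RatFunc K)) = C (algebraMap K[X] (RatFunc K) b) * x3 ∧
    P4.map (algebraMap K[X] (RatFunc K)) = C (algebraMap K[X] (RatFunc K) b) * x4 := by
  obtain ⟨b1, h1, P1, e1⟩ := clear_one x1
  obtain ⟨b2, h2, P2, e2⟩ := clear_one x2
  obtain ⟨b3, h3, P3, e3⟩ := clear_one x3
  obtain ⟨b4, h4, P4, e4⟩ := clear_one x4
  refine ⟨b1 * b2 * b3 * b4, mul_ne_zero (mul_ne_zero (mul_ne_zero h1 h2) h3) h4,
    C (b2 * b3 * b4) * P1, C (b1 * b3 * b4) * P2, C (b1 * b2 * b4) * P3, C (b1 * b2 * b3) * P4,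
    ?_, ?_, ?_, ?_⟩ <;>
  simp only [Polynomial.map_mul, map_C, e1, e2, e3, e4, map_mul] <;> ring

theorem map_phi_F (a : K) (x1 x2 x3 x4 : K[X][X]) :
    (phi (C (C a)) (C X) x1 x2 x3 x4).map (algebraMap K[X] (RatFunc K)) =
      phi (C (algebraMap K (RatFunc K) a)) (C (algebraMap K[X] (RatFunc K) X))
        (x1.map (algebraMap K[X] (RatFunc K))) (x2.map (algebraMap K[X] (RatFunc K)))
        (x3.map (algebraMap K[X] (RatFunc K))) (x4.map (algebraMap K[X] (RatFunc K))) := by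
  have h1 := map_phi (mapRingHom (algebraMap K[X] (RatFunc K))) (C (C a)) (C X) x1 x2 x3 x4
  simp only [coe_mapRingHom, map_C] at h1
  rw [h1, IsScalarTower.algebraMap_apply K K[X] (RatFunc K)]
  rfl

theorem phi_hom {B : Type} [CommRing B] (α z m u1 u2 u3 u4 : B) :
    phi α z (m * u1) (m * u2) (m * u3) (m * u4) = m * m * phi α z u1 u2 u3 u4 := by
  simp only [phi, nf]
  ring

theorem aniso_F {a : K} (ha : ∀ r : K, r ^ 2 ≠ a + 1 * r) (x1 x2 x3 x4 : (RatFunc K)[X])
    (h : phi (C (algebraMap K (RatFunc K) a)) (C (algebraMap K[X] (RatFunc K) X)) x1 x2 x3 x4 = 0) :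
    x1 = 0 ∧ x2 = 0 ∧ x3 = 0 ∧ x4 = 0 := by
  have hinj : Function.Injective (algebraMap K[X] (RatFunc K)) := IsFractionRing.injective _ _
  obtain ⟨b, hb, P1, P2, P3, P4, e1, e2, e3, e4⟩ := clear_four x1 x2 x3 x4
  have h1 := map_phi_F a P1 P2 P3 P4
  rw [e1, e2, e3, e4, phi_hom, h, mul_zero, Polynomial.map_eq_zero_iff hinj] at h1
  obtain ⟨rfl, rfl, rfl, rfl⟩ := aniso_B ha _ _ _ _ h1
  have hb' : C (algebraMap K[X] (RatFunc K) b) ≠ 0 :=
    C_ne_zero.mpr ((map_ne_zero_iff _ hinj).mpr hb)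
  rw [Polynomial.map_zero] at e1 e2 e3 e4
  exact ⟨(mul_eq_zero.mp e1.symm).resolve_left hb', (mul_eq_zero.mp e2.symm).resolve_left hb',
    (mul_eq_zero.mp e3.symm).resolve_left hb', (mul_eq_zero.mp e4.symm).resolve_left hb'⟩

theorem rep_B [Finite K] {a : K} (ha : ∀ r : K, r ^ 2 ≠ a + 1 * r) (hD : 1 + 4 * a ≠ 0)
    (k : K[X][X]) (hk : k.coeff 0 = 1) (m : ℕ) (hm : k.natDegree < m) :
    ∃ g c : K[X], c ≠ 0 ∧ ∃ y1 y2 y3 y4 : K[X][X],
      C c * (X ^ (2 * m) + C X * (1 + C X * C g + X * k)) = phi (C (C a)) (C X) y1 y2 y3 y4 := by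
  have hinj : Function.Injective (algebraMap K[X] (RatFunc K)) := IsFractionRing.injective _ _
  obtain ⟨D, hDk⟩ : ∃ D : ℕ, ∀ i, (k.coeff i).natDegree ≤ D := by
    refine ⟨k.support.sup fun i => (k.coeff i).natDegree, fun i => ?_⟩
    by_cases hi : i ∈ k.support
    · exact Finset.le_sup (f := fun i => (k.coeff i).natDegree) hi
    · rw [notMem_support_iff.mp hi]
      simp
  obtain ⟨e, he⟩ : ∃ e, 2 * m * (D + 1) + 1 = e + 2 := ⟨2 * m * (D + 1) - 1, by
    have : 0 < 2 * m * (D + 1) := Nat.mul_pos (by omega) (by omega)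
    omega⟩
  refine ⟨X ^ e, ?_⟩
  set h : K[X][X] := X ^ (2 * m) + C X * (1 + C X * C (X ^ e) + X * k) with hh
  have hlow : (C X * (1 + C X * C (X ^ e) + X * k) : K[X][X]).natDegree < 2 * m := by
    refine lt_of_le_of_lt (natDegree_C_mul_le _ _) (lt_of_le_of_lt (natDegree_add_le _ _)
      (max_lt ?_ (lt_of_le_of_lt natDegree_mul_le ?_)))
    · rw [← C_mul, ← C_1, ← C_add, natDegree_C]
      omega
    · rw [natDegree_X]
      omega
  have hmon : h.Monic := (monic_X_pow _).add_of_left (by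
    rw [degree_X_pow]
    exact lt_of_le_of_lt degree_le_natDegree (by exact_mod_cast hlow))
  have hdeg : h.natDegree = 2 * m := by
    rw [hh, natDegree_add_eq_left_of_natDegree_lt (by rwa [natDegree_X_pow]), natDegree_X_pow]
  have hc0 : h.coeff 0 = X ^ (e + 2) + X := by
    rw [hh, coeff_add, coeff_X_pow, if_neg (by omega), coeff_C_mul]
    simp only [coeff_add, coeff_one_zero, coeff_C_mul, coeff_C_zero, mul_coeff_zero, coeff_X_zero]
    ring
  have hci : ∀ i, i + 1 < 2 * m → h.coeff (i + 1) = X * k.coeff i := by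
    intro i hi
    rw [hh, coeff_add, coeff_X_pow, if_neg (by omega), coeff_C_mul]
    simp only [coeff_add, coeff_C_mul, coeff_X_mul, coeff_C_succ, coeff_one]
    simp
  obtain ⟨hirr, y1, y2, hy⟩ := norm_mod ha hD (m := m) (N := 2 * m * (D + 1) + 1) (by omega)
    (by simp) hh hmon hdeg (by
      rw [hc0, natDegree_add_eq_left_of_natDegree_lt (by simp), natDegree_X_pow, he])
    (by
      rw [hci 0 (by omega), hk]
      simp)
    (by
      intro i hi0 hi
      obtain ⟨j, rfl⟩ : ∃ j, i = j + 1 := ⟨i - 1, by omega⟩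
      have h1 : (h.coeff (j + 1)).natDegree ≤ D + 1 := by
        rw [hci j hi]
        refine natDegree_mul_le.trans ?_
        have := hDk j
        rw [natDegree_X]
        omega
      have h2 : 2 * m * (h.coeff (j + 1)).natDegree ≤ 2 * m * (D + 1) := Nat.mul_le_mul_left _ h1
      have h3 : (2 * m * (D + 1) + 1) * (j + 1 + 1) ≤ (2 * m * (D + 1) + 1) * (2 * m) :=
        Nat.mul_le_mul_left _ hi
      rw [mul_add _ (j + 1) 1] at h3
      omega)
  obtain ⟨c, hc, x1, x2, x3, x4, hx⟩ := descent0 (aniso_F ha) hirr y1 y2 hy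
  obtain ⟨b, hb, P1, P2, P3, P4, e1, e2, e3, e4⟩ := clear_four x1 x2 x3 x4
  obtain ⟨c1, c2, hc2, rfl⟩ := IsFractionRing.div_surjective (A := K[X]) c
  have hc2' : algebraMap K[X] (RatFunc K) c2 ≠ 0 :=
    (map_ne_zero_iff _ hinj).mpr (nonZeroDivisors.ne_zero hc2)
  have hc1 : c1 ≠ 0 := by
    rintro rfl
    simp at hc
  refine ⟨b * b * c1 * c2, mul_ne_zero (mul_ne_zero (mul_ne_zero hb hb) hc1)
    (nonZeroDivisors.ne_zero hc2), C c2 * P1, C c2 * P2, C c2 * P3, C c2 * P4, ?_⟩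
  apply Polynomial.map_injective _ hinj
  rw [phi_hom, Polynomial.map_mul, Polynomial.map_mul, map_phi_F, e1, e2, e3, e4, phi_hom, ← hx]
  simp only [Polynomial.map_mul, map_C, ← mul_assoc, ← C_mul]
  congr 2
  simp only [map_mul]
  field_simp

/-- The Diophantine relation. -/
def Rel {R : Type} [CommRing R] (α W Z f G1 G2 G3 x y j u s t y1 y2 y3 y4 : R) : Prop :=
  x * x - (W + Z) * x * y + y * y - 1 = 0 ∧ 2 * x - (W + Z) * y - G1 - W * j = 0 ∧
  G3 * u - (Z * s + 1) * ((Z - 1) * t + 1) = 0 ∧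
  G3 * (W * j * (W * j) + Z * (1 + Z * G2 + W * ((1 + W * f) * (1 + W * f)))) -
    phi α Z y1 y2 y3 y4 = 0

theorem Rel.map {R S : Type} [CommRing R] [CommRing S] (φ : R →+* S)
    {α W Z f G1 G2 G3 x y j u s t y1 y2 y3 y4 : R}
    (h : Rel α W Z f G1 G2 G3 x y j u s t y1 y2 y3 y4) :
    Rel (φ α) (φ W) (φ Z) (φ f) (φ G1) (φ G2) (φ G3) (φ x) (φ y) (φ j) (φ u) (φ s) (φ t)
      (φ y1) (φ y2) (φ y3) (φ y4) := by
  obtain ⟨h1, h2, h3, h4⟩ := h
  refine ⟨?_, ?_, ?_, ?_⟩
  · simpa using congrArg φ h1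
  · simpa [map_ofNat] using congrArg φ h2
  · simpa using congrArg φ h3
  · simpa [map_phi] using congrArg φ h4

theorem exists_rel_B [Finite K] {a : K} (ha : ∀ r : K, r ^ 2 ≠ a + 1 * r) (hD : 1 + 4 * a ≠ 0)
    (f : K[X][X]) : ∃ g1 g2 g3 : K[X], ∃ x y j u s t y1 y2 y3 y4 : K[X][X],
      Rel (C (C a)) X (C X) f (C g1) (C g2) (C g3) x y j u s t y1 y2 y3 y4 := by
  obtain ⟨p, hp⟩ := CharP.exists K
  haveI : Fact p.Prime := ⟨CharP.char_is_prime K p⟩
  let k : K[X][X] := (1 + X * f) * (1 + X * f)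
  have hk : k.coeff 0 = 1 := by simp [k]
  have hm : k.natDegree < p ^ k.natDegree := Nat.lt_pow_self (Fact.out : p.Prime).one_lt
  obtain ⟨g, c, hc, y1, y2, y3, y4, hy⟩ := rep_B ha hD k hk _ hm
  obtain ⟨x, y, h1, h2⟩ := pell_char p (X + C X : K[X][X]) k.natDegree
  obtain ⟨u, s, t, h3⟩ := nonzero_cert hc
  obtain ⟨e, he⟩ : ∃ e, p ^ k.natDegree = e + 1 := ⟨p ^ k.natDegree - 1, by omega⟩
  rw [add_pow_char_pow, he] at h2
  rw [he] at hy
  refine ⟨X ^ (e + 1), g, c, x, y, X ^ e, C u, C s, C t, y1, y2, y3, y4, ?_, ?_, ?_, ?_⟩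
  · linear_combination h1
  · rw [C_pow]
    linear_combination h2
  · have h4 := congrArg (C : K[X] → K[X][X]) h3
    simp only [map_mul, map_add, map_sub, map_one] at h4
    linear_combination h4
  · rw [← hy]
    ring

theorem link_B {x y j : K[X][X]} {g1 : K[X]} (h1 : x * x - (X + C X) * x * y + y * y - 1 = 0)
    (h2 : 2 * x - (X + C X) * y - C g1 - X * j = 0) :
    X * j = aeval (X + C X : K[X][X]) g1 - C g1 := by
  let S : Subring K[X][X] := (aeval (R := K) (X + C X : K[X][X])).range.toSubring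
  have ht : (X + C X : K[X][X]) ∈ S := ⟨X, by simp⟩
  obtain ⟨hx, hy⟩ := pell_mem S ht (by simp) x y (by linear_combination h1)
  have h3 : 2 * x - (X + C X) * y ∈ S :=
    S.sub_mem (S.mul_mem (natCast_mem S 2) hx) (S.mul_mem ht hy)
  obtain ⟨q, hq⟩ := h3
  have h4 : aeval (X + C X : K[X][X]) q = C g1 + X * j := by
    have : aeval (X + C X : K[X][X]) q = 2 * x - (X + C X) * y := hq
    linear_combination this + h2
  have h5 : ∀ r : K[X], eval 0 (aeval (X + C X : K[X][X]) r) = r := by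
    intro r
    induction r using Polynomial.induction_on' with
    | add p q hp hq => rw [map_add, eval_add, hp, hq]
    | monomial n c =>
      rw [aeval_monomial, eval_mul, eval_pow, ← C_mul_X_pow_eq_monomial]
      simp
  have h6 := h5 q
  rw [h4] at h6
  simp only [eval_add, eval_C, eval_mul, eval_X, zero_mul, add_zero] at h6
  rw [h6] at h4 ⊢
  linear_combination -h4

theorem finite_rel [Finite K] {a : K} (ha : ∀ r : K, r ^ 2 ≠ a + 1 * r) (g1 g2 g3 : K[X]) :
    {f : MvPolynomial (Fin 2) K | ∃ x y j u s t y1 y2 y3 y4 : MvPolynomial (Fin 2) K,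
      Rel (MvPolynomial.C a) (MvPolynomial.X 0) (MvPolynomial.X 1) f
        (aeval (MvPolynomial.X 1 : MvPolynomial (Fin 2) K) g1)
        (aeval (MvPolynomial.X 1 : MvPolynomial (Fin 2) K) g2)
        (aeval (MvPolynomial.X 1 : MvPolynomial (Fin 2) K) g3) x y j u s t y1 y2 y3 y4}.Finite := by
  let σ : MvPolynomial (Fin 2) K := toR K (aeval (X + C X : K[X][X]) g1 - C g1)
  let rest : MvPolynomial (Fin 2) K := σ * σ + MvPolynomial.X 1 *
    (1 + MvPolynomial.X 1 * aeval (MvPolynomial.X 1 : MvPolynomial (Fin 2) K) g2)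
  haveI : Finite (MvPolynomial.restrictTotalDegree (Fin 2) K rest.totalDegree) :=
    Module.finite_of_finite K
  have hfin : (MvPolynomial.restrictTotalDegree (Fin 2) K rest.totalDegree :
    Set (MvPolynomial (Fin 2) K)).Finite := Set.toFinite _
  have hinj : Function.Injective
      (fun f : MvPolynomial (Fin 2) K => 1 + MvPolynomial.X 0 * f) := by
    intro f f' h
    exact mul_left_cancel₀ (MvPolynomial.X_ne_zero 0) (add_left_cancel h)
  refine (hfin.preimage hinj.injOn).subset ?_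
  rintro f ⟨x, y, j, u, s, t, y1, y2, y3, y4, hR⟩
  have hB := hR.map (toB K)
  rw [toB_X0, toB_X1, toB_aeval] at hB
  have h1 := congrArg (toR K) (link_B hB.1 hB.2.1)
  rw [map_mul, toR_X, toR_toB] at h1
  obtain ⟨-, -, h3, h4⟩ := hR
  have hg : aeval (MvPolynomial.X 1 : MvPolynomial (Fin 2) K) g3 ≠ 0 := by
    intro h5
    rw [h5, zero_mul, zero_sub, neg_eq_zero] at h3
    rcases mul_eq_zero.mp h3 with h6 | h6
    · simpa using congrArg (MvPolynomial.eval fun _ => (0 : K)) h6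
    · simpa using congrArg (MvPolynomial.eval fun _ => (1 : K)) h6
  have hu : (1 + MvPolynomial.X 0 * f : MvPolynomial (Fin 2) K) ≠ 0 := by
    intro h6
    simpa using congrArg (MvPolynomial.eval fun _ => (0 : K)) h6
  rw [Set.mem_preimage, SetLike.mem_coe, MvPolynomial.mem_restrictTotalDegree]
  refine bound ha hg hu (x1 := y1) (x2 := y2) (x3 := y3) (x4 := y4) ?_
  rw [h1] at h4
  simp only [rest, σ]
  linear_combination h4

theorem exists_rel [Finite K] {a : K} (ha : ∀ r : K, r ^ 2 ≠ a + 1 * r) (hD : 1 + 4 * a ≠ 0)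
    (f : MvPolynomial (Fin 2) K) : ∃ g1 g2 g3 : K[X],
      ∃ x y j u s t y1 y2 y3 y4 : MvPolynomial (Fin 2) K,
      Rel (MvPolynomial.C a) (MvPolynomial.X 0) (MvPolynomial.X 1) f
        (aeval (MvPolynomial.X 1 : MvPolynomial (Fin 2) K) g1)
        (aeval (MvPolynomial.X 1 : MvPolynomial (Fin 2) K) g2)
        (aeval (MvPolynomial.X 1 : MvPolynomial (Fin 2) K) g3) x y j u s t y1 y2 y3 y4 := by
  obtain ⟨g1, g2, g3, x, y, j, u, s, t, y1, y2, y3, y4, h⟩ := exists_rel_B ha hD (toB K f)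
  have h1 := h.map (toR K)
  rw [toR_CC, toR_X, toR_CX, toR_toB, toR_C, toR_C, toR_C] at h1
  exact ⟨g1, g2, g3, _, _, _, _, _, _, _, _, _, _, h1⟩

/-- One equation for the relation. -/
def eqn {R : Type} [CommRing R] (α W Z f G1 G2 G3 x y j u s t y1 y2 y3 y4 : R) : R :=
  nf α (nf α (x * x - (W + Z) * x * y + y * y - 1) (2 * x - (W + Z) * y - G1 - W * j))
    (nf α (G3 * u - (Z * s + 1) * ((Z - 1) * t + 1))
      (G3 * (W * j * (W * j) + Z * (1 + Z * G2 + W * ((1 + W * f) * (1 + W * f)))) -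
        phi α Z y1 y2 y3 y4))

theorem map_eqn {R S : Type} [CommRing R] [CommRing S] (φ : R →+* S)
    (α W Z f G1 G2 G3 x y j u s t y1 y2 y3 y4 : R) :
    φ (eqn α W Z f G1 G2 G3 x y j u s t y1 y2 y3 y4) =
    eqn (φ α) (φ W) (φ Z) (φ f) (φ G1) (φ G2) (φ G3) (φ x) (φ y) (φ j) (φ u) (φ s) (φ t)
      (φ y1) (φ y2) (φ y3) (φ y4) := by
  simp [eqn, map_nf, map_phi, map_ofNat]

theorem eqn_iff {a : K} (ha : ∀ r : K, r ^ 2 ≠ a + 1 * r)
    (W Z f G1 G2 G3 x y j u s t y1 y2 y3 y4 : MvPolynomial (Fin 2) K) :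
    eqn (MvPolynomial.C a) W Z f G1 G2 G3 x y j u s t y1 y2 y3 y4 = 0 ↔
      Rel (MvPolynomial.C a) W Z f G1 G2 G3 x y j u s t y1 y2 y3 y4 := by
  constructor
  · intro h
    obtain ⟨h1, h2⟩ := nf_R ha h
    exact ⟨(nf_R ha h1).1, (nf_R ha h1).2, (nf_R ha h2).1, (nf_R ha h2).2⟩
  · rintro ⟨h1, h2, h3, h4⟩
    rw [eqn, h1, h2, h3, h4]
    simp [nf]

end Pool.Agent.H216Z.DioA
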