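import Pool.Agent.H520Z.EqProof

set_option autoImplicit false
set_option linter.unusedSectionVars false

/-!
From an equistable graph that is not weakly CIS we build a graph that is equistable together with
its complement and is not a general partition graph: replace every vertex by five twins, and for
every non-edge `e` add a vertex adjacent to everything except the two ends of `e`.
-/

namespace Pool.Agent.H216Z.EqCap

open Finset Pool.Agent.H520Z.Equi

theorem generic {D ι : Type} [Fintype D] [Fintype ι] (c : ι → D → ℝ) (b : ι → ℝ) {δ : ℝ}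
    (hδ : 0 < δ) : ∃ ε : D → ℝ, (∀ d, 0 < ε d ∧ ε d < δ) ∧
      ∀ i, ∑ d, c i d * ε d = b i → ∀ d, c i d = 0 := by
  classical
  let k : D → ℕ := fun d => (Fintype.equivFin D d : ℕ) + 1
  have hk : Function.Injective k := by
    intro d e h
    apply (Fintype.equivFin D).injective
    apply Fin.ext
    simpa [k] using h
  let p : ι → Polynomial ℝ := fun i =>
    ∑ d, Polynomial.monomial (k d) (c i d) - Polynomial.C (b i)
  have hcoef : ∀ i d, (p i).coeff (k d) = c i d := by
    intro i d
    simp only [p, Polynomial.coeff_sub, Polynomial.finset_sum_coeff, Polynomial.coeff_monomial]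
    rw [Polynomial.coeff_C, if_neg (by simp [k]), sub_zero, Finset.sum_eq_single d]
    · simp
    · intro e _ hed
      rw [if_neg (fun h => hed (hk h))]
    · simp
  let B : Finset ℝ := Finset.univ.biUnion fun i => (p i).roots.toFinset
  obtain ⟨t, ht, htB⟩ : ∃ t ∈ Set.Ioo (0 : ℝ) (min δ 1), t ∉ B := by
    have hinf : (Set.Ioo (0 : ℝ) (min δ 1)).Infinite := Set.Ioo_infinite (lt_min hδ one_pos)
    exact hinf.exists_notMem_finset B
  have ht0 : 0 < t := ht.1
  have ht1 : t < δ := lt_of_lt_of_le ht.2 (min_le_left _ _)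
  have ht2 : t < 1 := lt_of_lt_of_le ht.2 (min_le_right _ _)
  refine ⟨fun d => t ^ k d, fun d => ⟨by positivity, ?_⟩, ?_⟩
  · refine lt_of_le_of_lt ?_ ht1
    exact pow_le_of_le_one ht0.le ht2.le (by simp [k])
  · intro i hi d
    by_contra hne
    have hp : p i ≠ 0 := by
      intro h
      have := hcoef i d
      rw [h] at this
      exact hne (by simpa using this.symm)
    apply htB
    simp only [B, Finset.mem_biUnion, Finset.mem_univ, true_and, Multiset.mem_toFinset]
    refine ⟨i, (Polynomial.mem_roots hp).2 ?_⟩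
    simp only [p, Polynomial.IsRoot, Polynomial.eval_sub, Polynomial.eval_finset_sum,
      Polynomial.eval_monomial, Polynomial.eval_C]
    rw [hi, sub_self]

theorem ms_iff {V : Type} (H : SimpleGraph V) (S : Finset V) :
    Maximal (fun s : Finset V => H.IsIndepSet (s : Set V)) S ↔
      (∀ u ∈ S, ∀ v ∈ S, ¬ H.Adj u v) ∧ ∀ v, v ∉ S → ∃ u ∈ S, H.Adj v u := by
  classical
  have hind : ∀ T : Finset V, H.IsIndepSet (T : Set V) ↔ ∀ u ∈ T, ∀ v ∈ T, ¬ H.Adj u v := by
    intro T
    constructor
    · intro h u hu v hv huv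
      exact h (Finset.mem_coe.2 hu) (Finset.mem_coe.2 hv) huv.ne huv
    · intro h u hu v hv _
      exact h u hu v hv
  constructor
  · intro h
    refine ⟨(hind S).1 h.prop, ?_⟩
    intro v hv
    by_contra hcon
    push Not at hcon
    have h1 : H.IsIndepSet ((insert v S : Finset V) : Set V) := by
      rw [hind]
      intro a ha b hb
      rcases Finset.mem_insert.1 ha with rfl | ha' <;>
        rcases Finset.mem_insert.1 hb with rfl | hb'
      · exact H.irrefl
      · exact hcon b hb'
      · exact fun h2 => hcon a ha' h2.symm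
      · exact (hind S).1 h.prop a ha' b hb'
    exact hv (h.2 h1 (Finset.subset_insert v S) (Finset.mem_insert_self v S))
  · rintro ⟨h1, h2⟩
    refine ⟨(hind S).2 h1, ?_⟩
    intro T hT hST v hv
    by_contra hvS
    obtain ⟨u, hu, huv⟩ := h2 v hvS
    exact (hind T).1 hT v hv u (hST hu) huv

section construction

variable {A : Type} [Fintype A] [DecidableEq A] (G : SimpleGraph A) [DecidableRel G.Adj]

/-- five twins of each vertex -/
abbrev WW (A : Type) : Type := A × ZMod 5

/-- non-edges of the blown up graph -/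
abbrev EE : Type := {p : WW A × WW A // p.1 ≠ p.2 ∧ ¬ G.Adj p.1.1 p.2.1}

/-- the adjacency relation of the new graph -/
def adj' : WW A ⊕ EE G → WW A ⊕ EE G → Prop
  | Sum.inl x, Sum.inl y => G.Adj x.1 y.1
  | Sum.inl x, Sum.inr e => x ≠ e.1.1 ∧ x ≠ e.1.2
  | Sum.inr e, Sum.inl x => x ≠ e.1.1 ∧ x ≠ e.1.2
  | Sum.inr e, Sum.inr f => e ≠ f

/-- the new graph -/
def GG : SimpleGraph (WW A ⊕ EE G) where
  Adj := adj' G
  symm := ⟨by
    rintro (x | e) (y | f) h
    · exact G.symm.symm _ _ h
    · exact h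
    · exact h
    · exact Ne.symm h⟩
  loopless := ⟨by
    rintro (x | e) h
    · exact G.irrefl h
    · exact h rfl⟩

@[simp] theorem GG_ll (x y : WW A) : (GG G).Adj (Sum.inl x) (Sum.inl y) ↔ G.Adj x.1 y.1 := Iff.rfl
@[simp] theorem GG_lr (x : WW A) (e : EE G) :
    (GG G).Adj (Sum.inl x) (Sum.inr e) ↔ x ≠ e.1.1 ∧ x ≠ e.1.2 := Iff.rfl
@[simp] theorem GG_rl (x : WW A) (e : EE G) :
    (GG G).Adj (Sum.inr e) (Sum.inl x) ↔ x ≠ e.1.1 ∧ x ≠ e.1.2 := Iff.rfl
@[simp] theorem GG_rr (e f : EE G) : (GG G).Adj (Sum.inr e) (Sum.inr f) ↔ e ≠ f := Iff.rfl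

/-- the non-edge formed by a vertex and its next twin -/
def twin (x : WW A) : EE G := ⟨(x, (x.1, x.2 + 1)), by
  constructor
  · intro h
    have h2 := congrArg Prod.snd h
    simp only at h2
    have h3 : (1 : ZMod 5) = 0 := by
      have := add_left_cancel (a := x.2) (b := (0 : ZMod 5)) (c := 1) (by rw [add_zero]; exact h2)
      exact this.symm
    exact absurd h3 (by decide)
  · exact G.irrefl⟩

theorem sum_ind {V : Type} [Fintype V] [DecidableEq V] (T : Finset V) (φ : V → ℝ) :
    ∑ v ∈ T, φ v = ∑ v, (if v ∈ T then 1 else 0) * φ v := by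
  simp [ite_mul, Finset.sum_ite_mem]

theorem compl_equistable [Nonempty A] : ∃ φ : WW A ⊕ EE G → ℝ, (∀ v, 0 < φ v) ∧
    ∀ S : Finset (WW A ⊕ EE G),
      (Maximal (fun s : Finset (WW A ⊕ EE G) => (GG G)ᶜ.IsIndepSet (s : Set _)) S ↔
        ∑ v ∈ S, φ v = 1) := by
  classical
  let χ : Finset (WW A ⊕ EE G) → WW A ⊕ EE G → ℝ := fun T v => if v ∈ T then 1 else 0
  let n : Finset (WW A ⊕ EE G) → EE G → ℝ := fun T e =>
    χ T (Sum.inl e.1.1) + χ T (Sum.inl e.1.2) + χ T (Sum.inr e)
  obtain ⟨y, hy, hgen⟩ := generic (fun T e => n T e - 1) (fun _ => 0) one_pos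
  haveI : Nonempty (EE G) := ⟨twin G (Classical.arbitrary A, 0)⟩
  have hY : 0 < ∑ e, y e := Finset.sum_pos (fun e _ => (hy e).1) Finset.univ_nonempty
  let φ : WW A ⊕ EE G → ℝ := Sum.elim
    (fun x => ∑ e : EE G, ((if x = e.1.1 then 1 else 0) + (if x = e.1.2 then 1 else 0)) *
      (y e / ∑ e, y e)) (fun e => y e / ∑ e, y e)
  have hsum : ∀ T : Finset (WW A ⊕ EE G), ∑ v ∈ T, φ v = (∑ e, n T e * y e) / ∑ e, y e := by
    intro T
    rw [sum_ind, Fintype.sum_sum_type]
    simp only [φ, Sum.elim_inl, Sum.elim_inr, Finset.mul_sum]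
    rw [Finset.sum_comm, ← Finset.sum_add_distrib, Finset.sum_div]
    refine Finset.sum_congr rfl fun e _ => ?_
    simp only [add_mul, mul_add, Finset.sum_add_distrib, ite_mul, one_mul, zero_mul, mul_ite,
      mul_zero, Finset.sum_ite_eq', Finset.mem_univ, if_true, n, χ]
    split_ifs <;> simp [add_div]
  refine ⟨φ, ?_, ?_⟩
  · rintro (x | e)
    · simp only [φ, Sum.elim_inl]
      apply Finset.sum_pos'
      · intro e _
        have := (hy e).1
        positivity
      · refine ⟨twin G x, Finset.mem_univ _, ?_⟩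
        have := (hy (twin G x)).1
        have h1 : x = (twin G x).1.1 := rfl
        rw [if_pos h1]
        positivity
    · simp only [φ, Sum.elim_inr]
      exact div_pos (hy e).1 hY
  · intro T
    have h1 : ∑ v ∈ T, φ v = 1 ↔ ∀ e, n T e = 1 := by
      rw [hsum, div_eq_one_iff_eq hY.ne']
      constructor
      · intro h e
        have := hgen T (by
          simp only [sub_mul, one_mul, Finset.sum_sub_distrib]
          linarith) e
        linarith
      · intro h
        simp [h]
    rw [h1, ms_iff]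
    constructor
    · rintro ⟨h2, h3⟩ e
      have a1 : ¬ (Sum.inl e.1.1 ∈ T ∧ Sum.inl e.1.2 ∈ T) := fun h =>
        h2 _ h.1 _ h.2 (by
          rw [SimpleGraph.compl_adj]
          exact ⟨fun h' => e.2.1 (Sum.inl.inj h'), e.2.2⟩)
      have a2 : ¬ (Sum.inl e.1.1 ∈ T ∧ Sum.inr e ∈ T) := fun h =>
        h2 _ h.1 _ h.2 (by rw [SimpleGraph.compl_adj]; simp)
      have a3 : ¬ (Sum.inl e.1.2 ∈ T ∧ Sum.inr e ∈ T) := fun h =>
        h2 _ h.1 _ h.2 (by rw [SimpleGraph.compl_adj]; simp)
      have a4 : Sum.inl e.1.1 ∈ T ∨ Sum.inl e.1.2 ∈ T ∨ Sum.inr e ∈ T := by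
        by_contra hcon
        push Not at hcon
        obtain ⟨u, hu, huv⟩ := h3 _ hcon.2.2
        rw [SimpleGraph.compl_adj] at huv
        rcases u with x | f
        · have h4 := huv.2
          simp only [GG_rl, not_and_or, not_not] at h4
          rcases h4 with rfl | rfl
          · exact hcon.1 hu
          · exact hcon.2.1 hu
        · exact huv.2 (fun h => huv.1 (congrArg Sum.inr h))
      simp only [n, χ]
      split_ifs <;> first | (exfalso; tauto) | norm_num
    · intro h
      constructor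
      · rintro (x | e) hu (z | f) hv huv <;> rw [SimpleGraph.compl_adj] at huv
        · have := h ⟨(x, z), fun h' => huv.1 (congrArg Sum.inl h'), huv.2⟩
          simp only [n, χ, if_pos hu, if_pos hv] at this
          split_ifs at this <;> norm_num at this
        · have h4 := huv.2
          have := h f
          simp only [GG_lr, not_and_or, not_not] at h4
          rcases h4 with rfl | rfl <;>
          · simp only [n, χ, if_pos hu, if_pos hv] at this
            split_ifs at this <;> norm_num at this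
        · have h4 := huv.2
          have := h e
          simp only [GG_rl, not_and_or, not_not] at h4
          rcases h4 with rfl | rfl <;>
          · simp only [n, χ, if_pos hu, if_pos hv] at this
            split_ifs at this <;> norm_num at this
        · exact huv.2 (fun h => huv.1 (congrArg Sum.inr h))
      · rintro (x | e) hv
        · have := h (twin G x)
          have h5 : (twin G x).1.1 = x := rfl
          simp only [n, χ, h5, if_neg hv] at this
          by_cases h6 : Sum.inl (twin G x).1.2 ∈ T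
          · refine ⟨_, h6, ?_⟩
            rw [SimpleGraph.compl_adj]
            exact ⟨fun h' => (twin G x).2.1 (Sum.inl.inj h'), (twin G x).2.2⟩
          · by_cases h7 : Sum.inr (twin G x) ∈ T
            · refine ⟨_, h7, ?_⟩
              rw [SimpleGraph.compl_adj]
              simp [h5]
            · rw [if_neg h6, if_neg h7] at this
              norm_num at this
        · have := h e
          simp only [n, χ, if_neg hv] at this
          by_cases h6 : Sum.inl e.1.1 ∈ T
          · exact ⟨_, h6, by rw [SimpleGraph.compl_adj]; simp⟩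
          · by_cases h7 : Sum.inl e.1.2 ∈ T
            · exact ⟨_, h7, by rw [SimpleGraph.compl_adj]; simp⟩
            · rw [if_neg h6, if_neg h7] at this
              norm_num at this

theorem split (φ₀ : A → ℝ) (h0 : ∀ v, 0 < φ₀ v) (h1 : ∀ v, φ₀ v ≤ 1) :
    ∃ φ : WW A → ℝ, (∀ x, 0 < φ x ∧ φ x < 1 / 4) ∧ (∀ v, ∑ i, φ (v, i) = φ₀ v) ∧
      ∀ (T S : Finset (WW A)) (r : Bool),
        ∑ x, ((if x ∈ T then 1 else 0) - (if x ∈ S then 1 else 0)) * φ x = (if r then 1 else 0) →
        ∀ v i, ((if (v, i) ∈ T then 1 else 0) - (if (v, i) ∈ S then 1 else 0) : ℝ) =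
          (if (v, 0) ∈ T then 1 else 0) - (if (v, 0) ∈ S then 1 else 0) := by
  classical
  obtain ⟨δ, hδ0, hδ1, hδ⟩ : ∃ δ : ℝ, 0 < δ ∧ δ ≤ 1 / 20 ∧ ∀ v, δ ≤ φ₀ v / 5 := by
    rcases isEmpty_or_nonempty A with hA | hA
    · exact ⟨1 / 20, by norm_num, le_rfl, fun v => hA.elim v⟩
    · obtain ⟨v₀, hv₀⟩ := Finite.exists_min φ₀
      have := h0 v₀
      refine ⟨min (1 / 20) (φ₀ v₀ / 5), by positivity, min_le_left _ _, fun v => ?_⟩
      have := hv₀ v
      exact (min_le_right _ _).trans (by linarith)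
  let a : Finset (WW A) × Finset (WW A) × Bool → WW A → ℝ := fun q x =>
    (if x ∈ q.1 then 1 else 0) - (if x ∈ q.2.1 then 1 else 0)
  obtain ⟨ε, hε, hgen⟩ := generic (fun q x => a q x - a q (x.1, x.2 - 1))
    (fun q => (if q.2.2 then 1 else 0) - ∑ x, a q x * (φ₀ x.1 / 5)) hδ0
  refine ⟨fun x => φ₀ x.1 / 5 + ε x - ε (x.1, x.2 + 1), ?_, ?_, ?_⟩
  · intro x
    have e1 := hε x
    have e2 := hε (x.1, x.2 + 1)
    have e3 := hδ x.1
    have e4 := h1 x.1
    constructor <;> linarith [e1.1, e1.2, e2.1, e2.2]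
  · intro v
    simp only [Finset.sum_sub_distrib, Finset.sum_add_distrib]
    have e : ∑ i : ZMod 5, ε (v, i + 1) = ∑ i : ZMod 5, ε (v, i) :=
      Fintype.sum_equiv (Equiv.addRight 1) _ _ (fun _ => rfl)
    rw [e, Finset.sum_const, Finset.card_univ, ZMod.card]
    simp only [nsmul_eq_mul]
    push_cast
    ring
  · intro T S r hr
    have e : ∑ x : WW A, a (T, S, r) x * ε (x.1, x.2 + 1) =
        ∑ x : WW A, a (T, S, r) (x.1, x.2 - 1) * ε x :=
      Fintype.sum_equiv (Equiv.prodCongr (Equiv.refl A) (Equiv.addRight 1)) _ _ (by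
        rintro ⟨v, i⟩
        simp)
    have h2 := hgen (T, S, r) (by
      simp only [sub_mul, Finset.sum_sub_distrib]
      rw [← e, ← hr]
      simp only [a, mul_sub, mul_add, Finset.sum_sub_distrib, Finset.sum_add_distrib, sub_mul]
      ring)
    intro v i
    have b1 := h2 (v, 1)
    have b2 := h2 (v, 2)
    have b3 := h2 (v, 3)
    have b4 := h2 (v, 4)
    have c1 : (1 - 1 : ZMod 5) = 0 := by decide
    have c2 : (2 - 1 : ZMod 5) = 1 := by decide
    have c3 : (3 - 1 : ZMod 5) = 2 := by decide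
    have c4 : (4 - 1 : ZMod 5) = 3 := by decide
    simp only [c1, c2, c3, c4] at b1 b2 b3 b4
    have hi : ∀ j : ZMod 5, j = 0 ∨ j = 1 ∨ j = 2 ∨ j = 3 ∨ j = 4 := by decide
    change a (T, S, r) (v, i) = a (T, S, r) (v, 0)
    rcases hi i with rfl | rfl | rfl | rfl | rfl <;> linarith

theorem third (x y : WW A) (v : A) : ∃ i : ZMod 5, (v, i) ≠ x ∧ (v, i) ≠ y := by
  have : ∀ a b : ZMod 5, ∃ i : ZMod 5, i ≠ a ∧ i ≠ b := by decide
  obtain ⟨i, h1, h2⟩ := this x.2 y.2
  exact ⟨i, fun h => h1 (congrArg Prod.snd h), fun h => h2 (congrArg Prod.snd h)⟩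

/-- the blow-up of a nonempty maximal stable set is a maximal stable set -/
theorem blow_ms {R : Finset A} (hR : IsMaxStable G R) (hne : R.Nonempty)
    {T : Finset (WW A ⊕ EE G)} (h1 : ∀ e, Sum.inr e ∉ T) (h2 : ∀ x, Sum.inl x ∈ T ↔ x.1 ∈ R) :
    Maximal (fun s : Finset (WW A ⊕ EE G) => (GG G).IsIndepSet (s : Set _)) T := by
  unfold IsMaxStable at hR
  rw [ms_iff] at hR ⊢
  constructor
  · rintro (x | e) hu (z | f) hv
    · exact hR.1 _ ((h2 x).1 hu) _ ((h2 z).1 hv)
    · exact absurd hv (h1 f)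
    · exact absurd hu (h1 e)
    · exact absurd hu (h1 e)
  · rintro (x | e) hv
    · obtain ⟨u, hu, huv⟩ := hR.2 x.1 (fun h => hv ((h2 x).2 h))
      exact ⟨Sum.inl (u, 0), (h2 _).2 hu, huv⟩
    · obtain ⟨v, hv⟩ := hne
      obtain ⟨i, hi⟩ := third e.1.1 e.1.2 v
      exact ⟨Sum.inl (v, i), (h2 _).2 hv, hi⟩

theorem exists_ms {S : Finset A} (hS : ∀ u ∈ S, ∀ v ∈ S, ¬ G.Adj u v) :
    ∃ R, S ⊆ R ∧ IsMaxStable G R :=
  Finite.exists_le_maximal (p := fun s : Finset A => G.IsIndepSet (s : Set A))
    (fun u hu v hv _ => hS u hu v hv)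

theorem self_equistable (hG : Equistable G) : ∃ φ : WW A ⊕ EE G → ℝ, (∀ v, 0 < φ v) ∧
    ∀ S : Finset (WW A ⊕ EE G),
      (Maximal (fun s : Finset (WW A ⊕ EE G) => (GG G).IsIndepSet (s : Set _)) S ↔
        ∑ v ∈ S, φ v = 1) := by
  classical
  obtain ⟨φ₀, hnn, hφ₀⟩ := hG
  have hv : ∀ v, 0 < φ₀ v ∧ φ₀ v ≤ 1 := by
    intro v
    obtain ⟨R, hR1, hR2⟩ := exists_ms G (S := {v}) (by simp)
    have hvR : v ∈ R := hR1 (Finset.mem_singleton_self v)
    have h1 := (hφ₀ R).1 hR2
    constructor
    · refine lt_of_le_of_ne (hnn v) fun h0 => ?_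
      have h2 : ∑ u ∈ R.erase v, φ₀ u = 1 := by
        rw [← h1, ← Finset.add_sum_erase R φ₀ hvR, ← h0, zero_add]
      have h3 := (hφ₀ _).2 h2
      have h4 := h3.2 hR2.prop (Finset.erase_subset v R) hvR
      simp at h4
    · rw [← h1]
      exact Finset.single_le_sum (fun u _ => hnn u) hvR
  obtain ⟨φ, hφ, hφs, hgen⟩ := split φ₀ (fun v => (hv v).1) (fun v => (hv v).2)
  let ψ : WW A ⊕ EE G → ℝ := Sum.elim φ (fun e => 1 - φ e.1.1 - φ e.1.2)
  have hψr : ∀ e, 1 / 2 < ψ (Sum.inr e) := by
    intro e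
    have e1 := (hφ e.1.1).2
    have e2 := (hφ e.1.2).2
    simp only [ψ, Sum.elim_inr]
    linarith
  have hψ : ∀ v, 0 < ψ v := by
    rintro (x | e)
    · exact (hφ x).1
    · linarith [hψr e]
  have hblow : ∀ (R : Finset A) (T : Finset (WW A ⊕ EE G)), (∀ e, Sum.inr e ∉ T) →
      (∀ x, Sum.inl x ∈ T ↔ x.1 ∈ R) → ∑ v ∈ T, ψ v = ∑ v ∈ R, φ₀ v := by
    intro R T h1 h2
    rw [sum_ind, sum_ind R, Fintype.sum_sum_type, Fintype.sum_prod_type]
    simp only [h1, h2, if_false, zero_mul, Finset.sum_const_zero, add_zero, ψ, Sum.elim_inl]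
    refine Finset.sum_congr rfl fun v _ => ?_
    rw [← Finset.mul_sum, hφs]
  have htri : ∀ (e : EE G) (T : Finset (WW A ⊕ EE G)), (∀ f, Sum.inr f ∈ T ↔ f = e) →
      ∑ v ∈ T, ψ v = ∑ x, ((if x ∈ T.toLeft then 1 else 0) -
        (if x ∈ ({e.1.1, e.1.2} : Finset (WW A)) then 1 else 0)) * φ x + 1 := by
    intro e T h1
    rw [sum_ind, Fintype.sum_sum_type]
    simp only [sub_mul, Finset.sum_sub_distrib]
    rw [← sum_ind ({e.1.1, e.1.2} : Finset (WW A)), Finset.sum_pair e.2.1]
    simp only [h1, ite_mul, one_mul, zero_mul, Finset.sum_ite_eq', Finset.mem_univ, if_true, ψ,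
      Sum.elim_inl, Sum.elim_inr, Finset.mem_toLeft]
    ring
  refine ⟨ψ, hψ, fun T => ⟨fun hT => ?_, fun hT => ?_⟩⟩
  · rw [ms_iff] at hT
    by_cases hr : ∃ e, Sum.inr e ∈ T
    · obtain ⟨e, he⟩ := hr
      have h1 : ∀ f, Sum.inr f ∈ T ↔ f = e := fun f =>
        ⟨fun hf => by_contra fun hne => hT.1 _ hf _ he hne, fun h => h ▸ he⟩
      have h2 : ∀ x, Sum.inl x ∈ T → x = e.1.1 ∨ x = e.1.2 := by
        intro x hx
        have := hT.1 _ hx _ he
        simpa only [GG_lr, not_and_or, not_not] using this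
      have h3 : ∀ x, x = e.1.1 ∨ x = e.1.2 → Sum.inl x ∈ T := by
        intro x hx
        by_contra hxT
        obtain ⟨u, hu, hxu⟩ := hT.2 _ hxT
        rcases u with z | f
        · have h4 := h2 z hu
          rw [GG_ll] at hxu
          rcases hx with rfl | rfl <;> rcases h4 with rfl | rfl
          · exact G.irrefl hxu
          · exact e.2.2 hxu
          · exact e.2.2 hxu.symm
          · exact G.irrefl hxu
        · have := (h1 f).1 hu
          subst this
          rw [GG_lr] at hxu
          tauto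
      rw [htri e T h1]
      have h4 : T.toLeft = {e.1.1, e.1.2} := by
        ext x
        simp only [Finset.mem_toLeft, Finset.mem_insert, Finset.mem_singleton]
        exact ⟨h2 x, h3 x⟩
      rw [h4]
      simp
    · push Not at hr
      let R : Finset A := Finset.univ.filter fun v => ∃ i, Sum.inl (v, i) ∈ T
      have h2 : ∀ x, Sum.inl x ∈ T ↔ x.1 ∈ R := by
        intro x
        simp only [R, Finset.mem_filter, Finset.mem_univ, true_and]
        refine ⟨fun h => ⟨x.2, h⟩, ?_⟩
        rintro ⟨i, hi⟩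
        by_contra hx
        obtain ⟨u, hu, hxu⟩ := hT.2 _ hx
        rcases u with z | f
        · exact hT.1 _ hi _ hu hxu
        · exact hr f hu
      rw [hblow R T hr h2]
      apply (hφ₀ R).1
      unfold IsMaxStable
      rw [ms_iff]
      constructor
      · intro u hu v hv
        exact hT.1 (Sum.inl (u, 0)) ((h2 _).2 hu) (Sum.inl (v, 0)) ((h2 _).2 hv)
      · intro v hv
        obtain ⟨u, hu, hxu⟩ := hT.2 (Sum.inl (v, 0)) (fun h => hv ((h2 _).1 h))
        rcases u with z | f
        · exact ⟨z.1, (h2 z).1 hu, hxu⟩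
        · exact absurd hu (hr f)
  · by_cases hr : ∃ e, Sum.inr e ∈ T
    · obtain ⟨e, he⟩ := hr
      have h1 : ∀ f, Sum.inr f ∈ T ↔ f = e := by
        intro f
        refine ⟨fun hf => by_contra fun hne => ?_, fun h => h ▸ he⟩
        have h2 : ∑ v ∈ ({Sum.inr f, Sum.inr e} : Finset (WW A ⊕ EE G)), ψ v ≤ ∑ v ∈ T, ψ v := by
          apply Finset.sum_le_sum_of_subset_of_nonneg
          · intro v hv
            simp only [Finset.mem_insert, Finset.mem_singleton] at hv
            rcases hv with rfl | rfl <;> assumption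
          · intro v _ _
            exact (hψ v).le
        rw [Finset.sum_pair (fun h => hne (Sum.inr.inj h))] at h2
        linarith [hψr e, hψr f]
      rw [htri e T h1] at hT
      have h3 : ∑ x, ((if x ∈ T.toLeft then 1 else 0) -
          (if x ∈ ({e.1.1, e.1.2} : Finset (WW A)) then 1 else 0)) * φ x = 0 := by linarith
      have h4 := hgen T.toLeft {e.1.1, e.1.2} false (by simpa using h3)
      have h5 : ∀ x : WW A, (0 : ℝ) ≤ (if x ∈ T.toLeft then 1 else 0) -
          (if x ∈ ({e.1.1, e.1.2} : Finset (WW A)) then 1 else 0) := by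
        intro x
        obtain ⟨i, hi⟩ := third e.1.1 e.1.2 x.1
        have a1 := h4 x.1 x.2
        have a2 := h4 x.1 i
        have a3 : (x.1, i) ∉ ({e.1.1, e.1.2} : Finset (WW A)) := by
          simp only [Finset.mem_insert, Finset.mem_singleton, not_or]
          exact hi
        rw [if_neg a3] at a2
        have a4 : (0 : ℝ) ≤ if (x.1, i) ∈ T.toLeft then 1 else 0 := by positivity
        simp only [Prod.mk.eta] at a1
        linarith
      have h6 := (Finset.sum_eq_zero_iff_of_nonneg (fun x _ => mul_nonneg (h5 x) (hφ x).1.le)).1 h3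
      have h7 : ∀ x, Sum.inl x ∈ T ↔ x = e.1.1 ∨ x = e.1.2 := by
        intro x
        have a1 := (mul_eq_zero.1 (h6 x (Finset.mem_univ x))).resolve_right (hφ x).1.ne'
        simp only [Finset.mem_toLeft, Finset.mem_insert, Finset.mem_singleton] at a1
        split_ifs at a1 with b1 b2 b2
        · tauto
        · norm_num at a1
        · norm_num at a1
        · tauto
      rw [ms_iff]
      constructor
      · rintro (x | f) hu (z | f') hv
        · rw [GG_ll]
          rcases (h7 x).1 hu with rfl | rfl <;> rcases (h7 z).1 hv with rfl | rfl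
          · exact G.irrefl
          · exact e.2.2
          · exact fun h => e.2.2 h.symm
          · exact G.irrefl
        · have := (h1 f').1 hv
          subst this
          have := (h7 x).1 hu
          rw [GG_lr]
          tauto
        · have := (h1 f).1 hu
          subst this
          have := (h7 z).1 hv
          rw [GG_rl]
          tauto
        · rw [(h1 f).1 hu, (h1 f').1 hv]
          exact (GG G).irrefl
      · rintro (x | f) hv
        · refine ⟨_, he, ?_⟩
          rw [GG_lr]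
          rw [h7] at hv
          tauto
        · refine ⟨_, he, ?_⟩
          rw [GG_rr]
          exact fun h => hv ((h1 f).2 h)
    · push Not at hr
      have h3 : ∑ x, ((if x ∈ T.toLeft then 1 else 0) -
          (if x ∈ (∅ : Finset (WW A)) then 1 else 0)) * φ x = 1 := by
        rw [sum_ind, Fintype.sum_sum_type] at hT
        simpa [hr, ψ] using hT
      have h4 := hgen T.toLeft ∅ true (by simpa using h3)
      let R : Finset A := Finset.univ.filter fun v => Sum.inl (v, 0) ∈ T
      have h2 : ∀ x, Sum.inl x ∈ T ↔ x.1 ∈ R := by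
        intro x
        have a1 := h4 x.1 x.2
        simp only [Prod.mk.eta, Finset.mem_toLeft, Finset.notMem_empty, if_false, sub_zero] at a1
        simp only [R, Finset.mem_filter, Finset.mem_univ, true_and]
        split_ifs at a1 with b1 b2 b2
        · tauto
        · norm_num at a1
        · norm_num at a1
        · tauto
      rw [hblow R T hr h2] at hT
      refine blow_ms G ((hφ₀ R).2 hT) ?_ hr h2
      by_contra hne
      rw [Finset.not_nonempty_iff_eq_empty] at hne
      rw [hne] at hT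
      simp at hT

theorem weakly_of_gp {n : ℕ} (U : WW A ⊕ EE G → Finset (Fin n))
    (hU : ∀ u v, u ≠ v → ((GG G).Adj u v ↔ ¬ Disjoint (U u) (U v)))
    (hS : ∀ S : Finset (WW A ⊕ EE G),
      Maximal (fun s : Finset (WW A ⊕ EE G) => (GG G).IsIndepSet (s : Set _)) S →
        S.biUnion U = Finset.univ) : WeaklyCIS G := by
  classical
  refine ⟨{C | IsMaxClique G C ∧ ∀ S, IsMaxStable G S → ∃ x, x ∈ C ∧ x ∈ S},
    {S | IsMaxStable G S}, fun C hC => hC.1, fun S hS => hS, ?_, ?_,
    fun C hC S hS => hC.2 S hS⟩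
  · intro u v huv
    have h1 := (hU (Sum.inl (u, 0)) (Sum.inl (v, 0))
      (fun h => huv.ne (congrArg Prod.fst (Sum.inl.inj h)))).1 huv
    rw [Finset.not_disjoint_iff] at h1
    obtain ⟨x, hx1, hx2⟩ := h1
    let C₀ : Finset A := Finset.univ.filter fun a => ∃ i, x ∈ U (Sum.inl (a, i))
    have hC₀ : G.IsClique (C₀ : Set A) := by
      intro a ha b hb hab
      simp only [C₀, Finset.coe_filter, Finset.mem_univ, true_and] at ha hb
      obtain ⟨i, hi⟩ := ha
      obtain ⟨j, hj⟩ := hb
      exact (hU (Sum.inl (a, i)) (Sum.inl (b, j))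
        (fun h => hab (congrArg Prod.fst (Sum.inl.inj h)))).2
        (Finset.not_disjoint_iff.2 ⟨x, hi, hj⟩)
    obtain ⟨C, hC1, hC2⟩ := Finite.exists_le_maximal
      (p := fun s : Finset A => G.IsClique (s : Set A)) hC₀
    refine ⟨C, ⟨hC2, ?_⟩, hC1 ?_, hC1 ?_⟩
    · intro R hR
      have hne : R.Nonempty := by
        by_contra hne
        rw [Finset.not_nonempty_iff_eq_empty] at hne
        obtain ⟨w, hw, _⟩ := ((ms_iff G R).1 hR).2 u (by simp [hne])
        simp [hne] at hw
      let T : Finset (WW A ⊕ EE G) :=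
        (Finset.univ.filter fun z : WW A => z.1 ∈ R).image Sum.inl
      have t1 : ∀ e, Sum.inr e ∉ T := by simp [T]
      have t2 : ∀ z, Sum.inl z ∈ T ↔ z.1 ∈ R := by simp [T]
      have t3 := hS T (blow_ms G hR hne t1 t2)
      have t4 : x ∈ T.biUnion U := by rw [t3]; exact Finset.mem_univ x
      obtain ⟨w, hw1, hw2⟩ := Finset.mem_biUnion.1 t4
      rcases w with z | e
      · refine ⟨z.1, hC1 ?_, (t2 z).1 hw1⟩
        simp only [C₀, Finset.mem_filter, Finset.mem_univ, true_and]
        exact ⟨z.2, hw2⟩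
      · exact absurd hw1 (t1 e)
    · simp only [C₀, Finset.mem_filter, Finset.mem_univ, true_and]
      exact ⟨0, hx1⟩
    · simp only [C₀, Finset.mem_filter, Finset.mem_univ, true_and]
      exact ⟨0, hx2⟩
  · intro u v _ huv
    obtain ⟨R, hR1, hR2⟩ := exists_ms G (S := {u, v}) (by
      intro a ha b hb
      simp only [Finset.mem_insert, Finset.mem_singleton] at ha hb
      rcases ha with rfl | rfl <;> rcases hb with rfl | rfl
      · exact G.irrefl
      · exact huv
      · exact fun h => huv h.symm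
      · exact G.irrefl)
    exact ⟨R, hR2, hR1 (by simp), hR1 (by simp)⟩

end construction

end Pool.Agent.H216Z.EqCap
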