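import Pool.Agent.H590Z.HC.Seq

set_option autoImplicit false
set_option linter.all false

open Finset Filter Topology

namespace Pool.Agent.H590Z.HC.H216I

theorem cs (F : Finset ℤ) (u v : ℤ → ℝ) {A B : ℝ} (hA : 0 ≤ A) (hB : 0 ≤ B)
    (hu : ∑ t ∈ F, u t ^ 2 ≤ A ^ 2) (hv : ∑ t ∈ F, v t ^ 2 ≤ B ^ 2) :
    ∑ t ∈ F, u t * v t ≤ A * B := by
  refine (Real.sum_mul_le_sqrt_mul_sqrt F u v).trans ?_
  exact mul_le_mul (Real.sqrt_le_iff.mpr ⟨hA, hu⟩) (Real.sqrt_le_iff.mpr ⟨hB, hv⟩)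
    (Real.sqrt_nonneg _) hA

theorem tail_bound (f : ℤ → ℂ) (A : Finset ℤ) (C : ℝ)
    (h : ∀ F : Finset ℤ, (∀ t ∈ F, t ∉ A) → ∑ t ∈ F, ‖f t‖ ≤ C) :
    ‖∑' t, f t - ∑ t ∈ A, f t‖ ≤ C := by
  classical
  let f1 : ℤ → ℂ := fun t => if t ∈ A then 0 else f t
  let f2 : ℤ → ℂ := fun t => if t ∈ A then f t else 0
  have h1 : ∀ F : Finset ℤ, ∑ t ∈ F, ‖f1 t‖ ≤ C := by
    intro F
    refine le_trans (le_of_eq ?_) (h (F.filter (· ∉ A)) fun t ht => (mem_filter.mp ht).2)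
    rw [sum_filter]
    refine sum_congr rfl fun t _ => ?_
    by_cases ht : t ∈ A <;> simp [f1, ht]
  have h2 : Summable fun t => ‖f1 t‖ := summable_of_sum_le (fun _ => norm_nonneg _) h1
  have h3 : HasSum f2 (∑ t ∈ A, f t) := by
    have h4 : ∑ t ∈ A, f t = ∑ t ∈ A, f2 t := sum_congr rfl fun t ht => by simp [f2, ht]
    rw [h4]
    exact hasSum_sum_of_ne_finset_zero fun t ht => by simp [f2, ht]
  have h4 : f = fun t => f1 t + f2 t := by
    funext t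
    by_cases ht : t ∈ A <;> simp [f1, f2, ht]
  have h5 : ∑' t, f t = ∑' t, f1 t + ∑ t ∈ A, f t := by
    conv_lhs => rw [h4]
    rw [h2.of_norm.tsum_add h3.summable, h3.tsum_eq]
  rw [h5, add_sub_cancel_right]
  exact (norm_tsum_le_tsum_norm h2).trans (h2.tsum_le_of_sum_le h1)

theorem tendsto_Icc {R : ℕ → ℕ} (hR : Tendsto R atTop atTop) :
    Tendsto (fun n => Finset.Icc (-(R n : ℤ)) (R n)) atTop atTop := by
  refine tendsto_atTop.mpr fun b => ?_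
  filter_upwards [hR.eventually_ge_atTop (b.sup Int.natAbs)] with n hn
  intro t ht
  have h1 : t.natAbs ≤ R n := le_trans (le_sup (f := Int.natAbs) ht) hn
  rw [mem_Icc]
  omega

theorem sum_inv_sq_tail (R : ℕ) (hR : 1 ≤ R) (F : Finset ℤ) (hF : ∀ t ∈ F, (R : ℤ) < |t|) :
    ∑ t ∈ F, ((t : ℝ) ^ 2)⁻¹ ≤ 4 / R := by
  classical
  have key : ∀ G : Finset ℤ, (∀ t ∈ G, (R : ℤ) < |t|) → Set.InjOn Int.natAbs (G : Set ℤ) →
      ∑ t ∈ G, ((t : ℝ) ^ 2)⁻¹ ≤ 2 / R := by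
    intro G hG hinj
    have h1 : ∑ t ∈ G, ((t : ℝ) ^ 2)⁻¹ = ∑ i ∈ G.image Int.natAbs, ((i : ℝ) ^ 2)⁻¹ := by
      rw [sum_image hinj]
      refine sum_congr rfl fun t _ => ?_
      rw [Nat.cast_natAbs, Int.cast_abs, sq_abs]
    have h2 : G.image Int.natAbs ⊆ Ioo R (G.sup Int.natAbs + 1) := by
      intro i hi
      obtain ⟨t, ht, rfl⟩ := mem_image.mp hi
      have h3 := hG t ht
      have h4 := le_sup (f := Int.natAbs) ht
      rw [mem_Ioo]
      constructor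
      · rw [Int.abs_eq_natAbs] at h3
        exact_mod_cast h3
      · omega
    rw [h1]
    refine (sum_le_sum_of_subset_of_nonneg h2 fun _ _ _ => by positivity).trans ?_
    refine (sum_Ioo_inv_sq_le R _).trans ?_
    have : (0 : ℝ) < R := by exact_mod_cast hR
    gcongr
    linarith
  rw [← sum_filter_add_sum_filter_not F (fun t => 0 ≤ t)]
  have h1 := key (F.filter (fun t => 0 ≤ t)) (fun t ht => hF t (mem_filter.mp ht).1) (by
    intro a ha b hb hab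
    have h1 := (mem_filter.mp (mem_coe.mp ha)).2
    have h2 := (mem_filter.mp (mem_coe.mp hb)).2
    omega)
  have h2 := key (F.filter (fun t => ¬ 0 ≤ t)) (fun t ht => hF t (mem_filter.mp ht).1) (by
    intro a ha b hb hab
    have h1 := (mem_filter.mp (mem_coe.mp ha)).2
    have h2 := (mem_filter.mp (mem_coe.mp hb)).2
    omega)
  have h3 : (4 : ℝ) / R = 2 / R + 2 / R := by ring
  linarith

theorem exists_C0 : ∃ C : ℝ, 0 ≤ C ∧ ∀ (t : ℤ) (F : Finset ℤ),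
    ∑ a ∈ F, (((t : ℝ) - a) ^ 2 + 1)⁻¹ ≤ C ^ 2 := by
  have h1 : Summable fun j : ℤ => (((j : ℝ)) ^ 2 + 1)⁻¹ := by
    have h2 : Summable fun j : ℤ => 1 / |(j : ℝ) + 1 / 2| ^ (2 : ℝ) :=
      (Real.summable_one_div_int_add_rpow (1 / 2) 2).mpr (by norm_num)
    refine Summable.of_nonneg_of_le (fun _ => by positivity) (fun j => ?_) (h2.mul_left 2)
    rw [Real.rpow_two, sq_abs]
    have h3 : (0 : ℝ) < ((j : ℝ) + 1 / 2) ^ 2 := by
      apply sq_pos_of_ne_zero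
      intro h
      have h4 : (2 * j + 1 : ℝ) = 0 := by linarith
      have h5 : (2 * j + 1 : ℤ) = 0 := by exact_mod_cast h4
      omega
    rw [mul_one_div, inv_eq_one_div, div_le_div_iff₀ (by positivity) h3]
    nlinarith [sq_nonneg ((j : ℝ) - 1 / 2)]
  refine ⟨√(∑' j : ℤ, (((j : ℝ)) ^ 2 + 1)⁻¹), Real.sqrt_nonneg _, fun t F => ?_⟩
  rw [Real.sq_sqrt (tsum_nonneg fun _ => by positivity)]
  have h2 : ∑ a ∈ F, (((t : ℝ) - a) ^ 2 + 1)⁻¹ =
      ∑ j ∈ F.map (Equiv.subLeft t).toEmbedding, (((j : ℝ)) ^ 2 + 1)⁻¹ := by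
    rw [sum_map]
    refine sum_congr rfl fun a _ => ?_
    simp
  rw [h2]
  exact h1.sum_le_tsum _ fun _ _ => by positivity

theorem half_le (m a : ℤ) : (1 / 2 : ℝ) ≤ ‖((m : ℂ) + 1 / 2) - a‖ := by
  have h1 : ((m : ℂ) + 1 / 2) - a = (((m : ℝ) + 1 / 2 - a : ℝ) : ℂ) := by push_cast; ring
  rw [h1, Complex.norm_real, Real.norm_eq_abs]
  rcases le_or_gt a m with h | h
  · have : (a : ℝ) ≤ m := by exact_mod_cast h
    rw [abs_of_nonneg (by linarith)]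
    linarith
  · have : (m : ℝ) + 1 ≤ a := by exact_mod_cast h
    rw [abs_of_nonpos (by linarith)]
    linarith

theorem bS_lower (S : Finset ℤ) (lam : ℤ → ℂ) (hre : ∀ n, (lam n).re = n) (a : ℤ) (ha : a ≠ 0)
    (haS : a ∉ S) : 1 ≤ |(a : ℝ)| * ‖bS S lam a‖ := by
  rw [bS, norm_mul, norm_inv, Complex.norm_intCast, ← mul_assoc,
    mul_inv_cancel₀ (abs_ne_zero.mpr (by exact_mod_cast ha)), one_mul, norm_prod]
  refine Finset.one_le_prod fun t ht => ?_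
  have h1 : (a : ℂ) - t ≠ 0 := by
    rw [sub_ne_zero]
    intro h
    have : a = t := by exact_mod_cast h
    exact haS (this ▸ ht)
  rw [norm_div, one_le_div (norm_pos_iff.mpr h1)]
  have h2 : (a : ℂ) - t = (((a : ℝ) - t : ℝ) : ℂ) := by push_cast; ring
  rw [h2, Complex.norm_real, Real.norm_eq_abs]
  have h3 := Complex.abs_re_le_norm ((a : ℂ) - lam t)
  simpa [hre] using h3

/-- Statement of the first partial fraction lemma used. -/
def PfOff : Prop := ∀ (S : Finset ℤ) (lam k : ℤ → ℂ) (_ : 0 ∉ S) (_ : Set.InjOn lam S)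
    (_ : ∀ t ∈ S, ∀ n : ℤ, lam t ≠ n) (w : ℂ) (_ : ∀ t ∈ insert 0 S, w ≠ (t : ℤ))
    (_ : ∀ t ∈ S, w ≠ lam t),
    zS S lam k w * bS S lam w = ∑ t ∈ insert 0 S, k t / (w - t)

/-- Statement of the second partial fraction lemma used. -/
def PfOn : Prop := ∀ (S : Finset ℤ) (lam k : ℤ → ℂ) (_ : 0 ∉ S) (_ : Set.InjOn lam S)
    (_ : ∀ t ∈ S, ∀ n : ℤ, lam t ≠ n) (t : ℤ) (_ : t ∈ insert 0 S),
    zS S lam k t * gS S lam t = k t

/-- Statement of the third partial fraction lemma used. -/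
def PfMul : Prop := ∀ (S F : Finset ℤ) (lam k y : ℤ → ℂ) (_ : ∀ t ∈ S, ∀ n : ℤ, lam t ≠ n) (z : ℂ)
    (_ : ∀ n : ℤ, z ≠ n) (_ : ∀ t ∈ S, z ≠ lam t),
    zS S lam k z * ∑ n ∈ F, y n / (z - n) = ∑ n ∈ F, y n * zS S lam k n / (z - n) +
      ∑ t ∈ S, rS S lam t * (∑ u ∈ insert 0 S, k u / (lam t - u)) *
        (∑ n ∈ F, y n / (lam t - n)) / (z - lam t)

theorem tailK (g x : ℤ → ℂ) (A : Finset ℤ) {M τ : ℝ} (hM : 0 ≤ M) (hτ0 : 0 ≤ τ)
    (hx : ∀ F : Finset ℤ, ∑ n ∈ F, ‖x n‖ ^ 2 ≤ M ^ 2) (w : ℂ)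
    (hτ : ∀ F : Finset ℤ, (∀ t ∈ F, t ∉ A) → ∑ t ∈ F, ‖g t‖ ^ 2 / ‖w - t‖ ^ 2 ≤ τ ^ 2) :
    ‖Ch (fun t => g t * x t) w - ∑ t ∈ A, g t * x t / (w - t)‖ ≤ τ * M := by
  refine tail_bound (fun t => g t * x t / (w - t)) A _ fun F hF => ?_
  have h1 := cs F (fun t => ‖g t‖ / ‖w - t‖) (fun t => ‖x t‖) hτ0 hM
    (by simpa only [div_pow] using hτ F hF) (hx F)
  refine le_trans (le_of_eq (sum_congr rfl fun t _ => ?_)) h1
  rw [norm_div, norm_mul]
  ring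

theorem lam_ne (lam : ℤ → ℂ) {t : ℤ} (h : 1 ≤ |(lam t).im|) {w : ℂ} (hw : w.im = 0) :
    lam t ≠ w := by
  intro h1
  rw [h1, hw] at h
  norm_num at h

theorem e1_bound (hoff : PfOff) (hon : PfOn) (N : Set ℤ) (lam g x y : ℤ → ℂ) (S : Finset ℤ)
    (R : ℕ) (ρ : ℂ → ℂ) (δ τ M : ℝ) (m : ℤ) (hR : 1 ≤ R)
    (hx : ∀ F : Finset ℤ, ∑ n ∈ F, ‖x n‖ ^ 2 ≤ M ^ 2)
    (hy : ∀ F : Finset ℤ, ∑ n ∈ F, ‖y n‖ ^ 2 ≤ M ^ 2) (hM : 0 ≤ M)
    (hre : ∀ n, (lam n).re = n) (h0 : 0 ∉ S)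
    (hS : ∀ t, t ∈ insert 0 S ↔ (t ∈ N ∧ |t| ≤ R))
    (him : ∀ t ∈ S, 1 ≤ |(lam t).im|)
    (hgρ : ∀ t ∈ insert 0 S, g t = gS S lam t * ρ t)
    (hβρ : ∀ w : ℝ, |w| ≤ R → (∀ t ∈ N, w ≠ t) → Ch g w = bS S lam w * ρ w)
    (hρ : ∀ w : ℝ, |w| ≤ R → ‖ρ w - 1‖ ≤ δ) (hτ0 : 0 ≤ τ)
    (hτ : ∀ w : ℂ, ‖w‖ ≤ R → ∀ F : Finset ℤ, (∀ t ∈ F, t ∉ insert 0 S) →
      ∑ t ∈ F, ‖g t‖ ^ 2 / ‖w - t‖ ^ 2 ≤ τ ^ 2)
    (hI : ∀ n, n ∉ N → y n ≠ 0 → x n * Ch g n = Ch (fun t => g t * x t) n) :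
    ‖∑ a ∈ Finset.Icc (-(R : ℤ)) R,
        y a * (zS S lam (fun t => g t * x t) a - x a) / (((m : ℂ) + 1 / 2) - a)‖ ≤
      2 * M ^ 2 * δ + (1 + 2 * ‖(m : ℂ) + 1 / 2‖) * M ^ 2 * 2 * (τ * √R) := by
  classical
  set z : ℂ := (m : ℂ) + 1 / 2 with hz
  have hinj : Set.InjOn lam S := fun a _ b _ hab => by
    have h1 := congrArg Complex.re hab
    rw [hre, hre] at h1
    exact_mod_cast h1
  have hni : ∀ t ∈ S, ∀ n : ℤ, lam t ≠ n := fun t ht n => lam_ne lam (him t ht) (by simp)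
  have hδ0 : 0 ≤ δ := (norm_nonneg _).trans (hρ 0 (by simp))
  have hpt : ∀ a ∈ Finset.Icc (-(R : ℤ)) R, y a ≠ 0 →
      ‖zS S lam (fun t => g t * x t) a - x a‖ ≤ δ * ‖x a‖ + |(a : ℝ)| * (τ * M) := by
    intro a ha hya
    have ha1 : |a| ≤ (R : ℤ) := abs_le.mpr (mem_Icc.mp ha)
    have ha2 : |(a : ℝ)| ≤ R := by exact_mod_cast ha1
    have hρa : ‖ρ a - 1‖ ≤ δ := by simpa using hρ a ha2
    have h3 : ‖x a * ρ a - x a‖ ≤ δ * ‖x a‖ := by
      have : x a * ρ a - x a = (ρ a - 1) * x a := by ring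
      rw [this, norm_mul]
      exact mul_le_mul_of_nonneg_right hρa (norm_nonneg _)
    by_cases haN : a ∈ N
    · have haA : a ∈ insert 0 S := (hS a).mpr ⟨haN, ha1⟩
      have h1 := hon S lam (fun t => g t * x t) h0 hinj hni a haA
      have h2 : gS S lam a ≠ 0 := by
        refine div_ne_zero (prod_ne_zero_iff.mpr fun u hu => sub_ne_zero.mpr (hni u hu a).symm)
          (prod_ne_zero_iff.mpr fun u hu => sub_ne_zero.mpr ?_)
        intro h
        have : a = u := by exact_mod_cast h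
        exact (mem_erase.mp hu).1 this.symm
      have h4 : zS S lam (fun t => g t * x t) a = x a * ρ a := by
        apply mul_right_cancel₀ h2
        rw [h1, hgρ a haA]
        ring
      rw [h4]
      have : 0 ≤ |(a : ℝ)| * (τ * M) := by positivity
      linarith
    · have haA : a ∉ insert 0 S := fun h => haN ((hS a).mp h).1
      have ha0 : a ≠ 0 := fun h => haA (h ▸ mem_insert_self _ _)
      have haS : a ∉ S := fun h => haA (mem_insert_of_mem h)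
      have h1 := hoff S lam (fun t => g t * x t) h0 hinj hni a
        (fun t ht h => haA (by
          have : a = t := by exact_mod_cast h
          exact this ▸ ht)) (fun t ht => (hni t ht a).symm)
      have h2 : Ch g a = bS S lam a * ρ a := by
        simpa using hβρ a ha2 (fun t ht h => haN (by
          have : a = t := by exact_mod_cast h
          exact this ▸ ht))
      have h4 := tailK g x (insert 0 S) hM hτ0 hx a
        (hτ a (by rw [Complex.norm_intCast]; exact ha2))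
      rw [← hI a haN hya, h2, ← h1] at h4
      have h5 : x a * (bS S lam a * ρ a) - zS S lam (fun t => g t * x t) a * bS S lam a =
          -((zS S lam (fun t => g t * x t) a - x a * ρ a) * bS S lam a) := by ring
      rw [h5, norm_neg, norm_mul] at h4
      have h6 := bS_lower S lam hre a ha0 haS
      have h7 : ‖zS S lam (fun t => g t * x t) a - x a * ρ a‖ ≤ |(a : ℝ)| * (τ * M) := by
        calc _ ≤ ‖zS S lam (fun t => g t * x t) a - x a * ρ a‖ * (|(a : ℝ)| * ‖bS S lam a‖) :=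
              le_mul_of_one_le_right (norm_nonneg _) h6
          _ = |(a : ℝ)| * (‖zS S lam (fun t => g t * x t) a - x a * ρ a‖ * ‖bS S lam a‖) := by ring
          _ ≤ _ := mul_le_mul_of_nonneg_left h4 (abs_nonneg _)
      have h8 : zS S lam (fun t => g t * x t) a - x a =
          (zS S lam (fun t => g t * x t) a - x a * ρ a) + (x a * ρ a - x a) := by ring
      rw [h8]
      refine (norm_add_le _ _).trans ?_
      linarith
  have hterm : ∀ a ∈ Finset.Icc (-(R : ℤ)) R,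
      ‖y a * (zS S lam (fun t => g t * x t) a - x a) / (z - a)‖ ≤
        2 * δ * (‖x a‖ * ‖y a‖) + (1 + 2 * ‖z‖) * (τ * M) * (‖y a‖ * 1) := by
    intro a ha
    by_cases hya : y a = 0
    · simp [hya]
    have h1 := hpt a ha hya
    have h2 := half_le m a
    rw [← hz] at h2
    have h3 : |(a : ℝ)| ≤ (1 + 2 * ‖z‖) * ‖z - a‖ := by
      have h4 : ‖(a : ℂ)‖ ≤ ‖z - a‖ + ‖z‖ := by
        have : (a : ℂ) = -(z - a) + z := by ring
        conv_lhs => rw [this]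
        exact (norm_add_le _ _).trans (by rw [norm_neg])
      rw [Complex.norm_intCast] at h4
      nlinarith [norm_nonneg z]
    rw [norm_div, norm_mul, div_le_iff₀ (by linarith)]
    have h4 : δ * ‖x a‖ ≤ 2 * δ * ‖x a‖ * ‖z - a‖ := by
      have : 0 ≤ δ * ‖x a‖ := by positivity
      nlinarith
    have h5 : |(a : ℝ)| * (τ * M) ≤ (1 + 2 * ‖z‖) * ‖z - a‖ * (τ * M) :=
      mul_le_mul_of_nonneg_right h3 (by positivity)
    calc _ ≤ ‖y a‖ * (2 * δ * ‖x a‖ * ‖z - a‖ + (1 + 2 * ‖z‖) * ‖z - a‖ * (τ * M)) :=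
          mul_le_mul_of_nonneg_left (by linarith) (norm_nonneg _)
      _ = _ := by ring
  refine (norm_sum_le _ _).trans ((sum_le_sum hterm).trans ?_)
  rw [sum_add_distrib, ← mul_sum, ← mul_sum]
  have h1 := cs (Finset.Icc (-(R : ℤ)) R) (fun a => ‖x a‖) (fun a => ‖y a‖) hM hM (hx _) (hy _)
  have h2 := cs (Finset.Icc (-(R : ℤ)) R) (fun a => ‖y a‖) (fun _ => 1) hM
    (B := 2 * √R) (by positivity) (hy _) (by
      rw [mul_pow, Real.sq_sqrt (by positivity)]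
      simp only [one_pow, sum_const, Int.card_Icc, nsmul_eq_mul, mul_one]
      have h3 : ((R : ℤ) + 1 - -(R : ℤ)).toNat = 2 * R + 1 := by omega
      rw [h3]
      have h4 : (1 : ℝ) ≤ R := by exact_mod_cast hR
      push_cast
      linarith)
  have h3 := mul_le_mul_of_nonneg_left h1 (by positivity : 0 ≤ 2 * δ)
  have h4 := mul_le_mul_of_nonneg_left h2 (by positivity : 0 ≤ (1 + 2 * ‖z‖) * (τ * M))
  calc _ ≤ 2 * δ * (M * M) + (1 + 2 * ‖z‖) * (τ * M) * (M * (2 * √R)) := add_le_add h3 h4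
    _ = _ := by ring

theorem e2_bound (N : Set ℤ) (lam g x y : ℤ → ℂ) (S : Finset ℤ)
    (R : ℕ) (τ M C : ℝ) (κ : ℤ → ℝ) (m : ℤ) (hR : 1 ≤ R) (hC0 : 0 ≤ C)
    (hC : ∀ (t : ℤ) (F : Finset ℤ), ∑ a ∈ F, (((t : ℝ) - a) ^ 2 + 1)⁻¹ ≤ C ^ 2)
    (hx : ∀ F : Finset ℤ, ∑ n ∈ F, ‖x n‖ ^ 2 ≤ M ^ 2)
    (hy : ∀ F : Finset ℤ, ∑ n ∈ F, ‖y n‖ ^ 2 ≤ M ^ 2) (hM : 0 ≤ M)
    (hre : ∀ n, (lam n).re = n) (h0 : 0 ∉ S)
    (hS : ∀ t, t ∈ insert 0 S ↔ (t ∈ N ∧ |t| ≤ R))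
    (him : ∀ t ∈ S, 1 ≤ |(lam t).im| ∧ 2 * ‖lam t‖ ≤ R) (hτ0 : 0 ≤ τ)
    (hτ : ∀ w : ℂ, ‖w‖ ≤ R → ∀ F : Finset ℤ, (∀ t ∈ F, t ∉ insert 0 S) →
      ∑ t ∈ F, ‖g t‖ ^ 2 / ‖w - t‖ ^ 2 ≤ τ ^ 2)
    (hκ0 : ∀ t, 0 ≤ κ t)
    (hκ : ∀ t ∈ S, ∀ F : Finset ℤ, ∑ u ∈ F, ‖g u‖ ^ 2 / ‖lam t - u‖ ^ 2 ≤ κ t ^ 2)
    (hZ : ∀ t ∈ N, t ≠ 0 → Ch (fun u => g u * x u) (lam t) * Ch y (lam t) = 0) :
    ‖∑ t ∈ S, rS S lam t * (∑ u ∈ insert 0 S, g u * x u / (lam t - u)) *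
        (∑ n ∈ Finset.Icc (-(R : ℤ)) R, y n / (lam t - n)) / (((m : ℂ) + 1 / 2) - lam t)‖ ≤
      (1 + ‖(m : ℂ) + 1 / 2‖) * M ^ 2 * C * (τ * ∑ t ∈ S, ‖rS S lam t‖ / ‖lam t‖) +
      (1 + ‖(m : ℂ) + 1 / 2‖) * M ^ 2 * 4 * ((∑ t ∈ S, ‖rS S lam t‖ * κ t / ‖lam t‖) / √R) := by
  classical
  set z : ℂ := (m : ℂ) + 1 / 2 with hz
  have hzim : z.im = 0 := by simp [hz]
  have hR' : (1 : ℝ) ≤ R := by exact_mod_cast hR
  have hsq : 0 < √(R : ℝ) := Real.sqrt_pos.mpr (by linarith)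
  have hterm : ∀ t ∈ S, ‖rS S lam t * (∑ u ∈ insert 0 S, g u * x u / (lam t - u)) *
        (∑ n ∈ Finset.Icc (-(R : ℤ)) R, y n / (lam t - n)) / (z - lam t)‖ ≤
      (1 + ‖z‖) * M ^ 2 * C * (τ * (‖rS S lam t‖ / ‖lam t‖)) +
      (1 + ‖z‖) * M ^ 2 * 4 * ((‖rS S lam t‖ * κ t / ‖lam t‖) / √R) := by
    intro t ht
    obtain ⟨h1, h2⟩ := him t ht
    have hl1 : 1 ≤ ‖lam t‖ := h1.trans (Complex.abs_im_le_norm _)
    have h3 : 1 ≤ ‖z - lam t‖ := by
      refine le_trans ?_ (Complex.abs_im_le_norm _)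
      rw [Complex.sub_im, hzim, zero_sub, abs_neg]
      exact h1
    have h4 : ‖lam t‖ ≤ (1 + ‖z‖) * ‖z - lam t‖ := by
      have h5 : ‖lam t‖ ≤ ‖z - lam t‖ + ‖z‖ := by
        have : lam t = -(z - lam t) + z := by ring
        conv_lhs => rw [this]
        exact (norm_add_le _ _).trans (by rw [norm_neg])
      nlinarith [norm_nonneg z]
    have hKY : ‖∑ u ∈ insert 0 S, g u * x u / (lam t - u)‖ *
        ‖∑ n ∈ Finset.Icc (-(R : ℤ)) R, y n / (lam t - n)‖ ≤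
        M ^ 2 * C * τ + M ^ 2 * 4 * (κ t / √R) := by
      have htN : t ∈ N := ((hS t).mp (mem_insert_of_mem ht)).1
      have ht0 : t ≠ 0 := fun h => h0 (h ▸ ht)
      have hκt := hκ0 t
      rcases mul_eq_zero.mp (hZ t htN ht0) with h5 | h5
      · have h6 := tailK g x (insert 0 S) hM hτ0 hx (lam t) (hτ _ (by linarith [norm_nonneg (lam t)]))
        rw [h5, zero_sub, norm_neg] at h6
        have h7 : ‖∑ n ∈ Finset.Icc (-(R : ℤ)) R, y n / (lam t - n)‖ ≤ M * C := by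
          refine (norm_sum_le _ _).trans ?_
          have h8 := cs (Finset.Icc (-(R : ℤ)) R) (fun a => ‖y a‖) (fun a => ‖lam t - a‖⁻¹) hM hC0
            (hy _) (le_trans (sum_le_sum fun a _ => ?_) (hC t _))
          · refine le_trans (le_of_eq (sum_congr rfl fun a _ => ?_)) h8
            rw [norm_div, div_eq_mul_inv]
          · rw [inv_pow]
            refine inv_anti₀ (by positivity) ?_
            rw [Complex.sq_norm, Complex.normSq_apply]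
            simp only [Complex.sub_re, Complex.sub_im, hre, Complex.intCast_re, Complex.intCast_im,
              sub_zero]
            have h9 : 1 ≤ (lam t).im * (lam t).im := by
              rw [← abs_mul_abs_self]
              nlinarith
            nlinarith
        have h8 := mul_le_mul h6 h7 (norm_nonneg _) (by positivity)
        have h9 : 0 ≤ M ^ 2 * 4 * (κ t / √R) := by positivity
        nlinarith
      · have h6 : ‖∑ u ∈ insert 0 S, g u * x u / (lam t - u)‖ ≤ κ t * M := by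
          have h7 := cs (insert 0 S) (fun u => ‖g u‖ / ‖lam t - u‖) (fun u => ‖x u‖) hκt hM
            (by simpa only [div_pow] using hκ t ht _) (hx _)
          refine (norm_sum_le _ _).trans (le_trans (le_of_eq (sum_congr rfl fun u _ => ?_)) h7)
          rw [norm_div, norm_mul]
          ring
        have h7 := tail_bound (fun n : ℤ => y n / (lam t - n)) (Finset.Icc (-(R : ℤ)) R)
          (M * (4 / √R)) (by
            intro F hF
            have hF' : ∀ a ∈ F, (R : ℤ) < |a| := by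
              intro a ha
              have := hF a ha
              rw [mem_Icc, ← abs_le] at this
              exact not_le.mp this
            have h8 := cs F (fun a => ‖y a‖) (fun a => ‖lam t - a‖⁻¹) hM
              (B := 4 / √R) (by positivity) (hy _) (by
                have h9 : ∀ a ∈ F, ‖lam t - a‖⁻¹ ^ 2 ≤ 4 * ((a : ℝ) ^ 2)⁻¹ := by
                  intro a ha
                  have h10 : (R : ℝ) < |(a : ℝ)| := by exact_mod_cast hF' a ha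
                  have h11 : ‖(a : ℂ)‖ ≤ ‖lam t - a‖ + ‖lam t‖ := by
                    have : (a : ℂ) = -(lam t - a) + lam t := by ring
                    conv_lhs => rw [this]
                    exact (norm_add_le _ _).trans (by rw [norm_neg])
                  rw [Complex.norm_intCast] at h11
                  have h12 : |(a : ℝ)| / 2 ≤ ‖lam t - a‖ := by linarith
                  have h13 : 0 < |(a : ℝ)| / 2 := by linarith
                  have h14 : ‖lam t - a‖⁻¹ ≤ (|(a : ℝ)| / 2)⁻¹ := inv_anti₀ h13 h12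
                  refine (pow_le_pow_left₀ (by positivity) h14 2).trans (le_of_eq ?_)
                  rw [inv_pow, div_pow, sq_abs, inv_div]
                  ring
                refine (sum_le_sum h9).trans ?_
                rw [← mul_sum, div_pow, Real.sq_sqrt (by positivity)]
                have h10 := sum_inv_sq_tail R hR F hF'
                calc _ ≤ 4 * (4 / (R : ℝ)) := by gcongr
                  _ = _ := by ring)
            refine le_trans (le_of_eq (sum_congr rfl fun a _ => ?_)) h8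
            rw [norm_div, div_eq_mul_inv])
        have h8 : (∑' n : ℤ, y n / (lam t - n)) = 0 := h5
        rw [h8, zero_sub, norm_neg] at h7
        have h9 := mul_le_mul h6 h7 (norm_nonneg _) (by positivity)
        have h10 : 0 ≤ M ^ 2 * C * τ := by positivity
        have h11 : κ t * M * (M * (4 / √R)) = M ^ 2 * 4 * (κ t / √R) := by ring
        linarith
    rw [norm_div, norm_mul, norm_mul, mul_assoc, div_le_iff₀ (by linarith)]
    have hκt := hκ0 t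
    have h5 : 1 ≤ (1 + ‖z‖) * ‖z - lam t‖ / ‖lam t‖ := by
      rw [one_le_div (by linarith)]
      exact h4
    calc _ ≤ ‖rS S lam t‖ * (M ^ 2 * C * τ + M ^ 2 * 4 * (κ t / √R)) :=
          mul_le_mul_of_nonneg_left hKY (norm_nonneg _)
      _ ≤ ‖rS S lam t‖ * (M ^ 2 * C * τ + M ^ 2 * 4 * (κ t / √R)) *
            ((1 + ‖z‖) * ‖z - lam t‖ / ‖lam t‖) := le_mul_of_one_le_right (by positivity) h5
      _ = _ := by ring
  refine (norm_sum_le _ _).trans ((sum_le_sum hterm).trans (le_of_eq ?_))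
  rw [sum_add_distrib, ← mul_sum, ← mul_sum, ← mul_sum, ← sum_div]

theorem ident_of (hoff : PfOff) (hon : PfOn) (hmul : PfMul)
    (N : Set ℤ) (lam g x y : ℤ → ℂ) (S : ℕ → Finset ℤ) (R : ℕ → ℕ) (ρ : ℕ → ℂ → ℂ)
    (δ τ : ℕ → ℝ) (κ : ℤ → ℝ) (M : ℝ) (m : ℤ)
    (hx : ∀ F : Finset ℤ, ∑ n ∈ F, ‖x n‖ ^ 2 ≤ M ^ 2)
    (hy : ∀ F : Finset ℤ, ∑ n ∈ F, ‖y n‖ ^ 2 ≤ M ^ 2) (hM : 0 ≤ M)
    (hre : ∀ n, (lam n).re = n) (h0 : ∀ n, 0 ∉ S n)
    (hS : ∀ n t, t ∈ insert 0 (S n) ↔ (t ∈ N ∧ |t| ≤ R n)) (hR : Tendsto R atTop atTop)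
    (him : ∀ n, ∀ t ∈ S n, 1 ≤ |(lam t).im| ∧ 2 * ‖lam t‖ ≤ R n)
    (hgρ : ∀ n, ∀ t ∈ insert 0 (S n), g t = gS (S n) lam t * ρ n t)
    (hβρ : ∀ n, ∀ w : ℝ, |w| ≤ R n → (∀ t ∈ N, w ≠ t) → Ch g w = bS (S n) lam w * ρ n w)
    (hρ : ∀ n, ∀ w : ℝ, |w| ≤ R n → ‖ρ n w - 1‖ ≤ δ n) (hδ : Tendsto δ atTop (𝓝 0))
    (hτ0 : ∀ n, 0 ≤ τ n)
    (hτ : ∀ n, ∀ w : ℂ, ‖w‖ ≤ R n → ∀ F : Finset ℤ, (∀ t ∈ F, t ∉ insert 0 (S n)) →
      ∑ t ∈ F, ‖g t‖ ^ 2 / ‖w - t‖ ^ 2 ≤ τ n ^ 2)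
    (hκ0 : ∀ t, 0 ≤ κ t)
    (hκ : ∀ n, ∀ t ∈ S n, ∀ F : Finset ℤ, ∑ u ∈ F, ‖g u‖ ^ 2 / ‖lam t - u‖ ^ 2 ≤ κ t ^ 2)
    (l1 : Tendsto (fun n => τ n * √(R n)) atTop (𝓝 0))
    (l2 : Tendsto (fun n => τ n * ∑ t ∈ S n, ‖rS (S n) lam t‖ / ‖lam t‖) atTop (𝓝 0))
    (l3 : Tendsto (fun n => (∑ t ∈ S n, ‖rS (S n) lam t‖ * κ t / ‖lam t‖) / √(R n)) atTop (𝓝 0))
    (hI : ∀ n, n ∉ N → y n ≠ 0 → x n * Ch g n = Ch (fun t => g t * x t) n)
    (hZ : ∀ t ∈ N, t ≠ 0 → Ch (fun u => g u * x u) (lam t) * Ch y (lam t) = 0) :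
    Ch (fun t => g t * x t) ((m : ℂ) + 1 / 2) * Ch y ((m : ℂ) + 1 / 2) =
      Ch g ((m : ℂ) + 1 / 2) * Ch (fun t => x t * y t) ((m : ℂ) + 1 / 2) := by
  classical
  obtain ⟨C, hC0, hC⟩ := exists_C0
  have hhalf := half_le m
  have e1b := fun n (hn : 1 ≤ R n) => e1_bound hoff hon N lam g x y (S n) (R n) (ρ n) (δ n) (τ n)
    M m hn hx hy hM hre (h0 n) (hS n) (fun t ht => (him n t ht).1) (hgρ n) (hβρ n) (hρ n) (hτ0 n)
    (hτ n) hI
  have e2b := fun n (hn : 1 ≤ R n) => e2_bound N lam g x y (S n) (R n) (τ n) M C κ m hn hC0 hC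
    hx hy hM hre (h0 n) (hS n) (him n) (hτ0 n) (hτ n) hκ0 (hκ n) hZ
  have hzr : (((m : ℝ) + 1 / 2 : ℝ) : ℂ) = (m : ℂ) + 1 / 2 := by push_cast; ring
  set z : ℂ := (m : ℂ) + 1 / 2 with hz
  have hzim : z.im = 0 := by simp [hz]
  have hzn : ∀ n : ℤ, z ≠ n := by
    intro n h
    have := hhalf n
    rw [h, sub_self, norm_zero] at this
    norm_num at this
  have hinj : ∀ n, Set.InjOn lam (S n) := fun n a _ b _ hab => by
    have h1 := congrArg Complex.re hab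
    rw [hre, hre] at h1
    exact_mod_cast h1
  have hni : ∀ n, ∀ t ∈ S n, ∀ j : ℤ, lam t ≠ j := fun n t ht j =>
    lam_ne lam (him n t ht).1 (by simp)
  have hzl : ∀ n, ∀ t ∈ S n, z ≠ lam t := fun n t ht => (lam_ne lam (him n t ht).1 hzim).symm
  have hR1 : ∀ᶠ n in atTop, 1 ≤ R n := hR.eventually_ge_atTop 1
  have hRz : ∀ᶠ n in atTop, ‖z‖ ≤ R n :=
    (tendsto_natCast_atTop_atTop.comp hR).eventually_ge_atTop ‖z‖
  have hτlim : Tendsto τ atTop (𝓝 0) := by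
    refine squeeze_zero' (Eventually.of_forall hτ0) ?_ l1
    filter_upwards [hR1] with n hn
    refine le_mul_of_one_le_right (hτ0 n) ?_
    rw [Real.one_le_sqrt]
    exact_mod_cast hn
  have sx : Summable fun t => ‖x t‖ ^ 2 := summable_of_sum_le (fun _ => by positivity) hx
  have sy : Summable fun t => ‖y t‖ ^ 2 := summable_of_sum_le (fun _ => by positivity) hy
  have sz : Summable fun t : ℤ => ‖z - t‖⁻¹ ^ 2 := by
    have h2 : Summable fun j : ℤ => 1 / |(j : ℝ) + -((m : ℝ) + 1 / 2)| ^ (2 : ℝ) :=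
      (Real.summable_one_div_int_add_rpow _ 2).mpr (by norm_num)
    refine h2.congr fun t => ?_
    have h3 : z - t = ((-((t : ℝ) + -((m : ℝ) + 1 / 2)) : ℝ) : ℂ) := by
      rw [hz]
      push_cast
      ring
    rw [h3, Complex.norm_real, Real.norm_eq_abs, abs_neg, Real.rpow_two, inv_pow, one_div]
  have sY : Summable fun t : ℤ => y t / (z - t) := by
    refine Summable.of_norm_bounded (sy.add sz) fun t => ?_
    rw [norm_div, div_eq_mul_inv]
    nlinarith [sq_nonneg (‖y t‖ - ‖z - t‖⁻¹), norm_nonneg (y t), inv_nonneg.mpr (norm_nonneg (z - t))]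
  have sΦ : Summable fun t : ℤ => x t * y t / (z - t) := by
    refine Summable.of_norm_bounded (sx.add sy) fun t => ?_
    rw [norm_div, norm_mul, div_le_iff₀ (by linarith [hhalf t])]
    nlinarith [sq_nonneg (‖x t‖ - ‖y t‖), hhalf t, sq_nonneg ‖x t‖, sq_nonneg ‖y t‖]
  have tY : Tendsto (fun n => ∑ a ∈ Finset.Icc (-(R n : ℤ)) (R n), y a / (z - a)) atTop
      (𝓝 (Ch y z)) := sY.hasSum.comp (tendsto_Icc hR)
  have tΦ : Tendsto (fun n => ∑ a ∈ Finset.Icc (-(R n : ℤ)) (R n), x a * y a / (z - a)) atTop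
      (𝓝 (Ch (fun t => x t * y t) z)) := sΦ.hasSum.comp (tendsto_Icc hR)
  have tK : Tendsto (fun n => ∑ t ∈ insert 0 (S n), g t * x t / (z - t)) atTop
      (𝓝 (Ch (fun t => g t * x t) z)) := by
    rw [tendsto_iff_norm_sub_tendsto_zero]
    refine squeeze_zero' (Eventually.of_forall fun _ => norm_nonneg _) ?_
      (by simpa using hτlim.mul_const M)
    filter_upwards [hRz] with n hn
    rw [norm_sub_rev]
    exact tailK g x _ hM (hτ0 n) hx z (hτ n z hn)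
  have hRw : ∀ᶠ n in atTop, |(m : ℝ) + 1 / 2| ≤ R n := by
    filter_upwards [hRz] with n hn
    rwa [← hzr, Complex.norm_real, Real.norm_eq_abs] at hn
  have tρ : Tendsto (fun n => ρ n z) atTop (𝓝 1) := by
    rw [tendsto_iff_norm_sub_tendsto_zero]
    refine squeeze_zero' (Eventually.of_forall fun _ => norm_nonneg _) ?_ hδ
    filter_upwards [hRw] with n hn
    have := hρ n _ hn
    rwa [hzr] at this
  have te1 : Tendsto (fun n => ∑ a ∈ Finset.Icc (-(R n : ℤ)) (R n),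
      y a * (zS (S n) lam (fun t => g t * x t) a - x a) / (z - a)) atTop (𝓝 0) := by
    refine squeeze_zero_norm' (hR1.mono e1b) ?_
    simpa using (hδ.const_mul (2 * M ^ 2)).add (l1.const_mul ((1 + 2 * ‖z‖) * M ^ 2 * 2))
  have te2 : Tendsto (fun n => ∑ t ∈ S n, rS (S n) lam t *
      (∑ u ∈ insert 0 (S n), g u * x u / (lam t - u)) *
        (∑ a ∈ Finset.Icc (-(R n : ℤ)) (R n), y a / (lam t - a)) / (z - lam t)) atTop (𝓝 0) := by
    refine squeeze_zero_norm' (hR1.mono e2b) ?_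
    simpa using (l2.const_mul ((1 + ‖z‖) * M ^ 2 * C)).add (l3.const_mul ((1 + ‖z‖) * M ^ 2 * 4))
  have lhs := (tK.mul tY).mul tρ
  have rhs := ((tΦ.add te1).add te2).const_mul (Ch g z)
  rw [mul_one] at lhs
  rw [add_zero, add_zero] at rhs
  refine tendsto_nhds_unique_of_eventuallyEq lhs rhs ?_
  filter_upwards [hRw] with n hn
  have h1 := hβρ n _ hn (fun t _ h => hzn t (by rw [← hzr, h]; simp))
  rw [hzr] at h1
  have h2 := hoff (S n) lam (fun t => g t * x t) (h0 n) (hinj n) (hni n) z (fun t _ => hzn t)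
    (hzl n)
  have h3 := hmul (S n) (Finset.Icc (-(R n : ℤ)) (R n)) lam (fun t => g t * x t) y (hni n) z hzn
    (hzl n)
  have h4 : ∑ a ∈ Finset.Icc (-(R n : ℤ)) (R n), x a * y a / (z - a) +
      ∑ a ∈ Finset.Icc (-(R n : ℤ)) (R n),
        y a * (zS (S n) lam (fun t => g t * x t) a - x a) / (z - a) =
      ∑ a ∈ Finset.Icc (-(R n : ℤ)) (R n), y a * zS (S n) lam (fun t => g t * x t) a / (z - a) := by
    rw [← sum_add_distrib]
    refine sum_congr rfl fun a _ => ?_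
    ring
  rw [h4, ← h3, h1, ← h2]
  ring

end Pool.Agent.H590Z.HC.H216I
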