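import Pool.Agent.H216Z.HCIdent
import Pool.Agent.H481Z.PF

set_option autoImplicit false
set_option linter.all false

open Finset Filter Topology

namespace Pool.Agent.H590Z.HC

theorem ident (N : Set ℤ) (lam g x y : ℤ → ℂ) (S : ℕ → Finset ℤ) (R : ℕ → ℕ) (ρ : ℕ → ℂ → ℂ)
    (δ τ : ℕ → ℝ) (κ : ℤ → ℝ) (M : ℝ) (m : ℤ)
    (hx : ∀ F : Finset ℤ, ∑ n ∈ F, ‖x n‖ ^ 2 ≤ M ^ 2) (hy : ∀ F : Finset ℤ, ∑ n ∈ F, ‖y n‖ ^ 2 ≤ M ^ 2)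
    (hM : 0 ≤ M) (hg0 : ∀ n, n ∉ N → g n = 0) (hg : Summable fun t : ℤ => ‖g t‖ / (1 + |(t : ℝ)|))
    (hre : ∀ n, (lam n).re = n) (h0 : ∀ n, 0 ∉ S n)
    (hS : ∀ n t, t ∈ insert 0 (S n) ↔ (t ∈ N ∧ |t| ≤ R n)) (hR : Tendsto R atTop atTop)
    (him : ∀ n, ∀ t ∈ S n, 1 ≤ |(lam t).im| ∧ 2 * ‖lam t‖ ≤ R n)
    (hgρ : ∀ n, ∀ t ∈ insert 0 (S n), g t = gS (S n) lam t * ρ n t)
    (hβρ : ∀ n, ∀ w : ℝ, |w| ≤ R n → (∀ t ∈ N, w ≠ t) → Ch g w = bS (S n) lam w * ρ n w)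
    (hρ : ∀ n, ∀ w : ℝ, |w| ≤ R n → ‖ρ n w - 1‖ ≤ δ n) (hδ : Tendsto δ atTop (𝓝 0))
    (hτ0 : ∀ n, 0 ≤ τ n)
    (hτ : ∀ n, ∀ w : ℂ, ‖w‖ ≤ R n → ∀ F : Finset ℤ, (∀ t ∈ F, t ∉ insert 0 (S n)) →
      ∑ t ∈ F, ‖g t‖ ^ 2 / ‖w - t‖ ^ 2 ≤ τ n ^ 2)
    (hκ0 : ∀ t, 0 ≤ κ t)
    (hκ : ∀ n, ∀ t ∈ S n, ∀ F : Finset ℤ, ∑ u ∈ F, ‖g u‖ ^ 2 / ‖lam t - u‖ ^ 2 ≤ κ t ^ 2)
    (l1 : Tendsto (fun n => τ n * √(R n)) atTop (𝓝 0))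
    (l2 : Tendsto (fun n => τ n * ∑ t ∈ S n, ‖rS (S n) lam t‖ / ‖lam t‖) atTop (𝓝 0))
    (l3 : Tendsto (fun n => (∑ t ∈ S n, ‖rS (S n) lam t‖ * κ t / ‖lam t‖) / √(R n)) atTop (𝓝 0))
    (hI : ∀ n, n ∉ N → y n ≠ 0 → x n * Ch g n = Ch (fun t => g t * x t) n)
    (hZ : ∀ t ∈ N, t ≠ 0 → Ch (fun u => g u * x u) (lam t) * Ch y (lam t) = 0) :
    Ch (fun t => g t * x t) ((m : ℂ) + 1 / 2) * Ch y ((m : ℂ) + 1 / 2) =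
      Ch g ((m : ℂ) + 1 / 2) * Ch (fun t => x t * y t) ((m : ℂ) + 1 / 2) :=
  H216I.ident_of (fun S lam k a b c w d e => pf_off S lam k a b c w d e)
    (fun S lam k a b c t d => pf_on S lam k a b c t d)
    (fun S F lam k y a z b c => pf_mul S F lam k y a z b c)
    N lam g x y S R ρ δ τ κ M m hx hy hM hre h0 hS hR him hgρ hβρ hρ hδ hτ0 hτ hκ0 hκ l1 l2 l3 hI hZ

end Pool.Agent.H590Z.HC
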