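import Pool.Agent.H123Z.GSC.Defs

set_option autoImplicit false
set_option linter.all false

namespace Pool.Agent.H216Z.Jac

open PowerSeries

section

variable {R : Type} [CommRing R]

/-- The ring map to dual numbers given by the derivative. -/
noncomputable def dual (R : Type) [CommRing R] : R⟦X⟧ →+* DualNumber R⟦X⟧ where
  toFun s := TrivSqZeroExt.inl s + TrivSqZeroExt.inr (derivative R s)
  map_one' := by
    ext1 <;> simp
  map_mul' x y := by
    ext1
    · simp
    · simp [Derivation.leibniz, mul_comm]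
  map_zero' := by
    ext1 <;> simp
  map_add' x y := by
    ext1 <;> simp

theorem dual_apply (s : R⟦X⟧) :
    dual R s = algebraMap R⟦X⟧ (DualNumber R⟦X⟧) s +
      DualNumber.eps * algebraMap R⟦X⟧ (DualNumber R⟦X⟧) (derivative R s) := by
  change TrivSqZeroExt.inl s + TrivSqZeroExt.inr (derivative R s) = _
  ext1 <;> simp [TrivSqZeroExt.algebraMap_eq_inl]

variable {α : Type} [Fintype α] [DecidableEq α]

theorem jac_gen (A G : Matrix α α R⟦X⟧) (hAG : A * G = 1) :
    derivative R A.det = A.det * Matrix.trace (G * A.map (derivative R)) := by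
  let ι := algebraMap R⟦X⟧ (DualNumber R⟦X⟧)
  have h1 : A.map (dual R) = A.map ι *
      (1 + (DualNumber.eps : DualNumber R⟦X⟧) • (G * A.map (derivative R)).map ι) := by
    rw [mul_add, mul_one, Matrix.mul_smul, ← Matrix.map_mul, ← mul_assoc, hAG, one_mul]
    ext1 i j
    simp only [Matrix.map_apply, Matrix.add_apply, Matrix.smul_apply, smul_eq_mul, dual_apply, ι]
  have h2 := RingHom.map_det (dual R) A
  rw [RingHom.mapMatrix_apply, h1, Matrix.det_mul, Matrix.det_one_add_smul,
    pow_two, DualNumber.eps_mul_eps, mul_zero, add_zero, ← RingHom.mapMatrix_apply,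
    ← RingHom.map_det, ← AddMonoidHom.map_trace, dual_apply] at h2
  have h3 := congrArg TrivSqZeroExt.snd h2
  simpa [ι, TrivSqZeroExt.algebraMap_eq_inl] using h3

/-- The determinant series. -/
noncomputable def del (M : Matrix α α R) : R⟦X⟧ :=
  Matrix.det (1 - (X : R⟦X⟧) • M.map (C : R →+* R⟦X⟧))

/-- The trace series. -/
noncomputable def trs (M : Matrix α α R) : R⟦X⟧ := mk fun k => Matrix.trace (M ^ (k + 1))

/-- The geometric series of a matrix. -/
noncomputable def geo (M : Matrix α α R) : Matrix α α R⟦X⟧ :=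
  Matrix.of fun i j => mk fun k => (M ^ k) i j

theorem mul_geo (M : Matrix α α R) (i j : α) :
    (M.map (C : R →+* R⟦X⟧) * geo M) i j = mk fun k => (M ^ (k + 1)) i j := by
  ext k
  simp only [Matrix.mul_apply, Matrix.map_apply, geo, Matrix.of_apply, map_sum, coeff_C_mul,
    coeff_mk, pow_succ']

theorem geo_mul (M : Matrix α α R) (i j : α) :
    (geo M * M.map (C : R →+* R⟦X⟧)) i j = mk fun k => (M ^ (k + 1)) i j := by
  ext k
  simp only [Matrix.mul_apply, Matrix.map_apply, geo, Matrix.of_apply, map_sum, coeff_mul_C,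
    coeff_mk, pow_succ]

theorem geo_inv (M : Matrix α α R) :
    (1 - (X : R⟦X⟧) • M.map (C : R →+* R⟦X⟧)) * geo M = 1 := by
  rw [sub_mul, one_mul, Matrix.smul_mul]
  ext i j k
  rw [Matrix.sub_apply, Matrix.smul_apply, mul_geo, smul_eq_mul, map_sub]
  cases k with
  | zero =>
    simp only [geo, Matrix.of_apply, coeff_mk, pow_zero, coeff_zero_X_mul, sub_zero,
      Matrix.one_apply]
    split_ifs <;> simp
  | succ k =>
    simp only [geo, Matrix.of_apply, coeff_mk, coeff_succ_X_mul, sub_self, Matrix.one_apply]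
    split_ifs <;> simp [coeff_one]

theorem jac_del (M : Matrix α α R) : derivative R (del M) = -(del M * trs M) := by
  have h1 := jac_gen _ _ (geo_inv M)
  have h2 : (1 - (X : R⟦X⟧) • M.map (C : R →+* R⟦X⟧)).map (derivative R) =
      -M.map (C : R →+* R⟦X⟧) := by
    ext1 i j
    simp only [Matrix.map_apply, Matrix.sub_apply, Matrix.smul_apply, smul_eq_mul, Matrix.neg_apply,
      map_sub, Derivation.leibniz, derivative_C, derivative_X, Matrix.one_apply]
    split_ifs <;> simp
  rw [del, h1, h2, Matrix.mul_neg, Matrix.trace_neg, mul_neg]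
  congr 2
  ext k
  simp only [Matrix.trace, Matrix.diag_apply, geo_mul, map_sum, coeff_mk, trs]

theorem del_const (M : Matrix α α R) : constantCoeff (del M) = 1 := by
  rw [del, RingHom.map_det]
  have : (constantCoeff (R := R)).mapMatrix (1 - (X : R⟦X⟧) • M.map (C : R →+* R⟦X⟧)) = 1 := by
    ext i j
    simp only [RingHom.mapMatrix_apply, Matrix.map_apply, Matrix.sub_apply, Matrix.smul_apply,
      smul_eq_mul, map_sub, map_mul, constantCoeff_X, zero_mul, sub_zero, Matrix.one_apply]
    split_ifs <;> simp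
  rw [this, Matrix.det_one]

theorem coe_det (M : Matrix α α R) :
    ((Matrix.det (1 - (Polynomial.X : Polynomial R) • M.map Polynomial.C) : Polynomial R) :
      R⟦X⟧) = del M := by
  rw [← Polynomial.coeToPowerSeries.ringHom_apply, RingHom.map_det, del]
  congr 1
  ext1 i j
  simp only [RingHom.mapMatrix_apply, Matrix.map_apply, Matrix.sub_apply, Matrix.smul_apply,
    smul_eq_mul, map_sub, map_mul, Polynomial.coeToPowerSeries.ringHom_apply, Polynomial.coe_X,
    Polynomial.coe_C, Matrix.one_apply]
  split_ifs <;> simp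

end

theorem ode_unique (f g t : ℝ⟦X⟧) (hf : derivative ℝ f = -(f * t)) (hg : derivative ℝ g = -(g * t))
    (h0 : constantCoeff f = constantCoeff g) : f = g := by
  ext n
  induction n using Nat.strong_induction_on with
  | _ n ih =>
    cases n with
    | zero => simpa using h0
    | succ n =>
      have h1 := congrArg (coeff n) hf
      have h2 := congrArg (coeff n) hg
      rw [coeff_derivative, map_neg, coeff_mul] at h1 h2
      have h3 : ∑ p ∈ Finset.HasAntidiagonal.antidiagonal n, coeff p.1 f * coeff p.2 t =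
          ∑ p ∈ Finset.HasAntidiagonal.antidiagonal n, coeff p.1 g * coeff p.2 t := by
        refine Finset.sum_congr rfl fun p hp => ?_
        rw [Finset.HasAntidiagonal.mem_antidiagonal] at hp
        rw [ih p.1 (by omega)]
      rw [h3, ← h2] at h1
      exact mul_right_cancel₀ (by positivity) h1

end Pool.Agent.H216Z.Jac

namespace Pool.Agent.H123Z.GSC

theorem jacobi : JacobiR ∧
    ∀ (R α β : Type) [CommRing R] [Fintype α] [DecidableEq α] [Fintype β] [DecidableEq β]
      (M : Matrix α α R) (N : Matrix β β R),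
      Matrix.det (1 - (Polynomial.X : Polynomial R) • M.map Polynomial.C) =
        Matrix.det (1 - (Polynomial.X : Polynomial R) • N.map Polynomial.C) →
      ∀ k, 0 < k → Matrix.trace (M ^ k) = Matrix.trace (N ^ k) := by
  constructor
  · intro α β _ _ _ _ M N h
    apply Polynomial.coe_injective
    change ((Matrix.det (1 - (Polynomial.X : Polynomial ℝ) • M.map Polynomial.C) : Polynomial ℝ) :
      PowerSeries ℝ) = ((Matrix.det (1 - (Polynomial.X : Polynomial ℝ) • N.map Polynomial.C) :
      Polynomial ℝ) : PowerSeries ℝ)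
    rw [H216Z.Jac.coe_det, H216Z.Jac.coe_det]
    have ht : H216Z.Jac.trs N = H216Z.Jac.trs M := by
      ext k
      simp only [H216Z.Jac.trs, PowerSeries.coeff_mk, h (k + 1) (Nat.succ_pos k)]
    refine H216Z.Jac.ode_unique _ _ (H216Z.Jac.trs M) (H216Z.Jac.jac_del M) ?_ ?_
    · rw [← ht]
      exact H216Z.Jac.jac_del N
    · rw [H216Z.Jac.del_const, H216Z.Jac.del_const]
  · intro R α β _ _ _ _ _ M N h k hk
    have h1 : H216Z.Jac.del M = H216Z.Jac.del N := by
      rw [← H216Z.Jac.coe_det, ← H216Z.Jac.coe_det, h]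
    have h2 := H216Z.Jac.jac_del M
    have h3 := H216Z.Jac.jac_del N
    rw [← h1, h2, neg_inj] at h3
    have hu : IsUnit (H216Z.Jac.del M) := by
      rw [PowerSeries.isUnit_iff_constantCoeff, H216Z.Jac.del_const]
      exact isUnit_one
    have h4 := hu.mul_left_cancel h3
    obtain ⟨j, rfl⟩ : ∃ j, k = j + 1 := ⟨k - 1, by omega⟩
    simpa [H216Z.Jac.trs] using congrArg (PowerSeries.coeff j) h4

end Pool.Agent.H123Z.GSC
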