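import Mathlib

set_option autoImplicit false

/-!
Deterministic part for the soldiers automaton with one-way noise.

In the frame moving left at speed one (`u = i + t`), write `m t u` for a minus at time `t`
and place `u`, and `nz t u` for a noise event forcing a plus at time `t + 1` and place `u`.
-/

namespace Pool.Agent.H216Z.Sold

/-- the rule in the moving frame -/
def Rule (m nz : ℕ → ℤ → Prop) : Prop :=
  ∀ t u, m (t + 1) u → ¬ nz t u ∧
    ((¬ m t (u - 1) ∧ m t u ∧ m t (u + 2)) ∨ (m t (u - 1) ∧ (m t (u - 2) ∨ m t (u - 4))))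

/-- no minus below `a` in the parity class of `a` -/
def Cl (m : ℕ → ℤ → Prop) (a : ℤ) (t : ℕ) : Prop :=
  ∀ u, u < a → (a - u) % 2 = 0 → ¬ m t u

variable {m nz : ℕ → ℤ → Prop}

theorem cl_succ (h : Rule m nz) {a : ℤ} {t : ℕ} (ha : Cl m a t) : Cl m a (t + 1) := by
  intro u hu hp hm
  rcases (h t u hm).2 with ⟨_, h2, _⟩ | ⟨_, h2 | h2⟩
  · exact ha u hu hp h2
  · exact ha (u - 2) (by omega) (by omega) h2
  · exact ha (u - 4) (by omega) (by omega) h2

theorem cl_add (h : Rule m nz) {a : ℤ} {t : ℕ} (ha : Cl m a t) (s : ℕ) : Cl m a (t + s) := by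
  induction s with
  | zero => exact ha
  | succ s ih => exact cl_succ h ih

theorem cl_push (h : Rule m nz) {b : ℤ} {t : ℕ} (hb : Cl m b t) (hm : m t (b - 1)) :
    Cl m (b + 2) (t + 1) := by
  intro u hu hp hu'
  by_cases hub : u < b
  · exact cl_succ h hb u hub (by omega) hu'
  · have : u = b := by omega
    subst this
    rcases (h t u hu').2 with ⟨h1, _, _⟩ | ⟨_, h2 | h2⟩
    · exact h1 hm
    · exact hb (u - 2) (by omega) (by omega) h2
    · exact hb (u - 4) (by omega) (by omega) h2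

theorem back (h : Rule m nz) {b : ℤ} {t : ℕ} (hb : Cl m b t) {u : ℤ} (hu : u ≤ b)
    (hp : (b - u) % 2 = 1) (hm : m (t + 1) u) : ¬ nz t u ∧ m t u ∧ m t (u + 2) := by
  obtain ⟨h1, h2 | h2⟩ := h t u hm
  · exact ⟨h1, h2.2⟩
  · exact absurd h2.1 (hb (u - 1) (by omega) (by omega))

theorem wedge (h : Rule m nz) {b : ℤ} {t : ℕ} (hb : Cl m b t) (hm : ¬ m t (b - 1)) (s : ℕ) :
    ∀ u, (b - u) % 2 = 1 → b - 1 - 2 * s ≤ u → u ≤ b - 1 → ¬ m (t + s) u := by
  induction s with
  | zero =>
    intro u _ h1 h2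
    have : u = b - 1 := by push_cast at h1; omega
    subst this
    exact hm
  | succ s ih =>
    intro u hp h1 h2 hu
    obtain ⟨_, h3, h4⟩ := back h (cl_add h hb s) (by omega) hp hu
    push_cast at h1
    by_cases hc : b - 1 - 2 * s ≤ u
    · exact ih u hp hc h2 h3
    · exact ih (u + 2) (by omega) (by omega) (by omega) h4

theorem triangle (h : Rule m nz) {b : ℤ} {t : ℕ} (hb : Cl m b t) (s : ℕ) :
    ∀ u, (b - u) % 2 = 1 → u + 2 * s ≤ b → m (t + s) u →
      ∀ r j : ℕ, r + j < s → ¬ nz (t + r) (u + 2 * j) := by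
  induction s with
  | zero => intro u _ _ _ r j hrj; omega
  | succ s ih =>
    intro u hp h1 hu r j hrj
    push_cast at h1
    obtain ⟨h2, h3, h4⟩ := back h (cl_add h hb s) (by omega) hp hu
    rcases Nat.eq_zero_or_pos j with rfl | hj
    · by_cases hr : r = s
      · subst hr
        simpa using h2
      · exact ih u hp (by omega) h3 r 0 (by omega)
    · obtain ⟨j, rfl⟩ : ∃ j', j = j' + 1 := ⟨j - 1, by omega⟩
      have := ih (u + 2) (by omega) (by omega) h4 r j (by omega)
      have e : u + 2 * ((j + 1 : ℕ) : ℤ) = u + 2 + 2 * (j : ℤ) := by push_cast; ring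
      rw [e]
      exact this

/-- the invariant -/
def Good (m : ℕ → ℤ → Prop) (g : ℕ) (t : ℕ) : Prop :=
  ∃ a b : ℤ, a < b ∧ a + b = 2 * t + 3 ∧ b - a ≤ 8 * g + 1 ∧ Cl m a t ∧ Cl m b t

theorem good_step (h : Rule m nz) {g : ℕ} (hg : 1 ≤ g) {t : ℕ}
    (hsq : ∀ u : ℤ, t - 4 * g ≤ u → u ≤ t + 4 * g + 1 →
      ∃ r j : ℕ, r < g ∧ j < g ∧ nz (t + r) (u + 2 * j))
    (hG : Good m g t) : ∃ s : ℕ, 1 ≤ s ∧ s ≤ 4 * g ∧ Good m g (t + s) := by
  obtain ⟨a, b, hab, hsum, hgap, ha, hb⟩ := hG
  by_cases h0 : b - a = 8 * g + 1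
  · refine ⟨2 * g, by omega, by omega, a + 4 * g, b, by omega, by push_cast; omega, by omega, ?_,
      cl_add h hb _⟩
    intro u hu hp hm
    by_cases hua : u < a
    · exact cl_add h ha _ u hua (by omega) hm
    · obtain ⟨r, j, hr, hj, hnz⟩ := hsq u (by omega) (by omega)
      exact triangle h hb (2 * g) u (by omega) (by push_cast; omega) hm r j (by omega) hnz
  · by_cases h1 : m t (b - 1)
    · exact ⟨1, le_rfl, by omega, a, b + 2, by omega, by push_cast; omega, by omega,
        cl_succ h ha, cl_push h hb h1⟩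
    · obtain ⟨s, hs⟩ : ∃ s : ℕ, b - 1 - a = 2 * s := ⟨((b - 1 - a) / 2).toNat, by omega⟩
      refine ⟨s + 1, by omega, by omega, b, b + 1, by omega, by push_cast; omega, by omega,
        cl_add h hb _, ?_⟩
      have : Cl m (b + 1) (t + s) := by
        intro u hu hp hm
        by_cases hua : u < a
        · exact cl_add h ha _ u hua (by omega) hm
        · exact wedge h hb h1 s u (by omega) (by omega) (by omega) hm
      exact cl_succ h this

theorem halfline_frame (h : Rule m nz) {g : ℕ} (hg : 1 ≤ g) {M : ℕ}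
    (hsq : ∀ t ≤ M, ∀ u : ℤ, t - 4 * g ≤ u → u ≤ t + 4 * g + 1 →
      ∃ r j : ℕ, r < g ∧ j < g ∧ nz (t + r) (u + 2 * j))
    (h0 : ∀ u ≤ 0, ¬ m 0 u) : ∀ T ≤ M, ∀ u : ℤ, u ≤ T - 8 * g → ¬ m T u := by
  have key : ∀ T ≤ M, ∃ t, t ≤ T ∧ T < t + 4 * g ∧ Good m g t := by
    intro T
    induction T with
    | zero =>
      intro _
      refine ⟨0, le_rfl, by omega, 1, 2, by norm_num, by norm_num, by omega, ?_, ?_⟩
      · intro u hu _; exact h0 u (by omega)
      · intro u hu hp; exact h0 u (by omega)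
    | succ T ih =>
      intro hT
      obtain ⟨t, h1, h2, hG⟩ := ih (by omega)
      by_cases hc : T + 1 < t + 4 * g
      · exact ⟨t, by omega, hc, hG⟩
      · obtain ⟨s, hs1, hs2, hG'⟩ := good_step h hg (hsq t (by omega)) hG
        exact ⟨t + s, by omega, by omega, hG'⟩
  intro T hT u hu
  obtain ⟨t, h1, h2, a, b, hab, hsum, hgap, ha, hb⟩ := key T hT
  obtain ⟨s, rfl⟩ : ∃ s, T = t + s := ⟨T - t, by omega⟩
  push_cast at hu
  by_cases hp : (a - u) % 2 = 0
  · exact cl_add h ha s u (by omega) hp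
  · exact cl_add h hb s u (by omega) (by omega)

/-- the soldiers rule -/
def step (x : ℤ → Bool) (i : ℤ) : Bool :=
  (x i && (x (i + 1) || x (i + 3))) || (!x i && x (i - 1) && x (i - 3))

/-- A half-line of pluses recedes by at most `8 g` as long as every `g` by `g` parallelogram
contains noise. -/
theorem halfline {Y ζ : ℕ → ℤ → Bool} (hY : ∀ t i, Y (t + 1) i = (step (Y t) i || ζ t i))
    {g : ℕ} (hg : 1 ≤ g) {M : ℕ} {r : ℤ}
    (hsq : ∀ t ≤ M, ∀ i : ℤ, r - 4 * g - 1 ≤ i → i ≤ r + 4 * g →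
      ∃ p j : ℕ, p < g ∧ j < g ∧ ζ (t + p) (i + 2 * j - p) = true)
    (h0 : ∀ i ≤ r, Y 0 i = true) : ∀ T ≤ M, ∀ i : ℤ, i ≤ r - 8 * g → Y T i = true := by
  have hR : Rule (fun t u => Y t (r + u - t) = false) (fun t u => ζ t (r + u - t - 1) = true) := by
    intro t u hm
    simp only at hm ⊢
    rw [hY] at hm
    have e0 : r + u - ((t + 1 : ℕ) : ℤ) = r + u - t - 1 := by push_cast; ring
    rw [e0] at hm
    have e1 : r + (u - 1) - t = r + u - t - 1 := by ring
    have e2 : r + u - t = r + u - t - 1 + 1 := by ring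
    have e3 : r + (u + 2) - t = r + u - t - 1 + 3 := by ring
    have e4 : r + (u - 2) - t = r + u - t - 1 - 1 := by ring
    have e5 : r + (u - 4) - t = r + u - t - 1 - 3 := by ring
    rw [e1, e3, e4, e5]
    generalize hi : r + u - t - 1 = i at hm ⊢
    have e6 : r + u - t = i + 1 := by omega
    rw [e6]
    unfold step at hm
    revert hm
    cases Y t i <;> cases Y t (i + 1) <;> cases Y t (i + 3) <;> cases Y t (i - 1) <;>
      cases Y t (i - 3) <;> cases ζ t i <;> simp
  have := halfline_frame hR hg (M := M) (by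
    intro t ht u h1 h2
    obtain ⟨p, j, hp, hj, hz⟩ := hsq t ht (r + u - t - 1) (by omega) (by omega)
    refine ⟨p, j, hp, hj, ?_⟩
    have e : r + (u + 2 * j) - ((t + p : ℕ) : ℤ) - 1 = r + u - t - 1 + 2 * j - p := by
      push_cast; ring
    rw [e]
    exact hz) (by
    intro u hu
    rw [h0 _ (by push_cast; omega)]
    simp)
  intro T hT i hi
  have h2 := this T hT (i - r + T) (by omega)
  have e : r + (i - r + T) - T = i := by ring
  rw [e] at h2
  simpa using h2

/-- An island of `8 g + 3` pluses keeps its three leftmost cells. -/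
theorem island {X ξ : ℕ → ℤ → Bool} (hX : ∀ t i, X (t + 1) i = (step (X t) i || ξ t i))
    {g : ℕ} (hg : 1 ≤ g) {M : ℕ} {l : ℤ}
    (hsq : ∀ t ≤ M, ∀ i : ℤ, l ≤ i → i ≤ l + 12 * g + 2 →
      ∃ p j : ℕ, p < g ∧ j < g ∧ ξ (t + p) (i + 2 * j - p) = true)
    (h0 : ∀ i, l ≤ i → i ≤ l + 8 * g + 2 → X 0 i = true) :
    ∀ T ≤ M, X T (l + 2) = true := by
  classical
  let ζ : ℕ → ℤ → Bool := fun t i => ξ t i || decide (i < l)
  let Y : ℕ → ℤ → Bool := fun t => Nat.rec (fun i => X 0 i || decide (i < l))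
    (fun t y i => step y i || ζ t i) t
  have hY : ∀ t i, Y (t + 1) i = (step (Y t) i || ζ t i) := fun _ _ => rfl
  have hY0 : ∀ i, Y 0 i = (X 0 i || decide (i < l)) := fun _ => rfl
  have hh := halfline hY hg (M := M) (r := l + 8 * g + 2) (by
    intro t ht i h1 h2
    obtain ⟨p, j, hp, hj, hz⟩ := hsq t ht i (by omega) (by omega)
    exact ⟨p, j, hp, hj, by simp [ζ, hz]⟩) (by
    intro i hi
    rw [hY0]
    by_cases hil : i < l
    · simp [hil]
    · simp [h0 i (by omega) hi])
  have hXY : ∀ T ≤ M, ∀ i, l ≤ i → X T i = Y T i := by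
    intro T
    induction T with
    | zero =>
      intro _ i hi
      rw [hY0]
      have : ¬ i < l := by omega
      simp [this]
    | succ T ih =>
      intro hT i hi
      have ih' := ih (by omega)
      rw [hX, hY]
      have hz : ζ T i = ξ T i := by
        have : ¬ i < l := by omega
        simp [ζ, this]
      rw [hz]
      congr 1
      unfold step
      rw [ih' i hi, ih' (i + 1) (by omega), ih' (i + 3) (by omega)]
      by_cases hc : i ≤ l + 2
      · rw [hh T (by omega) i (by omega)]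
        simp
      · rw [ih' (i - 1) (by omega), ih' (i - 3) (by omega)]
  intro T hT
  rw [hXY T hT _ (by omega)]
  exact hh T hT _ (by omega)

/-- The island grows to the left. -/
theorem grow {X ξ : ℕ → ℤ → Bool} (hX : ∀ t i, X (t + 1) i = (step (X t) i || ξ t i))
    {M L : ℕ} {c : ℤ} (hc : ∀ T ≤ M, X T c = true) (K : ℕ)
    (hv : ∀ k < K, ∃ p < L, ξ (k * L + p) (c - k - 1) = true) :
    ∀ T, K * L ≤ T → T ≤ M → X T (c - K) = true := by
  induction K with
  | zero => intro T _ hT; simpa using hc T hT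
  | succ K ih =>
    have ih' := ih (fun k hk => hv k (by omega))
    obtain ⟨p, hp, hz⟩ := hv K (by omega)
    have e : c - ((K + 1 : ℕ) : ℤ) = c - K - 1 := by push_cast; ring
    rw [e]
    have key : ∀ s, K * L + p + 1 + s ≤ M → X (K * L + p + 1 + s) (c - K - 1) = true := by
      intro s
      induction s with
      | zero => intro _; rw [add_zero, hX, hz]; simp
      | succ s ihs =>
        intro hs
        rw [← add_assoc, hX]
        unfold step
        have e2 : c - K - 1 + 1 = c - K := by ring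
        rw [ihs (by omega), e2, ih' _ (by omega) (by omega)]
        simp
    intro T h1 h2
    have h3 : (K + 1) * L = K * L + L := by ring
    obtain ⟨s, rfl⟩ : ∃ s, T = K * L + p + 1 + s := ⟨T - (K * L + p + 1), by omega⟩
    exact key s h2

end Pool.Agent.H216Z.Sold
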