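import Pool.Agent.H216Z.SoldDet

set_option autoImplicit false

/-! Probabilistic part for the soldiers automaton with one-way noise. -/

open MeasureTheory ProbabilityTheory Filter Topology

namespace Pool.Agent.H216Z.Sold

section prob

variable {Ω : Type} [MeasurableSpace Ω] {P : Measure Ω} [IsProbabilityMeasure P] {δ : ℝ}
  {ξ : ℕ → ℤ → Ω → Bool}

theorem all_eq (hind : iIndepFun (fun p : ℕ × ℤ => ξ p.1 p.2) P) (b : Bool) (c : ENNReal)
    (hc : ∀ n i, P {ω | ξ n i ω = b} = c) (S : Finset (ℕ × ℤ)) :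
    P {ω | ∀ p ∈ S, ξ p.1 p.2 ω = b} = c ^ S.card := by
  have h := hind.measure_inter_preimage_eq_mul S (sets := fun _ => {b})
    (fun _ _ => measurableSet_singleton b)
  have e : {ω | ∀ p ∈ S, ξ p.1 p.2 ω = b} = ⋂ p ∈ S, (ξ p.1 p.2) ⁻¹' {b} := by
    ext ω; simp
  rw [e, h]
  rw [Finset.prod_congr rfl (g := fun _ => c) (fun p _ => hc p.1 p.2), Finset.prod_const]

theorem prob_false (hδ0 : 0 < δ) (hm : ∀ n i, Measurable (ξ n i))
    (hc : ∀ n i, P {ω | ξ n i ω = true} = ENNReal.ofReal δ) (n : ℕ) (i : ℤ) :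
    P {ω | ξ n i ω = false} = ENNReal.ofReal (1 - δ) := by
  have e : {ω | ξ n i ω = false} = {ω | ξ n i ω = true}ᶜ := by
    ext ω; simp
  have hms : MeasurableSet {ω | ξ n i ω = true} := hm n i (measurableSet_singleton true)
  rw [e, prob_compl_eq_one_sub hms, hc, ENNReal.ofReal_sub _ hδ0.le, ENNReal.ofReal_one]

theorem blocks (hδ0 : 0 < δ) (hδ1 : δ ≤ 1) (hm : ∀ n i, Measurable (ξ n i))
    (hind : iIndepFun (fun p : ℕ × ℤ => ξ p.1 p.2) P)
    (hc : ∀ n i, P {ω | ξ n i ω = true} = ENNReal.ofReal δ) (s : ℕ) (i₀ : ℤ) (N m : ℕ) :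
    P {ω | ∀ j < m, ∃ k < N, ξ s (i₀ + j * N + k) ω = false} =
      ENNReal.ofReal ((1 - δ ^ N) ^ m) := by
  classical
  induction m with
  | zero => simp
  | succ m ih =>
    let S : Finset (ℕ × ℤ) := (Finset.range (m * N)).image fun k : ℕ => (s, i₀ + k)
    let T : Finset (ℕ × ℤ) := (Finset.range N).image fun k : ℕ => (s, i₀ + m * N + k)
    have hST : Disjoint S T := by
      rw [Finset.disjoint_left]
      intro p hp hq
      simp only [S, T, Finset.mem_image, Finset.mem_range] at hp hq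
      obtain ⟨k, hk, rfl⟩ := hp
      obtain ⟨k', _, hk'⟩ := hq
      have h1 := congrArg Prod.snd hk'
      simp only at h1
      have : (k : ℤ) < (m * N : ℕ) := by exact_mod_cast hk
      push_cast at this
      omega
    have hI := hind.indepFun_finset S T hST (fun p => hm p.1 p.2)
    let A : Set (S → Bool) := {f | ∀ j < m, ∃ k < N, ∃ h : (s, i₀ + j * N + k) ∈ S,
      f ⟨_, h⟩ = false}
    let B : Set (T → Bool) := {f | ∀ p, f p = true}ᶜ
    have h1 := hI.measure_inter_preimage_eq_mul A B MeasurableSet.of_discrete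
      MeasurableSet.of_discrete
    have eA : (fun a (p : S) => ξ p.1.1 p.1.2 a) ⁻¹' A =
        {ω | ∀ j < m, ∃ k < N, ξ s (i₀ + j * N + k) ω = false} := by
      ext ω
      simp only [A, Set.mem_preimage, Set.mem_setOf_eq]
      constructor
      · intro h j hj
        obtain ⟨k, hk, _, h2⟩ := h j hj
        exact ⟨k, hk, h2⟩
      · intro h j hj
        obtain ⟨k, hk, h2⟩ := h j hj
        refine ⟨k, hk, ?_, h2⟩
        simp only [S, Finset.mem_image, Finset.mem_range]
        refine ⟨j * N + k, ?_, ?_⟩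
        · have : (j + 1) * N ≤ m * N := Nat.mul_le_mul_right _ hj
          nlinarith
        · push_cast; rw [add_assoc]
    have eB : (fun a (p : T) => ξ p.1.1 p.1.2 a) ⁻¹' B = {ω | ∀ p ∈ T, ξ p.1 p.2 ω = true}ᶜ := by
      ext ω
      simp [B]
    have hTc : T.card = N := by
      rw [Finset.card_image_of_injective _ (by
        intro a b hab
        have h1 := congrArg Prod.snd hab
        simp only at h1
        omega), Finset.card_range]
    have hmeas : MeasurableSet {ω | ∀ p ∈ T, ξ p.1 p.2 ω = true} := by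
      have e : {ω | ∀ p ∈ T, ξ p.1 p.2 ω = true} = ⋂ p ∈ T, (ξ p.1 p.2) ⁻¹' {true} := by
        ext ω; simp
      rw [e]
      exact T.measurableSet_biInter fun p _ => hm _ _ (measurableSet_singleton true)
    have hB : P ({ω | ∀ p ∈ T, ξ p.1 p.2 ω = true}ᶜ) = ENNReal.ofReal (1 - δ ^ N) := by
      rw [prob_compl_eq_one_sub hmeas, all_eq hind true _ hc T, hTc,
        ENNReal.ofReal_sub _ (by positivity), ENNReal.ofReal_one, ENNReal.ofReal_pow hδ0.le]
    have e : {ω | ∀ j < m + 1, ∃ k < N, ξ s (i₀ + j * N + k) ω = false} =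
        {ω | ∀ j < m, ∃ k < N, ξ s (i₀ + j * N + k) ω = false} ∩
          {ω | ∀ p ∈ T, ξ p.1 p.2 ω = true}ᶜ := by
      ext ω
      simp only [Set.mem_setOf_eq, Set.mem_inter_iff, Set.mem_compl_iff]
      constructor
      · intro h
        refine ⟨fun j hj => h j (by omega), ?_⟩
        intro h2
        obtain ⟨k, hk, h3⟩ := h m (by omega)
        have := h2 (s, i₀ + m * N + k) (by
          simp only [T, Finset.mem_image, Finset.mem_range]
          exact ⟨k, hk, rfl⟩)
        simp only at this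
        rw [this] at h3
        exact absurd h3 (by simp)
      · rintro ⟨h2, h3⟩ j hj
        by_cases hjm : j < m
        · exact h2 j hjm
        · have : j = m := by omega
          subst this
          by_contra hcon
          apply h3
          intro p hp
          simp only [T, Finset.mem_image, Finset.mem_range] at hp
          obtain ⟨k, hk, rfl⟩ := hp
          simp only
          by_contra h4
          exact hcon ⟨k, hk, by simpa using h4⟩
    have h1δ : 0 ≤ 1 - δ ^ N := by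
      have : δ ^ N ≤ 1 := pow_le_one₀ hδ0.le hδ1
      linarith
    rw [eA, eB] at h1
    rw [e, h1, ih, hB, ← ENNReal.ofReal_mul (by positivity), pow_succ]

theorem bound (hδ0 : 0 < δ) (hδ1 : δ ≤ 1) (hm : ∀ n i, Measurable (ξ n i))
    (hind : iIndepFun (fun p : ℕ × ℤ => ξ p.1 p.2) P)
    (hc : ∀ n i, P {ω | ξ n i ω = true} = ENNReal.ofReal δ)
    {X : ℕ → Ω → ℤ → Bool}
    (hX : ∀ n ω i, X (n + 1) ω i = (step (X n ω) i || ξ n i ω))
    {g : ℕ} (hg : 1 ≤ g) (m N M W : ℕ) (hN : N = 8 * g + 3) (hM : M = (m * N + 2) * (g * g))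
    (hW : W = m * N + 12 * g + 3) (s : ℕ) (i₀ : ℤ) :
    P {ω | X (s + 1 + M) ω i₀ = false} ≤
      ENNReal.ofReal ((1 - δ ^ N) ^ m + 2 * ((M + 1) * W : ℕ) * (1 - δ) ^ (g * g)) := by
  classical
  have hf := prob_false hδ0 hm hc
  let I : Finset (ℕ × ℕ) := Finset.range (M + 1) ×ˢ Finset.range W
  let sq : ℕ × ℕ → Finset (ℕ × ℤ) := fun q =>
    (Finset.range g ×ˢ Finset.range g).image fun z : ℕ × ℕ =>
      (s + 1 + (q.1 + z.1), i₀ + q.2 + 2 * z.2 - z.1)
  let seg : ℕ × ℕ → Finset (ℕ × ℤ) := fun q =>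
    (Finset.range (g * g)).image fun p : ℕ => (s + 1 + (q.1 * (g * g) + p), i₀ + q.2)
  have hsqc : ∀ q, (sq q).card = g * g := by
    intro q
    rw [Finset.card_image_of_injective _ (by
      rintro ⟨a, b⟩ ⟨c, d⟩ hab
      simp only [Prod.mk.injEq] at hab ⊢
      omega), Finset.card_product, Finset.card_range]
  have hsegc : ∀ q, (seg q).card = g * g := by
    intro q
    rw [Finset.card_image_of_injective _ (by
      intro a b hab
      simp only [Prod.mk.injEq] at hab
      omega), Finset.card_range]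
  let EA : Set Ω := {ω | ∀ j < m, ∃ k < N, ξ s (i₀ + j * N + k) ω = false}
  let EB : Set Ω := ⋃ q ∈ I, {ω | ∀ p ∈ sq q, ξ p.1 p.2 ω = false}
  let EC : Set Ω := ⋃ q ∈ I, {ω | ∀ p ∈ seg q, ξ p.1 p.2 ω = false}
  have hsub : {ω | X (s + 1 + M) ω i₀ = false} ⊆ EA ∪ EB ∪ EC := by
    intro ω hω
    by_contra hcon
    simp only [Set.mem_union, not_or] at hcon
    obtain ⟨⟨hA, hB⟩, hC⟩ := hcon
    simp only [EA, Set.mem_setOf_eq, not_forall, not_exists, not_and] at hA
    obtain ⟨j, hj, hA⟩ := hA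
    simp only [EB, Set.mem_iUnion, Set.mem_setOf_eq, not_exists] at hB
    simp only [EC, Set.mem_iUnion, Set.mem_setOf_eq, not_exists] at hC
    have hjN : (j + 1) * N ≤ m * N := Nat.mul_le_mul_right _ hj
    have hjN' : j * N + N ≤ m * N := by nlinarith
    have hX' : ∀ t i, X (s + 1 + (t + 1)) ω i =
        (step (X (s + 1 + t) ω) i || ξ (s + 1 + t) i ω) := fun t i => by
      rw [← add_assoc, hX]
    have h1 := island (X := fun t => X (s + 1 + t) ω) (ξ := fun t i => ξ (s + 1 + t) i ω) hX'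
      hg (M := M) (l := i₀ + j * N) (by
        intro t ht i h1 h2
        obtain ⟨k, rfl⟩ : ∃ k : ℕ, i = i₀ + k := ⟨(i - i₀).toNat, by
          have : (0 : ℤ) ≤ j * N := by positivity
          omega⟩
        have hk : k < W := by
          have e : ((j * N : ℕ) : ℤ) = j * N := by push_cast; ring
          omega
        have := hB (t, k) (by simp [I]; omega)
        push Not at this
        obtain ⟨p, hp, hp2⟩ := this
        simp only [sq, Finset.mem_image, Finset.mem_product, Finset.mem_range] at hp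
        obtain ⟨z, ⟨hz1, hz2⟩, rfl⟩ := hp
        exact ⟨z.1, z.2, hz1, hz2, by simpa using hp2⟩) (by
        intro i h1 h2
        obtain ⟨k, rfl⟩ : ∃ k : ℕ, i = i₀ + j * N + k := ⟨(i - (i₀ + j * N)).toNat, by omega⟩
        have := hA k (by omega)
        simp only [add_zero]
        rw [hX]
        have h3 : ξ s (i₀ + j * N + k) ω = true := by simpa using this
        rw [h3]
        simp)
    have h2 := grow (X := fun t => X (s + 1 + t) ω) (ξ := fun t i => ξ (s + 1 + t) i ω) hX'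
      (M := M) (L := g * g) h1 (j * N + 2) (by
        intro k hk
        have hgg : 1 ≤ g * g := Nat.mul_pos hg hg
        have hkM : k < M + 1 := by
          have : m * N + 2 ≤ M := by rw [hM]; exact Nat.le_mul_of_pos_right _ hgg
          omega
        have := hC (k, j * N + 1 - k) (by simp [I]; omega)
        push Not at this
        obtain ⟨p, hp, hp2⟩ := this
        simp only [seg, Finset.mem_image, Finset.mem_range] at hp
        obtain ⟨z, hz, rfl⟩ := hp
        refine ⟨z, hz, ?_⟩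
        have e : i₀ + j * N + 2 - k - 1 = i₀ + ((j * N + 1 - k : ℕ) : ℤ) := by
          rw [Nat.cast_sub (by omega)]
          push_cast
          ring
        rw [e]
        simpa using hp2) M (by
          rw [hM]
          exact Nat.mul_le_mul_right _ (by omega)) le_rfl
    have e : i₀ + j * N + 2 - ((j * N + 2 : ℕ) : ℤ) = i₀ := by push_cast; ring
    rw [e] at h2
    simp only [Set.mem_setOf_eq] at hω
    rw [h2] at hω
    exact absurd hω (by simp)
  have hρ : 0 ≤ 1 - δ := by linarith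
  have h1δ : 0 ≤ 1 - δ ^ N := by
    have : δ ^ N ≤ 1 := pow_le_one₀ hδ0.le hδ1
    linarith
  have hU : ∀ F : ℕ × ℕ → Finset (ℕ × ℤ), (∀ q, (F q).card = g * g) →
      P (⋃ q ∈ I, {ω | ∀ p ∈ F q, ξ p.1 p.2 ω = false}) ≤
        ENNReal.ofReal (((M + 1) * W : ℕ) * (1 - δ) ^ (g * g)) := by
    intro F hF
    refine (measure_biUnion_finset_le _ _).trans (le_of_eq ?_)
    rw [Finset.sum_congr rfl (g := fun _ => ENNReal.ofReal (1 - δ) ^ (g * g)) (fun q _ => by
      rw [all_eq hind false _ hf, hF]), Finset.sum_const, Finset.card_product, Finset.card_range,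
      Finset.card_range, nsmul_eq_mul, ENNReal.ofReal_mul (by positivity),
      ENNReal.ofReal_natCast, ENNReal.ofReal_pow hρ]
  calc P {ω | X (s + 1 + M) ω i₀ = false} ≤ P (EA ∪ EB ∪ EC) := measure_mono hsub
    _ ≤ P EA + P EB + P EC :=
        (measure_union_le _ _).trans (add_le_add_left (measure_union_le _ _) _)
    _ ≤ ENNReal.ofReal ((1 - δ ^ N) ^ m) + ENNReal.ofReal (((M + 1) * W : ℕ) * (1 - δ) ^ (g * g))
        + ENNReal.ofReal (((M + 1) * W : ℕ) * (1 - δ) ^ (g * g)) :=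
        add_le_add (add_le_add (le_of_eq (blocks hδ0 hδ1 hm hind hc s i₀ N m)) (hU sq hsqc))
          (hU seg hsegc)
    _ = _ := by
        rw [← ENNReal.ofReal_add (by positivity) (by positivity),
          ← ENNReal.ofReal_add (by positivity) (by positivity)]
        congr 1
        ring

end prob

theorem params {δ : ℝ} (hδ0 : 0 < δ) (hδ1 : δ ≤ 1) {η : ℝ} (hη : 0 < η) :
    ∃ g m N M W : ℕ, 1 ≤ g ∧ N = 8 * g + 3 ∧ M = (m * N + 2) * (g * g) ∧
      W = m * N + 12 * g + 3 ∧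
      (1 - δ ^ N) ^ m + 2 * ((M + 1) * W : ℕ) * (1 - δ) ^ (g * g) ≤ η := by
  obtain ⟨D, hD⟩ := exists_nat_ge (1 / δ)
  have hD1 : 1 ≤ δ * D := by
    rw [div_le_iff₀ hδ0] at hD; linarith
  have hD0 : 1 ≤ D := by
    by_contra h
    have : D = 0 := by omega
    subst this
    norm_num at hD1
  set E : ℕ := 16 * (104 * D ^ 11) ^ 2 with hE
  have hρ0 : 0 ≤ 1 - δ := by linarith
  have t1 : Tendsto (fun g : ℕ => (E : ℝ) * (1 - δ) ^ g) atTop (𝓝 (E * 0)) :=
    (tendsto_pow_atTop_nhds_zero_of_lt_one hρ0 (by linarith)).const_mul _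
  have t2 : Tendsto (fun g : ℕ => (1 / 2 : ℝ) ^ g) atTop (𝓝 0) :=
    tendsto_pow_atTop_nhds_zero_of_lt_one (by norm_num) (by norm_num)
  rw [mul_zero] at t1
  have e1 := t1.eventually (gt_mem_nhds (show (0 : ℝ) < 1 / 2 by norm_num))
  have e2 := t2.eventually (gt_mem_nhds (show (0 : ℝ) < η / 2 by linarith))
  obtain ⟨g, ⟨hg1, hg2⟩, hg⟩ := ((e1.and e2).and (eventually_ge_atTop 1)).exists
  refine ⟨g, g * D ^ (8 * g + 3), 8 * g + 3, _, _, hg, rfl, rfl, rfl, ?_⟩
  set N := 8 * g + 3 with hN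
  set m := g * D ^ N with hm
  set M := (m * N + 2) * (g * g) with hM
  set W := m * N + 12 * g + 3 with hW
  have a1 : (1 - δ ^ N) ^ m ≤ (1 / 2 : ℝ) ^ g := by
    have h1δ : 0 ≤ 1 - δ ^ N := by
      have : δ ^ N ≤ 1 := pow_le_one₀ hδ0.le hδ1
      linarith
    have b1 : 1 - δ ^ N ≤ Real.exp (-δ ^ N) := by
      have := Real.add_one_le_exp (-δ ^ N); linarith
    have b2 : (1 : ℝ) ≤ δ ^ N * (D : ℝ) ^ N := by
      rw [← mul_pow]; exact one_le_pow₀ hD1
    have b3 : (1 - δ ^ N) ^ (D ^ N) ≤ 1 / 2 := by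
      calc (1 - δ ^ N) ^ (D ^ N) ≤ (Real.exp (-δ ^ N)) ^ (D ^ N) := pow_le_pow_left₀ h1δ b1 _
        _ = Real.exp (-(δ ^ N * (D : ℝ) ^ N)) := by
          rw [← Real.exp_nat_mul]; congr 1; push_cast; ring
        _ ≤ Real.exp (-1) := Real.exp_le_exp.2 (by linarith)
        _ ≤ 1 / 2 := by
          rw [Real.exp_neg, inv_eq_one_div]
          apply one_div_le_one_div_of_le (by norm_num)
          have := Real.exp_one_gt_d9
          linarith
    rw [hm, mul_comm, pow_mul]
    exact pow_le_pow_left₀ (by positivity) b3 _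
  have a2 : 2 * ((M + 1) * W) ≤ E ^ g := by
    have c1 : g ≤ 2 ^ g := Nat.lt_two_pow_self.le
    have c2 : D ^ N ≤ (D ^ 11) ^ g := by
      rw [← pow_mul]; exact Nat.pow_le_pow_right hD0 (by omega)
    have c3 : 1 ≤ D ^ N := Nat.one_le_pow _ _ hD0
    have c4 : g * g ≤ 4 ^ g := by
      calc g * g ≤ 2 ^ g * 2 ^ g := Nat.mul_le_mul c1 c1
        _ = 4 ^ g := by rw [← mul_pow]; norm_num
    have c5 : W ≤ 26 * (g * g) * D ^ N := by
      have d1 : m * N ≤ 11 * (g * g) * D ^ N := by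
        calc m * N ≤ m * (11 * g) := Nat.mul_le_mul_left _ (by omega)
          _ = _ := by rw [hm]; ring
      have d2 : g ≤ g * g * D ^ N := by
        calc g = g * 1 * 1 := by ring
          _ ≤ g * g * D ^ N := Nat.mul_le_mul (Nat.mul_le_mul_left _ hg) c3
      have d3 : 26 * (g * g) * D ^ N = 11 * (g * g) * D ^ N + 15 * (g * g * D ^ N) := by ring
      omega
    have c6 : ∀ c : ℕ, 1 ≤ c → c ≤ c ^ g := fun c hc => Nat.le_self_pow (by omega) c
    have c7 : W ≤ (104 * D ^ 11) ^ g := by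
      calc W ≤ 26 * (g * g) * D ^ N := c5
        _ ≤ 26 ^ g * 4 ^ g * (D ^ 11) ^ g :=
          Nat.mul_le_mul (Nat.mul_le_mul (c6 26 (by norm_num)) c4) c2
        _ = _ := by rw [← mul_pow, ← mul_pow]; norm_num
    have c8 : M + 1 ≤ 2 * (W * (g * g)) := by
      have d1 : M ≤ W * (g * g) := Nat.mul_le_mul_right _ (by omega)
      have d2 : 1 ≤ W * (g * g) := Nat.mul_pos (by omega) (Nat.mul_pos hg hg)
      omega
    calc 2 * ((M + 1) * W) ≤ 2 * (2 * (W * (g * g)) * W) :=
          Nat.mul_le_mul_left _ (Nat.mul_le_mul_right _ c8)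
      _ = 4 * (g * g) * (W * W) := by ring
      _ ≤ 4 ^ g * 4 ^ g * ((104 * D ^ 11) ^ g * (104 * D ^ 11) ^ g) :=
          Nat.mul_le_mul (Nat.mul_le_mul (c6 4 (by norm_num)) c4) (Nat.mul_le_mul c7 c7)
      _ = E ^ g := by
          rw [hE, ← mul_pow, ← mul_pow, ← mul_pow]
          congr 1
          ring
  have a3 : 2 * (((M + 1) * W : ℕ) : ℝ) * (1 - δ) ^ (g * g) ≤ (1 / 2 : ℝ) ^ g := by
    have d1 : 2 * (((M + 1) * W : ℕ) : ℝ) ≤ (E : ℝ) ^ g := by exact_mod_cast a2
    calc 2 * (((M + 1) * W : ℕ) : ℝ) * (1 - δ) ^ (g * g) ≤ (E : ℝ) ^ g * (1 - δ) ^ (g * g) :=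
          mul_le_mul_of_nonneg_right d1 (by positivity)
      _ = (E * (1 - δ) ^ g) ^ g := by rw [mul_pow, pow_mul]
      _ ≤ _ := pow_le_pow_left₀ (by positivity) hg1.le _
  linarith

theorem plus {Ω : Type} [MeasurableSpace Ω] {P : Measure Ω} [IsProbabilityMeasure P] {δ : ℝ}
    {ξ : ℕ → ℤ → Ω → Bool} (hδ0 : 0 < δ) (hδ1 : δ ≤ 1) (hm : ∀ n i, Measurable (ξ n i))
    (hind : iIndepFun (fun p : ℕ × ℤ => ξ p.1 p.2) P)
    (hc : ∀ n i, P {ω | ξ n i ω = true} = ENNReal.ofReal δ)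
    {X : ℕ → Ω → ℤ → Bool}
    (hX : ∀ n ω i, X (n + 1) ω i = (step (X n ω) i || ξ n i ω)) (i : ℤ) :
    Tendsto (fun n => P {ω | X n ω i = false}) atTop (𝓝 0) := by
  rw [ENNReal.tendsto_nhds_zero]
  intro ε hε
  obtain ⟨η, hη0, hη⟩ : ∃ η : ℝ, 0 < η ∧ ENNReal.ofReal η ≤ ε := by
    by_cases h : ε = ⊤
    · exact ⟨1, one_pos, by simp [h]⟩
    · exact ⟨ε.toReal, ENNReal.toReal_pos hε.ne' h, by rw [ENNReal.ofReal_toReal h]⟩
  obtain ⟨g, m, N, M, W, hg, hN, hM, hW, hb⟩ := params hδ0 hδ1 hη0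
  filter_upwards [eventually_ge_atTop (1 + M)] with n hn
  obtain ⟨s, rfl⟩ : ∃ s, n = s + 1 + M := ⟨n - (1 + M), by omega⟩
  exact (bound hδ0 hδ1 hm hind hc hX hg m N M W hN hM hW s i).trans
    ((ENNReal.ofReal_le_ofReal hb).trans hη)

theorem minus {Ω : Type} [MeasurableSpace Ω] {P : Measure Ω} [IsProbabilityMeasure P] {δ : ℝ}
    {ξ : ℕ → ℤ → Ω → Bool} (hδ0 : 0 < δ) (hδ1 : δ ≤ 1) (hm : ∀ n i, Measurable (ξ n i))
    (hind : iIndepFun (fun p : ℕ × ℤ => ξ p.1 p.2) P)
    (hc : ∀ n i, P {ω | ξ n i ω = false} = ENNReal.ofReal δ)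
    {X : ℕ → Ω → ℤ → Bool}
    (hX : ∀ n ω i, X (n + 1) ω i = (step (X n ω) i && ξ n i ω)) (i : ℤ) :
    Tendsto (fun n => P {ω | X n ω i = true}) atTop (𝓝 0) := by
  have hind' : iIndepFun (fun p : ℕ × ℤ => fun ω => !ξ p.1 (-p.2) ω) P := by
    have h1 := hind.precomp (g := fun p : ℕ × ℤ => (p.1, -p.2)) (by
      rintro ⟨a, b⟩ ⟨c, d⟩ h
      simp only [Prod.mk.injEq] at h ⊢
      omega)
    exact h1.comp (fun _ b => !b) (fun _ => measurable_of_countable _)
  have := plus (P := P) (ξ := fun n i ω => !ξ n (-i) ω) (X := fun n ω i => !X n ω (-i)) hδ0 hδ1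
    (fun n i => (measurable_of_countable (fun b : Bool => !b)).comp (hm n (-i))) hind'
    (fun n i => by simpa using hc n (-i)) (by
      intro n ω i
      rw [hX]
      unfold step
      have e1 : -(i + 1) = -i - 1 := by ring
      have e2 : -(i + 3) = -i - 3 := by ring
      have e3 : -(i - 1) = -i + 1 := by ring
      have e4 : -(i - 3) = -i + 3 := by ring
      simp only [e1, e2, e3, e4]
      cases X n ω (-i) <;> cases X n ω (-i + 1) <;> cases X n ω (-i + 3) <;>
        cases X n ω (-i - 1) <;> cases X n ω (-i - 3) <;> cases ξ n (-i) ω <;> rfl) (-i)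
  simpa using this

end Pool.Agent.H216Z.Sold
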