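import Pool.Agent.H369Z.Hoh.Defs

/-! The classical zero-free region with the bound for the logarithmic derivative. -/

set_option autoImplicit false

namespace Pool.Agent.H216Z.ZFR

open Pool.Agent.H437R2 Pool.Agent.H369Z.Hoh Complex

noncomputable section

/-- logarithmic derivative of `(s - 1) ζ(s)` -/
def DD (s : ℂ) : ℂ := deriv riemannZeta₁ s / riemannZeta₁ s

/-- the L-series of the von Mangoldt function -/
def LL (s : ℂ) : ℂ := LSeries (fun n => ((ArithmeticFunction.vonMangoldt n : ℝ) : ℂ)) s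

theorem z1_ne {s : ℂ} (hs : 1 ≤ s.re) : riemannZeta₁ s ≠ 0 := fun h => by
  have := z1_zero_re h
  linarith

theorem LL_eq {s : ℂ} (hs : 1 < s.re) : LL s = (s - 1)⁻¹ - DD s := by
  have hs1 : s ≠ 1 := by
    rintro rfl
    simp at hs
  have h1 := z1_ne hs.le
  have h2 : s - 1 ≠ 0 := sub_ne_zero.2 hs1
  unfold LL DD
  rw [ArithmeticFunction.LSeries_vonMangoldt_eq_deriv_riemannZeta_div hs,
    deriv_riemannZeta_eq_neg_inv_sub_sq_mul_add hs1, riemannZeta_eq_inv_sub_mul hs1]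
  field_simp
  ring

theorem term_eq (σ t : ℝ) {n : ℕ} (hn : n ≠ 0) :
    LSeries.term (fun n => ((ArithmeticFunction.vonMangoldt n : ℝ) : ℂ)) (σ + t * I) n =
      ((ArithmeticFunction.vonMangoldt n * (n : ℝ) ^ (-σ) : ℝ) : ℂ) *
        cexp ((-(t * Real.log n) : ℝ) * I) := by
  have hn0 : (n : ℂ) ≠ 0 := by exact_mod_cast hn
  have hpos : (0 : ℝ) < n := by exact_mod_cast Nat.pos_of_ne_zero hn
  rw [LSeries.term_of_ne_zero hn, div_eq_mul_inv, ← cpow_neg, cpow_def_of_ne_zero hn0,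
    Real.rpow_def_of_pos hpos]
  have hl : Complex.log (n : ℂ) = ((Real.log n : ℝ) : ℂ) := by
    rw [Complex.natCast_log]
  rw [hl]
  push_cast
  rw [mul_assoc, ← Complex.exp_add]
  congr 2
  ring

theorem term_re (σ t : ℝ) (n : ℕ) :
    (LSeries.term (fun n => ((ArithmeticFunction.vonMangoldt n : ℝ) : ℂ)) (σ + t * I) n).re =
      ArithmeticFunction.vonMangoldt n * (n : ℝ) ^ (-σ) * Real.cos (t * Real.log n) := by
  rcases eq_or_ne n 0 with rfl | hn
  · simp
  · rw [term_eq σ t hn, re_ofReal_mul, exp_ofReal_mul_I_re, Real.cos_neg]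

theorem term_norm (σ t : ℝ) (n : ℕ) :
    ‖LSeries.term (fun n => ((ArithmeticFunction.vonMangoldt n : ℝ) : ℂ)) (σ + t * I) n‖ =
      ArithmeticFunction.vonMangoldt n * (n : ℝ) ^ (-σ) := by
  rcases eq_or_ne n 0 with rfl | hn
  · simp
  · rw [term_eq σ t hn, norm_mul, norm_exp_ofReal_mul_I, mul_one, Complex.norm_real,
      Real.norm_of_nonneg]
    exact mul_nonneg ArithmeticFunction.vonMangoldt_nonneg (by positivity)

theorem summ {σ : ℝ} (hσ : 1 < σ) (t : ℝ) :
    Summable (LSeries.term (fun n => ((ArithmeticFunction.vonMangoldt n : ℝ) : ℂ)) (σ + t * I)) :=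
  ArithmeticFunction.LSeriesSummable_vonMangoldt (by simpa using hσ)

theorem hasSum_re {σ : ℝ} (hσ : 1 < σ) (t : ℝ) :
    HasSum (fun n : ℕ => ArithmeticFunction.vonMangoldt n * (n : ℝ) ^ (-σ) *
      Real.cos (t * Real.log n)) (LL (σ + t * I)).re := by
  have h := Complex.hasSum_re (summ hσ t).hasSum
  simp only [term_re] at h
  exact h

theorem three_four_one {σ : ℝ} (hσ : 1 < σ) (t : ℝ) :
    0 ≤ 3 * (LL (σ + (0 : ℝ) * I)).re + 4 * (LL (σ + t * I)).re +
      (LL (σ + (2 * t : ℝ) * I)).re := by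
  have h := (((hasSum_re hσ 0).mul_left 3).add ((hasSum_re hσ t).mul_left 4)).add
    (hasSum_re hσ (2 * t))
  refine h.nonneg fun n => ?_
  have h0 : 0 ≤ ArithmeticFunction.vonMangoldt n * (n : ℝ) ^ (-σ) :=
    mul_nonneg ArithmeticFunction.vonMangoldt_nonneg (by positivity)
  have h1 : Real.cos (2 * t * Real.log n) = 2 * Real.cos (t * Real.log n) ^ 2 - 1 := by
    rw [mul_assoc, Real.cos_two_mul]
  rw [h1, zero_mul, Real.cos_zero]
  have h2 := mul_nonneg h0 (sq_nonneg (1 + Real.cos (t * Real.log n)))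
  nlinarith

theorem norm_LL_le {σ : ℝ} (hσ : 1 < σ) (t : ℝ) :
    ‖LL (σ + t * I)‖ ≤ (LL (σ + (0 : ℝ) * I)).re := by
  have h0 := hasSum_re hσ 0
  simp only [zero_mul, Real.cos_zero, mul_one] at h0
  unfold LL LSeries
  refine tsum_of_norm_bounded h0 fun n => ?_
  exact (term_norm σ t n).le

theorem list_re_nonneg (L : List ℂ) (g : ℂ → ℂ) (h : ∀ ρ ∈ L, 0 ≤ (g ρ).re) :
    0 ≤ ((L.map g).sum).re := by
  induction L with
  | nil => simp
  | cons a L ih =>
    simp only [List.map_cons, List.sum_cons, add_re]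
    exact add_nonneg (h a List.mem_cons_self) (ih fun x hx => h x (List.mem_cons_of_mem _ hx))

theorem list_re_ge (L : List ℂ) (g : ℂ → ℂ) (h : ∀ ρ ∈ L, 0 ≤ (g ρ).re) {r : ℂ} (hr : r ∈ L) :
    (g r).re ≤ ((L.map g).sum).re := by
  induction L with
  | nil => simp at hr
  | cons a L ih =>
    simp only [List.map_cons, List.sum_cons, add_re]
    have h1 := h a List.mem_cons_self
    have h2 : ∀ x ∈ L, 0 ≤ (g x).re := fun x hx => h x (List.mem_cons_of_mem _ hx)
    rcases List.mem_cons.1 hr with rfl | hr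
    · have := list_re_nonneg L g h2
      linarith
    · have := ih h2 hr
      linarith

theorem list_diff (L : List ℂ) (f g : ℂ → ℂ) (h : ∀ ρ ∈ L, ‖f ρ - g ρ‖ ≤ 2 * (g ρ).re) :
    ‖(L.map f).sum - (L.map g).sum‖ ≤ 2 * ((L.map g).sum).re := by
  induction L with
  | nil => simp
  | cons a L ih =>
    simp only [List.map_cons, List.sum_cons, add_re]
    have h1 := h a List.mem_cons_self
    have h2 := ih fun x hx => h x (List.mem_cons_of_mem _ hx)
    have e : f a + (L.map f).sum - (g a + (L.map g).sum) =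
        (f a - g a) + ((L.map f).sum - (L.map g).sum) := by ring
    rw [e]
    have := norm_add_le (f a - g a) ((L.map f).sum - (L.map g).sum)
    linarith

theorem inv_re_nonneg {z : ℂ} (hz : 0 ≤ z.re) : 0 ≤ (z⁻¹).re := by
  rw [inv_re]
  exact div_nonneg hz (normSq_nonneg z)

theorem ell_zero_le (t : ℝ) : ell 0 ≤ ell t := by
  unfold ell
  apply Real.log_le_log (by norm_num)
  have := abs_nonneg t
  simp only [abs_zero]
  linarith

theorem ell_le_two {t u : ℝ} (h : |u| ≤ 2 * |t| + 2) : ell u ≤ 2 * ell t := by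
  unfold ell
  have h0 := abs_nonneg t
  have e : 2 * Real.log (|t| + 3) = Real.log ((|t| + 3) ^ 2) := by
    rw [Real.log_pow]; norm_num
  rw [e]
  apply Real.log_le_log (by positivity)
  nlinarith

theorem near (σ t : ℝ) {r : ℝ} (h1 : 2 - r ≤ σ) (h2 : σ ≤ 2) :
    ‖((σ : ℂ) + t * I) - (2 + t * I)‖ ≤ r := by
  have e : ((σ : ℂ) + t * I) - (2 + t * I) = ((σ - 2 : ℝ) : ℂ) := by push_cast; ring
  rw [e, Complex.norm_real, Real.norm_eq_abs, abs_le]
  constructor <;> linarith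

theorem zero_im {ρ : ℂ} (h : riemannZeta₁ ρ = 0) (hb : 3 / 4 ≤ ρ.re) : 1 / 2 ≤ |ρ.im| := by
  have h0 : 0 < ρ.re := by linarith
  have h1 := z1_zero_re h
  rw [z1_eq h0] at h
  unfold Zt at h
  have hρ : ρ ≠ 0 := by
    rintro rfl
    simp at h0
  have h2 : (ρ - 1) * Hf ρ = 1 := by
    have : ρ * (1 - (ρ - 1) * Hf ρ) = 0 := by rw [← h]; ring
    rcases mul_eq_zero.1 this with h3 | h3
    · exact absurd h3 hρ
    · exact (sub_eq_zero.1 h3).symm
  have h3 : 1 ≤ ‖ρ - 1‖ * (1 / ρ.re) := by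
    calc (1 : ℝ) = ‖(ρ - 1) * Hf ρ‖ := by rw [h2, norm_one]
      _ = ‖ρ - 1‖ * ‖Hf ρ‖ := norm_mul _ _
      _ ≤ _ := mul_le_mul_of_nonneg_left (Hf_norm_le h0) (norm_nonneg _)
  rw [mul_one_div, le_div_iff₀ h0, one_mul] at h3
  have h4 := norm_le_abs_re_add_abs_im (ρ - 1)
  simp only [sub_re, one_re, sub_im, one_im, sub_zero] at h4
  have h5 : |ρ.re - 1| ≤ 1 / 4 := by rw [abs_le]; constructor <;> linarith
  linarith

theorem inv_re_le_two {a t : ℝ} (ht : 1 / 2 ≤ |t|) : (((a : ℂ) + t * I - 1)⁻¹).re ≤ 2 := by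
  refine (re_le_norm _).trans ?_
  rw [norm_inv]
  have h1 := abs_im_le_norm ((a : ℂ) + t * I - 1)
  simp only [sub_im, add_im, ofReal_im, mul_im, ofReal_re, I_im, mul_one, I_re, mul_zero,
    add_zero, zero_add, one_im, sub_zero] at h1
  rw [inv_le_comm₀ (by linarith) (by norm_num)]
  linarith

theorem zfr : S_ZFR := by
  obtain ⟨C0, hC0, hloc⟩ := zeta_local
  -- upper bounds for the real part of `LL`
  have hup : ∀ σ t : ℝ, 1 < σ → σ ≤ 2 →
      (LL (σ + t * I)).re ≤ (((σ : ℂ) + t * I - 1)⁻¹).re + C0 * ell t ∧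
      ∀ b : ℝ, 3 / 4 ≤ b → riemannZeta₁ (b + t * I) = 0 →
        (LL (σ + t * I)).re ≤ (((σ : ℂ) + t * I - 1)⁻¹).re + C0 * ell t - 1 / (σ - b) := by
    intro σ t h1 h2
    obtain ⟨L, hL1, hL2, _, hL4⟩ := hloc t
    have hre : ((σ : ℂ) + t * I).re = σ := by simp
    have h3 := hL4 (σ + t * I) (near σ t (by linarith) h2) (z1_ne (by rw [hre]; exact h1.le))
    have h4 := (abs_re_le_norm _).trans h3
    rw [sub_re, abs_le] at h4
    have hnn : ∀ ρ ∈ L, 0 ≤ (((σ : ℂ) + t * I - ρ)⁻¹).re := by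
      intro ρ hρ
      apply inv_re_nonneg
      have := z1_zero_re (hL1 ρ hρ).1
      rw [sub_re, hre]
      linarith
    rw [LL_eq (by rw [hre]; exact h1), sub_re]
    unfold DD
    constructor
    · have := list_re_nonneg L _ hnn
      linarith [h4.1]
    · intro b hb hz
      have hb1 : b < 1 := by simpa using z1_zero_re hz
      have hmem := hL2 (b + t * I) (near b t (by linarith) (by linarith)) hz
      have h5 := list_re_ge L _ hnn hmem
      have e : (σ : ℂ) + t * I - (b + t * I) = ((σ - b : ℝ) : ℂ) := by push_cast; ring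
      rw [e, ← ofReal_inv, ofReal_re, ← one_div] at h5
      linarith [h4.1]
  have hreal : ∀ σ : ℝ, 1 < σ → σ ≤ 2 →
      (LL (σ + (0 : ℝ) * I)).re ≤ 1 / (σ - 1) + C0 * ell 0 := by
    intro σ h1 h2
    have h3 := (hup σ 0 h1 h2).1
    have e : (σ : ℂ) + (0 : ℝ) * I - 1 = ((σ - 1 : ℝ) : ℂ) := by push_cast; ring
    rw [e, ← ofReal_inv, ofReal_re, ← one_div] at h3
    exact h3
  obtain ⟨C1, hC1⟩ : ∃ C1 : ℝ, C1 = 10 + 9 * C0 := ⟨_, rfl⟩
  have hC1' : 10 ≤ C1 := by linarith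
  obtain ⟨c0, hc0⟩ : ∃ c0 : ℝ, c0 = 1 / (14 * C1) := ⟨_, rfl⟩
  have hc0p : 0 < c0 := by rw [hc0]; positivity
  have hc04 : c0 ≤ 1 / 4 := by
    rw [hc0]; exact one_div_le_one_div_of_le (by norm_num) (by linarith)
  -- the zero-free region
  have hZ : ∀ ρ : ℂ, riemannZeta₁ ρ = 0 → c0 / ell ρ.im ≤ 1 - ρ.re := by
    intro ρ hρ
    have hl := one_le_ell ρ.im
    by_cases hb : 3 / 4 ≤ ρ.re
    · have ht := zero_im hρ hb
      have hb1 := z1_zero_re hρ
      obtain ⟨x, hx⟩ : ∃ x : ℝ, x = C1 * ell ρ.im := ⟨_, rfl⟩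
      have hx1 : 10 ≤ x := by rw [hx]; nlinarith
      obtain ⟨σ, hσ⟩ : ∃ σ : ℝ, σ = 1 + 1 / (2 * x) := ⟨_, rfl⟩
      have hp : 0 < 1 / (2 * x) := by positivity
      have hp2 : 1 / (2 * x) ≤ 1 := by
        rw [div_le_one (by positivity)]; linarith
      have hσ1 : 1 < σ := by linarith
      have hσ2 : σ ≤ 2 := by linarith
      have h1 := three_four_one hσ1 ρ.im
      have h2 := hreal σ hσ1 hσ2
      have h3 := (hup σ ρ.im hσ1 hσ2).2 ρ.re hb (by rw [re_add_im]; exact hρ)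
      have h4 := (hup σ (2 * ρ.im) hσ1 hσ2).1
      have h5 := inv_re_le_two (a := σ) ht
      have h6 := inv_re_le_two (a := σ) (t := 2 * ρ.im) (by
        rw [abs_mul, abs_two]; linarith)
      have h7 := ell_zero_le ρ.im
      have h8 : ell (2 * ρ.im) ≤ 2 * ell ρ.im := ell_le_two (by rw [abs_mul, abs_two]; linarith)
      have h9 : 1 / (σ - 1) = 2 * x := by rw [hσ]; field_simp; ring
      have h10 := mul_le_mul_of_nonneg_left h7 hC0.le
      have h11 := mul_le_mul_of_nonneg_left h8 hC0.le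
      have h12 : x = 10 * ell ρ.im + 9 * (C0 * ell ρ.im) := by rw [hx, hC1]; ring
      have h13 : 4 * (1 / (σ - ρ.re)) ≤ 7 * x := by nlinarith
      have h14 : 0 < σ - ρ.re := by linarith
      rw [mul_one_div, div_le_iff₀ h14] at h13
      have h15 : c0 / ell ρ.im = 1 / (14 * x) := by
        rw [hc0, hx]; field_simp
      rw [h15, div_le_iff₀ (by positivity)]
      have h16 : x * σ = x + 1 / 2 := by rw [hσ]; field_simp
      nlinarith
    · have : c0 / ell ρ.im ≤ c0 := div_le_self hc0p.le hl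
      linarith
  obtain ⟨c, hc⟩ : ∃ c : ℝ, c = c0 / 4 := ⟨_, rfl⟩
  have hcp : 0 < c := by rw [hc]; positivity
  have hright : ∀ σ t : ℝ, 1 + c / ell t ≤ σ → σ ≤ 2 →
      ‖DD (σ + t * I)‖ ≤ (2 / c + C0) * ell t := by
    intro σ t h1 h2
    have hl := one_le_ell t
    have hη : 0 < c / ell t := by positivity
    have hσ1 : 1 < σ := by linarith
    have hre : ((σ : ℂ) + t * I).re = σ := by simp
    have e : DD (σ + t * I) = ((σ : ℂ) + t * I - 1)⁻¹ - LL (σ + t * I) := by
      rw [LL_eq (by rw [hre]; exact hσ1)]; ring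
    have h3 : 1 / (σ - 1) ≤ ell t / c := by
      rw [← one_div_div c (ell t)]
      exact one_div_le_one_div_of_le hη (by linarith)
    have h4 : ‖((σ : ℂ) + t * I - 1)⁻¹‖ ≤ 1 / (σ - 1) := by
      rw [norm_inv, ← one_div]
      apply one_div_le_one_div_of_le (by linarith)
      have := re_le_norm ((σ : ℂ) + t * I - 1)
      rwa [sub_re, hre, one_re] at this
    have h5 := (norm_LL_le hσ1 t).trans (hreal σ hσ1 h2)
    have h6 := mul_le_mul_of_nonneg_left (ell_zero_le t) hC0.le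
    have h7 := norm_sub_le (((σ : ℂ) + t * I - 1)⁻¹) (LL (σ + t * I))
    have h8 : (2 / c + C0) * ell t = 2 * (ell t / c) + C0 * ell t := by ring
    rw [e, h8]
    linarith
  refine ⟨c, 6 / c + 7 * C0, hcp, by linarith, by positivity, ?_⟩
  intro s hs1 hs2
  have hl := one_le_ell s.im
  obtain ⟨η, hη⟩ : ∃ η : ℝ, η = c / ell s.im := ⟨_, rfl⟩
  have hηp : 0 < η := by rw [hη]; positivity
  have hηc : η ≤ c := by rw [hη]; exact div_le_self hcp.le hl
  have hη4 : c0 / ell s.im = 4 * η := by rw [hη, hc]; ring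
  rw [← hη] at hs1
  have hne : riemannZeta₁ s ≠ 0 := by
    intro h
    have := hZ s h
    linarith
  refine ⟨hne, ?_⟩
  have hcl : 0 ≤ 2 / c * ell s.im := by positivity
  have hCl : 0 ≤ C0 * ell s.im := by positivity
  by_cases hcase : 1 + η ≤ s.re
  · have h := hright s.re s.im (by rw [← hη]; exact hcase) hs2
    rw [re_add_im] at h
    unfold DD at h
    refine h.trans ?_
    have : (6 / c + 7 * C0) * ell s.im = 3 * (2 / c * ell s.im) + 7 * (C0 * ell s.im) := by ring
    rw [this, add_mul]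
    linarith
  · push Not at hcase
    obtain ⟨L, hL1, _, _, hL4⟩ := hloc s.im
    have h1 := hright (1 + η) s.im (by rw [← hη]) (by linarith)
    set s1 : ℂ := ((1 + η : ℝ) : ℂ) + s.im * I with hs1def
    have hs1re : s1.re = 1 + η := by simp [hs1def]
    have hs1im : s1.im = s.im := by simp [hs1def]
    have h2 := hL4 s1 (near (1 + η) s.im (by linarith) (by linarith))
      (z1_ne (by rw [hs1re]; linarith))
    have h3 := hL4 s (by
      have := near s.re s.im (r := 5 / 4) (by linarith) hs2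
      rwa [re_add_im] at this) hne
    have h4 := list_diff L (fun ρ => (s - ρ)⁻¹) (fun ρ => (s1 - ρ)⁻¹) (by
      intro ρ hρ
      obtain ⟨hz, hd⟩ := hL1 ρ hρ
      have a1 := (abs_im_le_norm _).trans hd
      simp only [sub_im, add_im, mul_im, ofReal_re, I_im, mul_one, ofReal_im, I_re, mul_zero,
        add_zero, im_ofNat, zero_add] at a1
      have a2 : ell ρ.im ≤ 2 * ell s.im := by
        apply ell_le_two
        have := abs_sub_abs_le_abs_sub ρ.im s.im
        have := abs_nonneg s.im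
        linarith
      have a3 : 2 * η ≤ 1 - ρ.re := by
        refine le_trans ?_ (hZ ρ hz)
        have : 2 * η = c0 / (2 * ell s.im) := by rw [hη, hc]; field_simp; ring
        rw [this]
        exact div_le_div_of_nonneg_left hc0p.le (by linarith [one_le_ell ρ.im]) a2
      have b1 : η ≤ (s - ρ).re := by rw [sub_re]; linarith
      have b2 : (s1 - ρ).re = 1 + η - ρ.re := by rw [sub_re, hs1re]
      have w0 : s - ρ ≠ 0 := by
        intro h; rw [h] at b1; simp at b1; linarith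
      have w1 : s1 - ρ ≠ 0 := by
        intro h; rw [h] at b2; simp at b2; linarith
      have n0 : 0 < ‖s - ρ‖ := norm_pos_iff.2 w0
      have n1 : 0 < ‖s1 - ρ‖ := norm_pos_iff.2 w1
      have e : (s - ρ)⁻¹ - (s1 - ρ)⁻¹ = (s1 - s) / ((s - ρ) * (s1 - ρ)) := by
        field_simp; ring
      have d1 : ‖s1 - s‖ ≤ 2 * η := by
        have : s1 - s = ((1 + η - s.re : ℝ) : ℂ) := by
          apply Complex.ext <;> simp [hs1re, hs1im]
        rw [this, Complex.norm_real, Real.norm_eq_abs, abs_le]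
        constructor <;> linarith
      have d2 : ‖s1 - ρ‖ ≤ 3 * ‖s - ρ‖ := by
        have e2 : s1 - ρ = (s1 - s) + (s - ρ) := by ring
        have := norm_add_le (s1 - s) (s - ρ)
        have := re_le_norm (s - ρ)
        rw [e2]
        linarith
      rw [e, norm_div, norm_mul, inv_re, normSq_eq_norm_sq, b2, ← mul_div_assoc,
        div_le_div_iff₀ (by positivity) (by positivity)]
      have f1 : ‖s1 - s‖ * ‖s1 - ρ‖ ≤ 2 * η * (3 * ‖s - ρ‖) :=
        mul_le_mul d1 d2 n1.le (by positivity)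
      have f2 : 2 * η * (3 * ‖s - ρ‖) ≤ 2 * (1 + η - ρ.re) * ‖s - ρ‖ := by nlinarith
      calc ‖s1 - s‖ * ‖s1 - ρ‖ ^ 2 = (‖s1 - s‖ * ‖s1 - ρ‖) * ‖s1 - ρ‖ := by ring
        _ ≤ (2 * (1 + η - ρ.re) * ‖s - ρ‖) * ‖s1 - ρ‖ :=
            mul_le_mul_of_nonneg_right (f1.trans f2) n1.le
        _ = _ := by ring)
    unfold DD at h1
    set A := deriv riemannZeta₁ s / riemannZeta₁ s
    set A1 := deriv riemannZeta₁ s1 / riemannZeta₁ s1
    set S := (L.map (fun ρ => (s - ρ)⁻¹)).sum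
    set S1 := (L.map (fun ρ => (s1 - ρ)⁻¹)).sum
    have g1 : ‖S1‖ ≤ ‖A1‖ + C0 * ell s.im := by
      have e : S1 = A1 - (A1 - S1) := by ring
      have := norm_sub_le A1 (A1 - S1)
      rw [← e] at this
      linarith
    have g2 := re_le_norm S1
    have g3 : ‖A‖ ≤ ‖A - S‖ + ‖S - S1‖ + ‖S1‖ := by
      have e : A = (A - S) + (S - S1) + S1 := by ring
      have := norm_add₃_le (a := A - S) (b := S - S1) (c := S1)
      rwa [← e] at this
    have : (6 / c + 7 * C0) * ell s.im = 3 * ((2 / c + C0) * ell s.im) + 4 * (C0 * ell s.im) := by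
      ring
    rw [this]
    linarith

end

end Pool.Agent.H216Z.ZFR
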